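import Pool.Agent.FBM.StmtE

/-!
# FBM, block E: regularity inside the edges (module FBM_E1)
-/

open MeasureTheory Set Filter Topology
open scoped Real

namespace Pool.Agent.FBM

namespace E1

theorem edgeR_iff {D : Dat} {θ : ℝ} {e : Edge} (h : EdgeR D θ e) :
    ∃ c, θ < c ∧ ∀ s ∈ Ioo θ c, OnEdge D s e := by
  obtain ⟨c, hc, hsub⟩ := mem_nhdsGT_iff_exists_Ioo_subset.1 h
  exact ⟨c, hc, fun s hs => hsub hs⟩

theorem edgeL_iff {D : Dat} {θ : ℝ} {e : Edge} (h : EdgeL D θ e) :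
    ∃ a, a < θ ∧ ∀ s ∈ Ioo a θ, OnEdge D s e := by
  obtain ⟨a, ha, hsub⟩ := mem_nhdsLT_iff_exists_Ioo_subset.1 h
  exact ⟨a, ha, fun s hs => hsub hs⟩

theorem hArc_union {F : ℂ → Fin 3 → ℂ} {f : ℝ → Fin 3 → ℂ} {a θ c : ℝ}
    (h1 : HArc F f a θ) (h2 : HArc F f θ c) : HArc F f a c := by
  refine ⟨fun t ht => ?_, ?_⟩
  · rcases le_total t θ with h | h
    · exact h1.1 t ⟨ht.1, h⟩
    · exact h2.1 t ⟨h, ht.2⟩
  · have hne : ∀ᵐ t : ℝ, t ≠ θ := by
      rw [ae_iff]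
      have : {t : ℝ | ¬ t ≠ θ} = {θ} := by
        ext t
        simp
      rw [this]
      exact measure_singleton θ
    filter_upwards [h1.2, h2.2, hne] with t ht1 ht2 hne' ht
    rcases lt_or_gt_of_ne hne' with h | h
    · exact ht1 ⟨ht.1, h⟩
    · exact ht2 ⟨h, ht.2⟩

theorem wArc_union {F : ℂ → Fin 3 → ℂ} {i : Fin 3} {a θ c : ℝ} (ha : a < θ) (hc : θ < c)
    (h1 : WArc F i a θ) (h2 : WArc F i θ c) : WArc F i a c := by
  refine ⟨fun t ht => ?_, fun j hj s hs t ht => ?_⟩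
  · rcases le_total t θ with h | h
    · exact h1.1 t ⟨ht.1, h⟩
    · exact h2.1 t ⟨h, ht.2⟩
  · have key : ∀ t ∈ Icc a c, (F (ep 1 t) j).im = (F (ep 1 θ) j).im := by
      intro t ht
      rcases le_total t θ with h | h
      · exact h1.2 j hj θ ⟨ha.le, le_rfl⟩ t ⟨ht.1, h⟩
      · exact h2.2 j hj θ ⟨le_rfl, hc.le⟩ t ⟨h, ht.2⟩
    rw [key t ht, key s hs]

end E1

open E1 in
theorem t_E1 (hD : Stmt_D) (hERG : Stmt_ERG) (hEAH : Stmt_EAH) (hEAW : Stmt_EAW)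
    (hEHE : Stmt_EHE) (hEWE : Stmt_EWE) : Stmt_E1 := by
  intro D X lam T hTm hC θ e hR hL
  obtain ⟨f, hf⟩ := hD hC
  have hReg : Reg (fun z i => Fx (X i) z) (fun t i => f i t) := hERG X f fun i => (hf i).1
  obtain ⟨c, hc, hsc⟩ := edgeR_iff hR
  obtain ⟨a, ha, hsa⟩ := edgeL_iff hL
  cases e with
  | H =>
    have h1 : HArc (fun z i => Fx (X i) z) (fun t i => f i t) a c :=
      hArc_union (hEAH hTm hC f hf a θ ha hsa) (hEAH hTm hC f hf θ c hc hsc)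
    obtain ⟨G, ρ, ⟨hρ0, hρ1, hGd, hGe⟩, hS⟩ := hEHE _ _ a c θ hReg h1 ⟨ha, hc⟩
    refine ⟨ρ, fun j w => G w j, ?_, ?_⟩
    · exact
        { pos := ⟨hρ0, hρ1⟩
          an := fun j => (differentiableOn_pi.1 hGd) j
          eq := fun j w hw hw' => congrFun (hGe w hw hw') j
          bd := fun x hx0 hx => (hS x (by rwa [abs_of_nonneg hx0])).1
          bd' := fun _ x hx => (hS x hx).1 }
    · intro _ x hx
      exact (hS x hx).2
  | W i =>
    have h1 : WArc (fun z i => Fx (X i) z) i a c :=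
      wArc_union ha hc (hEAW hTm hC f hf i a θ ha hsa) (hEAW hTm hC f hf i θ c hc hsc)
    obtain ⟨G, ρ, ⟨hρ0, hρ1, hGd, hGe⟩, hS⟩ := hEWE _ _ i a c θ hReg h1 ⟨ha, hc⟩
    refine ⟨ρ, fun j w => G w j, ?_, ?_⟩
    · exact
        { pos := ⟨hρ0, hρ1⟩
          an := fun j => (differentiableOn_pi.1 hGd) j
          eq := fun j w hw hw' => congrFun (hGe w hw hw') j
          bd := fun j w hw => hS j w hw
          bd' := fun h => by cases h }
    · intro h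
      cases h

end Pool.Agent.FBM
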