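/-
FBM, block E: assembly of the regularity at junctions and corners (module FBM_E2, helper5).
-/
import Pool.Agent.FBM.StmtE

open MeasureTheory Set Filter Topology
open scoped Real

namespace Pool.Agent.FBM

namespace E2

theorem exR {D : Dat} {θ : ℝ} {e : Edge} (h : EdgeR D θ e) :
    ∃ c, θ < c ∧ ∀ s ∈ Ioo θ c, OnEdge D s e := by
  unfold EdgeR at h
  rw [Filter.Eventually, mem_nhdsGT_iff_exists_Ioo_subset] at h
  obtain ⟨c, hc, hs⟩ := h
  exact ⟨c, hc, fun s hsm => hs hsm⟩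

theorem exL {D : Dat} {θ : ℝ} {e : Edge} (h : EdgeL D θ e) :
    ∃ a, a < θ ∧ ∀ s ∈ Ioo a θ, OnEdge D s e := by
  unfold EdgeL at h
  rw [Filter.Eventually, mem_nhdsLT_iff_exists_Ioo_subset] at h
  obtain ⟨a, ha, hs⟩ := h
  exact ⟨a, ha, fun s hsm => hs hsm⟩

theorem an_of {G : ℂ → Fin 3 → ℂ} {ρ : ℝ} (h : DifferentiableOn ℂ G (Metric.ball 0 ρ))
    (j : Fin 3) : DifferentiableOn ℂ (fun w => G w j) (Metric.ball 0 ρ) :=
  (differentiableOn_pi.mp h) j

theorem realW {G : ℂ → Fin 3 → ℂ} {ρ : ℝ} {i : Fin 3} (h : SymR i G ρ) :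
    OnReal (fun j w => G w j) ρ (Edge.W i) := fun j w hw => h j w hw

theorem imagW {G : ℂ → Fin 3 → ℂ} {ρ : ℝ} {i : Fin 3} (h : SymI i G ρ) :
    OnImag (fun j w => G w j) ρ (Edge.W i) := fun j w hw => h j w hw

theorem realH {G : ℂ → Fin 3 → ℂ} {ρ : ℝ} (h : SphR G ρ) :
    OnReal (fun j w => G w j) ρ Edge.H := fun x h0 hx => (h x (by rwa [abs_of_nonneg h0])).1

theorem imagH {G : ℂ → Fin 3 → ℂ} {ρ : ℝ} (h : SphI G ρ) :
    OnImag (fun j w => G w j) ρ Edge.H := fun x h0 hx => (h x (by rwa [abs_of_nonneg h0])).1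

theorem ortR {G : ℂ → Fin 3 → ℂ} {ρ : ℝ} (h : SphR G ρ) : OrtR (fun j w => G w j) ρ :=
  fun x hx => (h x hx).2

theorem ortI {G : ℂ → Fin 3 → ℂ} {ρ : ℝ} (h : SphI G ρ) : OrtI (fun j w => G w j) ρ :=
  fun x hx => (h x hx).2

end E2

open E2 in
theorem t_E2 (hD : Stmt_D) (hERG : Stmt_ERG) (hEAH : Stmt_EAH) (hEAW : Stmt_EAW)
    (hEHW : Stmt_EHW) (hEWH : Stmt_EWH) (hEWW : Stmt_EWW) : Stmt_E2 := by
  intro D X lam T hTm hC θ eR eL hne hR hL
  obtain ⟨f, hf⟩ := hD hC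
  have hReg := hERG X f (fun i => (hf i).1)
  obtain ⟨c, hc, hsR⟩ := exR hR
  obtain ⟨a, ha, hsL⟩ := exL hL
  cases eR with
  | H =>
    cases eL with
    | H => exact absurd rfl hne
    | W i =>
      have hH := hEAH hTm hC f hf θ c hc hsR
      have hW := hEAW hTm hC f hf i a θ ha hsL
      obtain ⟨G, ρ, ⟨h0, h1, hd, he⟩, hS, hP⟩ := hEWH _ _ i a c θ hReg ha hc hW hH
      refine ⟨ρ, fun j w => G w j, ⟨⟨h0, h1⟩, an_of hd, ?_, realH hP, imagW hS⟩,
        fun _ => ortR hP, fun h => (by cases h)⟩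
      intro j w hw hre him
      exact congrFun (he w hw hre him) j
  | W i =>
    cases eL with
    | H =>
      have hH := hEAH hTm hC f hf a θ ha hsL
      have hW := hEAW hTm hC f hf i θ c hc hsR
      obtain ⟨G, ρ, ⟨h0, h1, hd, he⟩, hS, hP⟩ := hEHW _ _ i a c θ hReg ha hc hH hW
      refine ⟨ρ, fun j w => G w j, ⟨⟨h0, h1⟩, an_of hd, ?_, realW hS, imagH hP⟩,
        fun h => (by cases h), fun _ => ortI hP⟩
      intro j w hw hre him
      exact congrFun (he w hw hre him) j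
    | W k =>
      have hik : k ≠ i := by
        rintro rfl
        exact hne rfl
      have hWl := hEAW hTm hC f hf k a θ ha hsL
      have hWr := hEAW hTm hC f hf i θ c hc hsR
      obtain ⟨G, ρ, ⟨h0, h1, hd, he⟩, hS, hP⟩ := hEWW _ _ k i a c θ hReg hik ha hc hWl hWr
      refine ⟨ρ, fun j w => G w j, ⟨⟨h0, h1⟩, an_of hd, ?_, realW hP, imagW hS⟩,
        fun h => (by cases h), fun h => (by cases h)⟩
      intro j w hw hre him
      exact congrFun (he w hw hre him) j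

end Pool.Agent.FBM
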