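import Pool.Agent.FBM.StmtE

/-!
# FBM, module EAH: free edges are mapped to the sphere
-/

open MeasureTheory Set Filter Topology
open scoped Real

namespace Pool.Agent.FBM

namespace EAH

/-- a periodic property which holds a.e. on one period holds a.e. -/
theorem ae_of_cm {P : ℝ → Prop} (hP : ∀ t, P (t + 2 * π) ↔ P t) (h : ∀ᵐ t ∂cm, P t) :
    ∀ᵐ t, P t := by
  have h1 : ∀ᵐ t : ℝ, t ∈ Ioc (-π) π → P t := (ae_restrict_iff' measurableSet_Ioc).1 h
  have h2 : ∀ n : ℤ, ∀ᵐ t : ℝ, t + n • (2 * π) ∈ Ioc (-π) π → P (t + n • (2 * π)) := by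
    intro n
    exact (measurePreserving_add_right volume (n • (2 * π))).quasiMeasurePreserving.ae h1
  have h3 : Function.Periodic P (2 * π) := fun t => propext (hP t)
  filter_upwards [ae_all_iff.2 h2] with t ht
  obtain ⟨n, hn, -⟩ := existsUnique_add_zsmul_mem_Ioc Real.two_pi_pos t (-π)
  have h4 : t + n • (2 * π) ∈ Ioc (-π) π := by
    have e : -π + 2 * π = π := by ring
    rw [e] at hn
    exact hn
  have h5 := ht n h4
  have h6 : P (t + n • (2 * π)) = P t := h3.zsmul n t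
  rw [h6] at h5
  exact h5

theorem ep_mem (t : ℝ) : ep 1 t ∈ Metric.closedBall (0 : ℂ) 1 := by
  rw [mem_closedBall_zero_iff]
  unfold ep
  rw [norm_mul, Complex.norm_exp_ofReal_mul_I]
  simp

theorem ep_cont : Continuous (fun t : ℝ => ep 1 t) := by
  unfold ep
  fun_prop

theorem fx_cont {u : ℝ → ℝ} {f : ℝ → ℂ} (h : BdF u f) :
    Continuous (fun t : ℝ => (Fx u (ep 1 t)).re) :=
  Complex.continuous_re.comp (h.cont.comp_continuous ep_cont ep_mem)

/-- a continuous function which is one a.e. on an open interval is one on the closed interval -/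
theorem eq_of_ae {g : ℝ → ℝ} (hg : Continuous g) {a c : ℝ} (hac : a < c)
    (h : ∀ᵐ t : ℝ, t ∈ Ioo a c → g t = 1) : ∀ t ∈ Icc a c, g t = 1 := by
  have hcl : IsClosed {t : ℝ | g t = 1} := isClosed_eq hg continuous_const
  have h1 : Ioo a c ⊆ {t : ℝ | g t = 1} := by
    have hd : Dense {t : ℝ | t ∈ Ioo a c → g t = 1} := Measure.dense_of_ae h
    intro t ht
    have h2 : t ∈ closure ({t : ℝ | t ∈ Ioo a c → g t = 1} ∩ Ioo a c) := by
      have := hd.open_subset_closure_inter isOpen_Ioo ht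
      rwa [inter_comm] at this
    refine hcl.closure_subset_iff.2 ?_ h2
    rintro s ⟨hs1, hs2⟩
    exact hs1 hs2
  intro t ht
  have h2 : t ∈ closure (Ioo a c) := by
    rw [closure_Ioo hac.ne]
    exact ht
  exact hcl.closure_subset_iff.2 h1 h2

end EAH

open EAH in
theorem t_EAH : Stmt_EAH := by
  intro D X lam T hD hC f hf a c hac hedge
  have hper : ∀ i, Function.Periodic (X i) (2 * π) := fun i => (hC.el.oct.adm.fe i).per
  have h1 : ∀ᵐ t : ℝ, t ∈ D.H → ∑ i, X i t ^ 2 = 1 := by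
    refine ae_of_cm ?_ hC.el.oct.adm.one
    intro t
    have e : ∑ i, X i (t + 2 * π) ^ 2 = ∑ i, X i t ^ 2 :=
      Finset.sum_congr rfl fun i _ => by rw [hper i t]
    rw [e, hD.tH.per t]
  have h2 : ∀ᵐ t : ℝ, ∀ i, (Fx (X i) (ep 1 t)).re = X i t := ae_all_iff.2 fun i => (hf i).1.re
  have h3 : ∀ᵐ t : ℝ, ∀ i, (f i t).im = T i t := ae_all_iff.2 fun i => (hf i).2
  have h4 : ∀ t ∈ Icc a c, ∑ j, (Fx (X j) (ep 1 t)).re ^ 2 = 1 := by
    refine eq_of_ae (g := fun t => ∑ j, (Fx (X j) (ep 1 t)).re ^ 2) ?_ hac ?_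
    · exact continuous_finsetSum _ fun j _ => (fx_cont (hf j).1).pow 2
    · filter_upwards [h1, h2] with t ht1 ht2 ht
      have h5 := ht1 (hedge t ht).1
      exact (Finset.sum_congr rfl fun i _ => by rw [ht2 i]).trans h5
  refine ⟨h4, ?_⟩
  filter_upwards [h2, h3] with t ht2 ht3 ht j
  have h5 := h4 t ⟨ht.1.le, ht.2.le⟩
  have h6 : ∀ k, (f k t).im = lam t * X k t := fun k => by
    rw [ht3 k]
    exact hC.el.T_off k t ((hedge t ht).2 k)
  have h7 : ∑ k, X k t ^ 2 = 1 := by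
    rw [← h5]
    exact Finset.sum_congr rfl fun i _ => by rw [ht2 i]
  have h8 : ∑ k, (Fx (X k) (ep 1 t)).re * (f k t).im = lam t := by
    have : ∑ k, (Fx (X k) (ep 1 t)).re * (f k t).im = lam t * ∑ k, X k t ^ 2 := by
      rw [Finset.mul_sum]
      refine Finset.sum_congr rfl fun k _ => ?_
      rw [ht2 k, h6 k]
      ring
    rw [this, h7, mul_one]
  show (f j t).im = (∑ k, (Fx (X k) (ep 1 t)).re * (f k t).im) * (Fx (X j) (ep 1 t)).re
  rw [h8, ht2 j, h6 j]

end Pool.Agent.FBM
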