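import Pool.Agent.FBM.StmtE

/-!
EAW: wall edges are `WArc`s.
-/

set_option autoImplicit false

open MeasureTheory Set Filter Topology
open scoped Real

namespace Pool.Agent.FBM

namespace EAW

theorem cont_ep : Continuous (fun t : ℝ => ep 1 t) := by
  unfold ep
  fun_prop

theorem ep_mem (t : ℝ) : ep 1 t ∈ Metric.closedBall (0 : ℂ) 1 := by
  rw [mem_closedBall_zero_iff]
  unfold ep
  rw [norm_mul, Complex.norm_exp_ofReal_mul_I]
  simp

theorem cont_Fx {u : ℝ → ℝ} {f : ℝ → ℂ} (h : BdF u f) :
    Continuous (fun t : ℝ => Fx u (ep 1 t)) :=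
  h.cont.comp_continuous cont_ep ep_mem

theorem im_integral (g : ℝ → ℂ) (s t : ℝ) (hg : ∀ᵐ x, x ∈ Set.uIoc s t → (g x).im = 0) :
    (∫ v in s..t, g v).im = 0 := by
  by_cases hi : IntervalIntegrable g volume s t
  · have h := Complex.imCLM.intervalIntegral_comp_comm hi
    have h0 : ∫ v in s..t, Complex.imCLM (g v) = 0 := by
      apply intervalIntegral.integral_zero_ae
      filter_upwards [hg] with x hx hxm
      exact hx hxm
    rw [h0] at h
    exact h.symm
  · rw [intervalIntegral.integral_undef hi]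
    rfl

end EAW

open EAW in
theorem t_EAW : Stmt_EAW := by
  intro D X lam T hD hC f hf i a c hac hE
  refine ⟨?_, ?_⟩
  · have hc : Continuous (fun t : ℝ => (Fx (X i) (ep 1 t)).re) :=
      Complex.continuous_re.comp (cont_Fx (hf i).1)
    have hae : (fun t : ℝ => (Fx (X i) (ep 1 t)).re) =ᵐ[volume.restrict (Icc a c)]
        (fun _ => (0 : ℝ)) := by
      rw [← restrict_Ioo_eq_restrict_Icc]
      refine (ae_restrict_iff' measurableSet_Ioo).2 ?_
      filter_upwards [(hf i).1.re] with t ht hts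
      rw [ht]
      exact hC.el.oct.zeroE i t (hE t hts).1
    have h := Measure.eqOn_Icc_of_ae_eq volume hac.ne hae hc.continuousOn continuousOn_const
    intro t ht
    exact h ht
  · intro j hj s hs t ht
    have h1 := (hf j).1.ftc s t
    have h2 : (∫ v in s..t, f j v).im = 0 := by
      apply im_integral
      have hne : ∀ᵐ x : ℝ, x ≠ c := by
        have h3 : volume ({c} : Set ℝ) = 0 := measure_singleton c
        exact compl_mem_ae_iff.2 h3
      filter_upwards [(hf j).2, hne] with x hx hxc hxm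
      rw [hx]
      have hx1 : x ∈ Ioo a c := by
        rw [Set.mem_uIoc] at hxm
        rcases hxm with h4 | h4
        · exact ⟨lt_of_le_of_lt hs.1 h4.1, lt_of_le_of_ne (h4.2.trans ht.2) hxc⟩
        · exact ⟨lt_of_le_of_lt ht.1 h4.1, lt_of_le_of_ne (h4.2.trans hs.2) hxc⟩
      obtain ⟨-, hH, hZ⟩ := hE x hx1
      rw [hC.el.T_off j x (hZ j hj), hC.el.lam_off x hH, zero_mul]
    have h5 : (Fx (X j) (ep 1 t) - Fx (X j) (ep 1 s)).im = 0 := by rw [h1, h2]
    rw [Complex.sub_im] at h5
    exact sub_eq_zero.mp h5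

end Pool.Agent.FBM
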