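import Pool.Agent.FBM.StmtE

/-!
# EHE: extension at interior points of an arc which is mapped to the sphere
-/

open MeasureTheory Set Filter Topology
open scoped Real

namespace Pool.Agent.FBM

namespace EHE

/-- the closed upper half of the ball -/
theorem closure_inter (ρ : ℝ) :
    closure {w : ℂ | ‖w‖ < ρ ∧ 0 < w.im} ∩ Metric.ball 0 ρ = {w : ℂ | ‖w‖ < ρ ∧ 0 ≤ w.im} := by
  have h1 : closure {w : ℂ | 0 < w.im} = {w : ℂ | 0 ≤ w.im} := Complex.closure_setOfPred_lt_im 0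
  apply Set.Subset.antisymm
  · rintro w ⟨hw, hb⟩
    refine ⟨by simpa using hb, ?_⟩
    have h2 : w ∈ closure {w : ℂ | 0 < w.im} := closure_mono (fun z hz => hz.2) hw
    rw [h1] at h2
    exact h2
  · rintro w ⟨hb, hw⟩
    have hb' : w ∈ Metric.ball (0 : ℂ) ρ := by simpa using hb
    refine ⟨?_, hb'⟩
    have h2 : w ∈ Metric.ball (0 : ℂ) ρ ∩ closure {w : ℂ | 0 < w.im} := ⟨hb', by rw [h1]; exact hw⟩
    have h3 := Metric.isOpen_ball.inter_closure h2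
    refine closure_mono ?_ h3
    rintro z ⟨hz1, hz2⟩
    exact ⟨by simpa using hz1, hz2⟩

theorem isOpen_half (ρ : ℝ) : IsOpen {w : ℂ | ‖w‖ < ρ ∧ 0 < w.im} :=
  (isOpen_lt continuous_norm continuous_const).inter
    (isOpen_lt continuous_const Complex.continuous_im)

theorem convex_half (ρ : ℝ) : Convex ℝ {w : ℂ | ‖w‖ < ρ ∧ 0 < w.im} := by
  have h1 : {w : ℂ | ‖w‖ < ρ ∧ 0 < w.im} = Metric.ball 0 ρ ∩ {w : ℂ | 0 < w.im} := by
    ext w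
    simp
  rw [h1]
  exact (convex_ball 0 ρ).inter (convex_halfSpace_im_gt 0)

theorem zero_mem_closure (ρ : ℝ) (hρ : 0 < ρ) :
    (0 : ℂ) ∈ closure {w : ℂ | ‖w‖ < ρ ∧ 0 < w.im} := by
  have h : (0 : ℂ) ∈ {w : ℂ | ‖w‖ < ρ ∧ 0 ≤ w.im} := ⟨by simpa using hρ, le_refl _⟩
  rw [← closure_inter ρ] at h
  exact h.1

end EHE

open EHE in
theorem t_EHE (hESO : Stmt_ESO) (hEHS : Stmt_EHS) (hERR : Stmt_ERR) (hERU : Stmt_ERU)
    (hEPR : Stmt_EPR) (hESL : Stmt_ESL) (hPSI : Stmt_PSI) : Stmt_EHE := by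
  intro F f a c t₀ hF hH ht₀
  obtain ⟨m, hm, hm0⟩ := hESO F f hF t₀ (fun j => ((F (ep 1 t₀) j).re : ℂ), 1)
  have hS := hEHS F f a c t₀ hF hH (Ioo_subset_Icc_self ht₀) m hm hm0
  obtain ⟨hp1, hp2, hp3, -, hp0, hp4⟩ := hPSI t₀
  -- continuity of the composed functions
  have hpc : ContinuousOn (psi t₀) {w : ℂ | ‖w‖ < 1 ∧ 0 ≤ w.im} := fun w hw =>
    (hp3 w hw.1).continuousAt.continuousWithinAt
  have hmc : ContinuousOn (fun w => m (psi t₀ w)) {w : ℂ | ‖w‖ < 1 ∧ 0 ≤ w.im} :=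
    hm.cont.comp hpc fun w hw => hp1 w hw.1 hw.2
  have hqc : ContinuousOn (fun w => (m (psi t₀ w)).2) {w : ℂ | ‖w‖ < 1 ∧ 0 ≤ w.im} :=
    continuous_snd.comp_continuousOn hmc
  have hpjc : ∀ j, ContinuousOn (fun w => (m (psi t₀ w)).1 j) {w : ℂ | ‖w‖ < 1 ∧ 0 ≤ w.im} :=
    fun j => ((continuous_apply j).comp continuous_fst).comp_continuousOn hmc
  -- derivatives
  have hmd : ∀ w : ℂ, ‖w‖ < 1 → 0 < w.im → HasDerivAt (fun w => m (psi t₀ w))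
      (deriv (psi t₀) w • AA (deriv F (psi t₀ w)) (m (psi t₀ w))) w := fun w h1 h2 =>
    HasDerivAt.scomp w (hm.diff _ (hp2 w h1 h2)) (hp3 w h1).hasDerivAt
  have hqd : ∀ w : ℂ, ‖w‖ < 1 → 0 < w.im → HasDerivAt (fun w => (m (psi t₀ w)).2)
      (deriv (psi t₀) w * (AA (deriv F (psi t₀ w)) (m (psi t₀ w))).2) w := fun w h1 h2 =>
    (hmd w h1 h2).snd
  have hpd : ∀ w : ℂ, ‖w‖ < 1 → 0 < w.im → ∀ j, HasDerivAt (fun w => (m (psi t₀ w)).1 j)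
      (deriv (psi t₀) w * (AA (deriv F (psi t₀ w)) (m (psi t₀ w))).1 j) w := fun w h1 h2 j =>
    hasDerivAt_pi.1 (hmd w h1 h2).fst j
  have hFd : ∀ w : ℂ, ‖w‖ < 1 → 0 < w.im → HasDerivAt (fun w => F (psi t₀ w))
      (deriv (psi t₀) w • deriv F (psi t₀ w)) w := fun w h1 h2 =>
    HasDerivAt.scomp w ((hF.diff.differentiableAt
      (Metric.isOpen_ball.mem_nhds (hp2 w h1 h2))).hasDerivAt) (hp3 w h1).hasDerivAt
  have hFjd : ∀ w : ℂ, ‖w‖ < 1 → 0 < w.im → ∀ j, HasDerivAt (fun w => F (psi t₀ w) j)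
      (deriv (psi t₀) w * deriv F (psi t₀ w) j) w := fun w h1 h2 j =>
    hasDerivAt_pi.1 (hFd w h1 h2) j
  -- the radius
  have hz1 : (0 : ℂ) ∈ {w : ℂ | ‖w‖ < 1 ∧ 0 ≤ w.im} := ⟨by simp, le_refl _⟩
  have hq0 : (m (psi t₀ 0)).2 = 1 := by rw [hp0, hm0]
  obtain ⟨ε, hε, hεq⟩ : ∃ ε > 0, ∀ w : ℂ, ‖w‖ < ε → ‖w‖ < 1 → 0 ≤ w.im →
      (m (psi t₀ w)).2 ≠ 0 := by
    have h1 : ∀ᶠ w in 𝓝[{w : ℂ | ‖w‖ < 1 ∧ 0 ≤ w.im}] 0, (m (psi t₀ w)).2 ≠ 0 := by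
      refine (hqc 0 hz1).eventually_ne ?_
      change (m (psi t₀ 0)).2 ≠ 0
      rw [hq0]
      exact one_ne_zero
    rw [eventually_nhdsWithin_iff, Metric.eventually_nhds_iff] at h1
    obtain ⟨ε, hε, h⟩ := h1
    exact ⟨ε, hε, fun w h1 h2 h3 => h (by simpa using h1) ⟨h2, h3⟩⟩
  obtain ⟨δ, hδ, hδt⟩ : ∃ δ > 0, ∀ x : ℝ, |x| < δ → t₀ + 2 * Real.arctan x ∈ Icc a c := by
    have h1 : ContinuousAt (fun x : ℝ => t₀ + 2 * Real.arctan x) 0 :=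
      (continuous_const.add (continuous_const.mul Real.continuous_arctan)).continuousAt
    have h2 : ∀ᶠ x in 𝓝 (0 : ℝ), t₀ + 2 * Real.arctan x ∈ Ioo a c := by
      refine h1.eventually (isOpen_Ioo.mem_nhds ?_)
      simpa using ht₀
    rw [Metric.eventually_nhds_iff] at h2
    obtain ⟨δ, hδ, h⟩ := h2
    exact ⟨δ, hδ, fun x hx => Ioo_subset_Icc_self (h (by simpa using hx))⟩
  obtain ⟨ρ, hρ0, hρ1, hρε, hρδ⟩ : ∃ ρ : ℝ, 0 < ρ ∧ ρ < 1 ∧ ρ ≤ ε ∧ ρ ≤ δ :=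
    ⟨min (min ε δ) (1 / 2), lt_min (lt_min hε hδ) (by norm_num),
      lt_of_le_of_lt (min_le_right _ _) (by norm_num), (min_le_left _ _).trans (min_le_left _ _),
      (min_le_left _ _).trans (min_le_right _ _)⟩
  have hsub : {w : ℂ | ‖w‖ < ρ ∧ 0 ≤ w.im} ⊆ {w : ℂ | ‖w‖ < 1 ∧ 0 ≤ w.im} :=
    fun w hw => ⟨hw.1.trans hρ1, hw.2⟩
  have hqne : ∀ w : ℂ, ‖w‖ < ρ → 0 ≤ w.im → (m (psi t₀ w)).2 ≠ 0 := fun w h1 h2 =>
    hεq w (lt_of_lt_of_le h1 hρε) (h1.trans hρ1) h2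
  -- values on the real axis
  have hre : ∀ x : ℝ, |x| < ρ → ‖(m (psi t₀ x)).2‖ = 1 ∧
      ∀ j, (m (psi t₀ x)).1 j = (m (psi t₀ x)).2 * ((F (psi t₀ x) j).re : ℂ) := by
    intro x hx
    rw [hp4 x]
    exact hS _ (hδt x (lt_of_lt_of_le hx hρδ))
  have hxU : ∀ x : ℝ, |x| < ρ → ‖(x : ℂ)‖ < ρ ∧ (0 : ℝ) ≤ (x : ℂ).im := fun x hx =>
    ⟨by rwa [Complex.norm_real, Real.norm_eq_abs], by simp⟩
  -- extension of Q
  obtain ⟨Q, hQd, hQe, hQ0, -⟩ := hERU ρ (fun w => (m (psi t₀ w)).2) hρ0 (hqc.mono hsub)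
    (fun w hw => (hqd w (hw.1.trans hρ1) hw.2).differentiableAt.differentiableWithinAt) hqne
    (fun x hx => (hre x hx).1)
  -- extension of P / Q
  have hY : ∀ j, ∃ g : ℂ → ℂ, DifferentiableOn ℂ g (Metric.ball 0 ρ) ∧
      ∀ w : ℂ, ‖w‖ < ρ → 0 ≤ w.im → g w = (m (psi t₀ w)).1 j / (m (psi t₀ w)).2 := by
    intro j
    obtain ⟨g, h1, h2, -⟩ := hERR ρ 1 (fun w => (m (psi t₀ w)).1 j / (m (psi t₀ w)).2) hρ0
      (Or.inl rfl) (((hpjc j).mono hsub).div (hqc.mono hsub) fun w hw => hqne w hw.1 hw.2)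
      (fun w hw => ((hpd w (hw.1.trans hρ1) hw.2 j).differentiableAt.div
        (hqd w (hw.1.trans hρ1) hw.2).differentiableAt
        (hqne w hw.1 hw.2.le)).differentiableWithinAt) (fun x hx => by
          have h3 := (hre x hx).2 j
          have h4 := hqne x (hxU x hx).1 (hxU x hx).2
          have h5 : (m (psi t₀ x)).1 j / (m (psi t₀ x)).2 = ((F (psi t₀ x) j).re : ℂ) := by
            rw [h3, mul_div_cancel_left₀ _ h4]
          simp only [h5, Complex.conj_ofReal, Complex.ofReal_one, one_mul])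
    exact ⟨g, h1, h2⟩
  choose Y hYd hYe using hY
  have hYx : ∀ x : ℝ, |x| < ρ → ∀ j, Y j x = ((F (psi t₀ x) j).re : ℂ) := by
    intro x hx j
    rw [hYe j x (hxU x hx).1 (hxU x hx).2, (hre x hx).2 j,
      mul_div_cancel_left₀ _ (hqne x (hxU x hx).1 (hxU x hx).2)]
  have hQY : ∀ w : ℂ, ‖w‖ < ρ → 0 ≤ w.im → ∀ j, Q w * Y j w = (m (psi t₀ w)).1 j := by
    intro w h1 h2 j
    rw [hQe w h1 h2, hYe j w h1 h2, mul_div_cancel₀ _ (hqne w h1 h2)]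
  -- recovering the extension of F
  obtain ⟨G, hGd, hGe, hGF⟩ := hEPR ρ {w : ℂ | ‖w‖ < ρ ∧ 0 < w.im} (fun w j => Q w * Y j w) Q
    (fun w => F (psi t₀ w)) hρ0 (convex_half ρ) (isOpen_half ρ)
    (fun w hw => by simpa using hw.1) (zero_mem_closure ρ hρ0)
    (differentiableOn_pi.2 fun j => hQd.mul (hYd j)) hQd
    (fun z hz => hQ0 z (by simpa using hz))
    (by
      rw [closure_inter]
      exact hF.cont.comp (hpc.mono hsub) fun w hw => hp1 w (hw.1.trans hρ1) hw.2)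
    (fun w hw => (hFd w (hw.1.trans hρ1) hw.2).differentiableAt.differentiableWithinAt)
    (fun z hz j => by
      have h1 : (fun w => Q w * Y j w) =ᶠ[𝓝 z] fun w => (m (psi t₀ w)).1 j := by
        filter_upwards [(isOpen_half ρ).mem_nhds hz] with w hw
        exact hQY w hw.1 hw.2.le j
      rw [(hFjd z (hz.1.trans hρ1) hz.2 j).deriv, h1.deriv_eq,
        (hpd z (hz.1.trans hρ1) hz.2 j).deriv, hQe z hz.1 hz.2.le, AA_fst, mul_assoc])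
  have hGF' : ∀ w : ℂ, ‖w‖ < ρ → 0 ≤ w.im → G w = F (psi t₀ w) := by
    intro w h1 h2
    refine hGF w ?_
    rw [closure_inter]
    exact ⟨h1, h2⟩
  refine ⟨G, ρ, ⟨hρ0, hρ1, hGd, hGF'⟩, fun x hx => ?_⟩
  have hGx : G (x : ℂ) = F (psi t₀ x) := hGF' x (hxU x hx).1 (hxU x hx).2
  constructor
  · rw [hGx, hp4 x]
    exact hH.1 _ (hδt x (lt_of_lt_of_le hx hρδ))
  · obtain ⟨κ, hκ⟩ := hESL ρ 1 Q (fun w j => Y j w) G hρ0 norm_one hQd
      (differentiableOn_pi.2 fun j => hYd j) (fun y hy => by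
        rw [mul_one]
        refine ⟨?_, fun j => ?_⟩
        · rw [hQe y (hxU y hy).1 (hxU y hy).2]
          exact (hre y hy).1
        · rw [hYx y hy j]
          exact Complex.ofReal_im _) (fun z hz j => hGe z hz j) x hx
    refine ⟨κ, fun j => ?_⟩
    have h1 := hκ j
    rw [mul_one, one_mul, hYx x hx j, Complex.ofReal_re, ← hGx] at h1
    exact h1

end Pool.Agent.FBM
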