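import Pool.Agent.FBM.StmtE

/-!
# EHS: the solution on an `H` arc
-/

open MeasureTheory Set Filter Topology
open scoped Real

namespace Pool.Agent.FBM

namespace EHS

theorem ep_mem (t : ℝ) : ep 1 t ∈ Metric.closedBall (0 : ℂ) 1 := by
  rw [mem_closedBall_zero_iff, ep, Complex.ofReal_one, one_mul, Complex.norm_exp_ofReal_mul_I]

theorem ep_cont : Continuous (ep 1) := by
  unfold ep
  fun_prop

theorem periodic_int {E : Type} [NormedAddCommGroup E] {b : ℝ → E}
    (hp : Function.Periodic b (2 * π)) (hi : Integrable b cm) (s t : ℝ) :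
    IntervalIntegrable b volume s t := by
  have h : -π + 2 * π = π := by ring
  refine hp.intervalIntegrable (t := -π) (by positivity) ?_ s t
  rw [h, intervalIntegrable_iff_integrableOn_Ioc_of_le (by linarith [Real.pi_pos])]
  exact hi

/-- A function whose integrals over the intervals `[a, t]` vanish is zero a.e. -/
theorem ae_zero {h : ℝ → ℂ} {a c : ℝ} (hac : a ≤ c) (hi : IntervalIntegrable h volume a c)
    (h0 : ∀ t ∈ Icc a c, ∫ s in a..t, h s = 0) : ∀ᵐ t, t ∈ Ioo a c → h t = 0 := by
  filter_upwards [hi.ae_hasDerivAt_integral] with t ht htm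
  have h1 : t ∈ uIcc a c := by
    rw [uIcc_of_le hac]
    exact Ioo_subset_Icc_self htm
  have h2 := ht h1 a left_mem_uIcc
  have h3 : HasDerivAt (fun x => ∫ s in a..x, h s) 0 t := by
    refine (hasDerivAt_const t (0 : ℂ)).congr_of_eventuallyEq ?_
    filter_upwards [Ioo_mem_nhds htm.1 htm.2] with x hx
    exact h0 x (Ioo_subset_Icc_self hx)
  exact h2.unique h3

/-- The coefficient of the linear equation, depending on `f` linearly. -/
noncomputable def LL : (Fin 3 → ℂ) →L[ℝ] ((Fin 3 → ℂ) × ℂ →L[ℝ] (Fin 3 → ℂ) × ℂ) :=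
  LinearMap.toContinuousLinearMap
    { toFun := fun f => (AA f).restrictScalars ℝ
      map_add' := fun f g => by
        refine ContinuousLinearMap.ext fun m => ?_
        refine Prod.ext (funext fun j => ?_) ?_
        · change (f j + g j) * m.2 = f j * m.2 + g j * m.2
          ring
        · change ∑ j, (f j + g j) * m.1 j = ∑ j, f j * m.1 j + ∑ j, g j * m.1 j
          rw [← Finset.sum_add_distrib]
          exact Finset.sum_congr rfl fun j _ => by ring
      map_smul' := fun c f => by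
        refine ContinuousLinearMap.ext fun m => ?_
        refine Prod.ext (funext fun j => ?_) ?_
        · change (c • f) j * m.2 = c • (f j * m.2)
          rw [Pi.smul_apply, smul_mul_assoc]
        · change ∑ j, (c • f) j * m.1 j = c • ∑ j, f j * m.1 j
          rw [Finset.smul_sum]
          exact Finset.sum_congr rfl fun j _ => by rw [Pi.smul_apply, smul_mul_assoc] }

theorem LL_apply (f : Fin 3 → ℂ) (m : (Fin 3 → ℂ) × ℂ) : LL f m = AA f m := rfl

theorem LL_int {f : ℝ → Fin 3 → ℂ} {s t : ℝ} (hf : IntervalIntegrable f volume s t) :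
    IntervalIntegrable (fun u => LL (f u)) volume s t :=
  ⟨LL.integrable_comp hf.1, LL.integrable_comp hf.2⟩

/-- Integrals of pairs from the integrals of the components. -/
theorem pair_int {g : ℝ → (Fin 3 → ℂ) × ℂ} {s t : ℝ}
    (h1 : ∀ j, IntervalIntegrable (fun u => (g u).1 j) volume s t)
    (h2 : IntervalIntegrable (fun u => (g u).2) volume s t) :
    IntervalIntegrable g volume s t := by
  have e : g = fun u => (∑ j, (g u).1 j • ((Pi.single j 1, 0) : (Fin 3 → ℂ) × ℂ)) +
      (g u).2 • ((0, 1) : (Fin 3 → ℂ) × ℂ) := by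
    funext u
    refine Prod.ext (funext fun i => ?_) ?_
    · simp [Prod.fst_sum, Finset.sum_apply, Pi.single_apply]
    · simp [Prod.snd_sum]
  rw [e]
  refine IntervalIntegrable.add ?_ ?_
  · have := IntervalIntegrable.sum (μ := volume) (a := s) (b := t) Finset.univ
      (f := fun j u => (g u).1 j • ((Pi.single j 1, 0) : (Fin 3 → ℂ) × ℂ))
      (fun j _ => ⟨(h1 j).1.smul_const _, (h1 j).2.smul_const _⟩)
    refine this.congr ?_
    refine fun u _ => ?_
    simp [Finset.sum_apply]
  · exact ⟨h2.1.smul_const _, h2.2.smul_const _⟩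

theorem pair_fst {g : ℝ → (Fin 3 → ℂ) × ℂ} {s t : ℝ} (hg : IntervalIntegrable g volume s t)
    (j : Fin 3) : (∫ u in s..t, g u).1 j = ∫ u in s..t, (g u).1 j :=
  ((((ContinuousLinearMap.proj j : (Fin 3 → ℂ) →L[ℝ] ℂ).comp
    (ContinuousLinearMap.fst ℝ (Fin 3 → ℂ) ℂ))).intervalIntegral_comp_comm hg).symm

theorem pair_snd {g : ℝ → (Fin 3 → ℂ) × ℂ} {s t : ℝ} (hg : IntervalIntegrable g volume s t) :
    (∫ u in s..t, g u).2 = ∫ u in s..t, (g u).2 :=
  ((ContinuousLinearMap.snd ℝ (Fin 3 → ℂ) ℂ).intervalIntegral_comp_comm hg).symm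

end EHS

open EHS in
theorem t_EHS (hOUN : Stmt_OUN) (hIBP : Stmt_IBP) (hEXA : Stmt_EXA) : Stmt_EHS := by
  intro F f a c t₀ hR hH ht₀ m hm hm0
  have hac : a ≤ c := ht₀.1.trans ht₀.2
  have hfi : ∀ s t : ℝ, IntervalIntegrable f volume s t := periodic_int hR.bd.per hR.bd.int
  have hfj : ∀ (j : Fin 3) (s t : ℝ), IntervalIntegrable (fun u => f u j) volume s t := by
    intro j s t
    exact ⟨(ContinuousLinearMap.proj j : (Fin 3 → ℂ) →L[ℝ] ℂ).integrable_comp (hfi s t).1,
      (ContinuousLinearMap.proj j : (Fin 3 → ℂ) →L[ℝ] ℂ).integrable_comp (hfi s t).2⟩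
  have hre : ∀ (j : Fin 3) (s t : ℝ),
      IntervalIntegrable (fun u => (((f u j).re : ℝ) : ℂ)) volume s t := fun j s t =>
    ⟨((hfj j s t).1.re).ofReal, ((hfj j s t).2.re).ofReal⟩
  have him : ∀ (j : Fin 3) (s t : ℝ),
      IntervalIntegrable (fun u => (f u j).im) volume s t := fun j s t =>
    ⟨(hfj j s t).1.im, (hfj j s t).2.im⟩
  -- the real parts
  obtain ⟨x, hx⟩ : ∃ x : Fin 3 → ℝ → ℝ, x = fun j t => (F (ep 1 t) j).re := ⟨_, rfl⟩
  have hFc : Continuous fun t => F (ep 1 t) :=
    hR.cont.comp_continuous ep_cont ep_mem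
  have hxc : ∀ j, Continuous (x j) := by
    intro j
    rw [hx]
    exact Complex.continuous_re.comp ((continuous_apply j).comp hFc)
  have hxe : ∀ (j : Fin 3) (s t : ℝ), ((x j t : ℝ) : ℂ) = (x j s : ℂ) +
      ∫ u in s..t, (((f u j).re : ℝ) : ℂ) := by
    intro j s t
    have h1 := hR.ftc s t
    have h2 := congrArg (fun v : Fin 3 → ℂ => (v j).re) h1
    have h3 : (∫ u in s..t, f u) j = ∫ u in s..t, f u j :=
      ((ContinuousLinearMap.proj j : (Fin 3 → ℂ) →L[ℝ] ℂ).intervalIntegral_comp_comm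
        (hfi s t)).symm
    have h4 : (∫ u in s..t, f u j).re = ∫ u in s..t, (f u j).re :=
      (Complex.reCLM.intervalIntegral_comp_comm (hfj j s t)).symm
    simp only [Pi.sub_apply, Complex.sub_re] at h2
    rw [h3, h4] at h2
    rw [intervalIntegral.integral_ofReal, ← h2, hx]
    push_cast
    ring
  -- the multiplier
  obtain ⟨lam, hlam⟩ : ∃ lam : ℝ → ℝ, lam = fun t => ∑ k, x k t * (f t k).im := ⟨_, rfl⟩
  have hlami : ∀ s t : ℝ, IntervalIntegrable lam volume s t := by
    intro s t
    have := IntervalIntegrable.sum (μ := volume) (a := s) (b := t) Finset.univ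
      (f := fun k u => x k u * (f u k).im)
      (fun k _ => (him k s t).continuousOn_mul ((hxc k).continuousOn))
    rw [hlam]
    refine this.congr ?_
    refine fun u _ => ?_
    simp [Finset.sum_apply]
  have hsum : ∀ t ∈ Icc a c, ∑ j, (x j t : ℂ) * (x j t : ℂ) = 1 := by
    intro t ht
    have h1 := hH.1 t ht
    have h2 : ∑ j, x j t * x j t = 1 := by
      rw [← h1, hx]
      exact Finset.sum_congr rfl fun j _ => by ring
    have h3 := congrArg (fun r : ℝ => (r : ℂ)) h2
    push_cast at h3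
    exact h3
  -- `∑ x_j x_j' = 0`
  have horth : ∀ᵐ t, t ∈ Ioo a c → ∑ j, (x j t : ℂ) * (((f t j).re : ℝ) : ℂ) = 0 := by
    have hp : ∀ j : Fin 3, _ := fun j => hIBP (fun t => (x j t : ℂ)) (fun t => (x j t : ℂ))
      (fun t => (((f t j).re : ℝ) : ℂ)) (fun t => (((f t j).re : ℝ) : ℂ)) a c hac
      (hre j a c) (hre j a c) (fun t _ => hxe j a t) (fun t _ => hxe j a t)
    have hh : IntervalIntegrable (fun s => ∑ j : Fin 3, ((((f s j).re : ℝ) : ℂ) * (x j s : ℂ) +
        (x j s : ℂ) * (((f s j).re : ℝ) : ℂ))) volume a c := by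
      have := IntervalIntegrable.sum (μ := volume) (a := a) (b := c) Finset.univ
        (f := fun j s => (((f s j).re : ℝ) : ℂ) * (x j s : ℂ) +
          (x j s : ℂ) * (((f s j).re : ℝ) : ℂ)) (fun j _ => (hp j).1)
      refine this.congr ?_
      refine fun u _ => ?_
      simp [Finset.sum_apply]
    have hz := ae_zero hac hh (fun t ht => by
      rw [intervalIntegral.integral_finsetSum]
      · have h1 : ∀ j : Fin 3, ∫ s in a..t, ((((f s j).re : ℝ) : ℂ) * (x j s : ℂ) +
            (x j s : ℂ) * (((f s j).re : ℝ) : ℂ)) =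
            (x j t : ℂ) * (x j t : ℂ) - (x j a : ℂ) * (x j a : ℂ) := by
          intro j
          have := (hp j).2 t ht
          rw [this]
          ring
        rw [Finset.sum_congr rfl fun j _ => h1 j, Finset.sum_sub_distrib, hsum t ht,
          hsum a ⟨le_rfl, hac⟩, sub_self]
      · intro j _
        refine (hp j).1.mono_set ?_
        rw [uIcc_of_le ht.1, uIcc_of_le hac]
        exact Icc_subset_Icc le_rfl ht.2)
    filter_upwards [hz] with t ht htm
    have h1 := ht htm
    have h2 : ∑ j : Fin 3, ((((f t j).re : ℝ) : ℂ) * (x j t : ℂ) +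
        (x j t : ℂ) * (((f t j).re : ℝ) : ℂ)) =
        2 * ∑ j, (x j t : ℂ) * (((f t j).re : ℝ) : ℂ) := by
      rw [Finset.mul_sum]
      exact Finset.sum_congr rfl fun j _ => by ring
    rw [h2] at h1
    exact (mul_eq_zero.1 h1).resolve_left two_ne_zero
  -- the phase
  obtain ⟨q, hq⟩ : ∃ q : ℝ → ℂ, q = fun t =>
    Complex.exp (((∫ s in t₀..t, lam s : ℝ) : ℂ) * Complex.I) := ⟨_, rfl⟩
  have hlamI : ∀ s t : ℝ, IntervalIntegrable (fun u => (lam u : ℂ) * Complex.I) volume s t :=
    fun s t => ⟨((hlami s t).1.ofReal).mul_const _, ((hlami s t).2.ofReal).mul_const _⟩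
  have hqe : ∀ t ∈ Icc a c, q t = q a + ∫ s in a..t, ((lam s : ℂ) * Complex.I) * q s := by
    intro t ht
    rw [hq]
    refine hEXA (fun t => ((∫ s in t₀..t, lam s : ℝ) : ℂ) * Complex.I)
      (fun u => (lam u : ℂ) * Complex.I) a c hac (hlamI a c) (fun t _ => ?_) t ht
    have h1 : ∫ s in t₀..t, lam s = (∫ s in t₀..a, lam s) + ∫ s in a..t, lam s :=
      (intervalIntegral.integral_add_adjacent_intervals (hlami t₀ a) (hlami a t)).symm
    rw [intervalIntegral.integral_mul_const, intervalIntegral.integral_ofReal, h1]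
    push_cast
    ring
  have hqn : ∀ t, ‖q t‖ = 1 := by
    intro t
    rw [hq]
    exact Complex.norm_exp_ofReal_mul_I _
  have hqc : ContinuousOn q (Icc a c) := by
    rw [hq]
    have h1 : ContinuousOn (fun t => ∫ s in t₀..t, lam s) (Icc a c) := by
      have := intervalIntegral.continuousOn_primitive_interval' (hlami a c)
        (by rw [uIcc_of_le hac]; exact ht₀ : t₀ ∈ uIcc a c)
      rw [uIcc_of_le hac] at this
      exact this
    exact ((Complex.continuous_ofReal.comp_continuousOn h1).mul continuousOn_const).cexp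
  have hqi : IntervalIntegrable (fun s => ((lam s : ℂ) * Complex.I) * q s) volume a c := by
    refine (hlamI a c).mul_continuousOn ?_
    rw [uIcc_of_le hac]
    exact hqc
  have hqx : ∀ j : Fin 3, _ := fun j => hIBP q (fun t => (x j t : ℂ))
      (fun s => ((lam s : ℂ) * Complex.I) * q s) (fun t => (((f t j).re : ℝ) : ℂ)) a c hac
      hqi (hre j a c) hqe (fun t _ => hxe j a t)
  -- the equations a.e.
  have hfe : ∀ᵐ t, t ∈ Ioo a c → ∀ j, f t j =
      (((f t j).re : ℝ) : ℂ) + ((lam t : ℂ) * Complex.I) * (x j t : ℂ) := by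
    filter_upwards [hH.2] with t ht htm j
    have h1 := ht htm j
    apply Complex.ext
    · simp
    · rw [h1, hlam, hx]
      simp
  have e1 : ∀ᵐ s, s ∈ Ioo a c → ∀ j : Fin 3, ((lam s : ℂ) * Complex.I) * q s * (x j s : ℂ) +
      q s * (((f s j).re : ℝ) : ℂ) = f s j * q s := by
    filter_upwards [hfe] with s hs hsm j
    have h1 := hs hsm j
    rw [h1]
    simp only [Complex.add_re, Complex.ofReal_re, Complex.mul_re, Complex.I_re, Complex.I_im,
      Complex.mul_im, Complex.ofReal_im]
    push_cast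
    ring
  have e2 : ∀ᵐ s, s ∈ Ioo a c → ((lam s : ℂ) * Complex.I) * q s =
      ∑ j, f s j * (q s * (x j s : ℂ)) := by
    filter_upwards [hfe, horth] with s hs ho hsm
    have h1 := hs hsm
    have h2 := ho hsm
    have h3 := hsum s (Ioo_subset_Icc_self hsm)
    have h4 : ∑ j, f s j * (q s * (x j s : ℂ)) =
        q s * (∑ j, (x j s : ℂ) * (((f s j).re : ℝ) : ℂ)) +
        q s * (((lam s : ℂ) * Complex.I) * ∑ j, (x j s : ℂ) * (x j s : ℂ)) := by
      rw [Finset.mul_sum, Finset.mul_sum, Finset.mul_sum, ← Finset.sum_add_distrib]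
      refine Finset.sum_congr rfl fun j _ => ?_
      nth_rewrite 1 [h1 j]
      ring
    rw [h4, h2, h3]
    ring
  -- the candidate
  obtain ⟨n, hn⟩ : ∃ n : ℝ → (Fin 3 → ℂ) × ℂ, n = fun t => (fun j => q t * (x j t : ℂ), q t) :=
    ⟨_, rfl⟩
  have hnc : ContinuousOn n (Icc a c) := by
    rw [hn]
    refine ContinuousOn.prodMk ?_ hqc
    refine continuousOn_pi.2 fun j => ?_
    exact hqc.mul (Complex.continuous_ofReal.comp (hxc j)).continuousOn
  have hmon : ∀ {E : Type} [NormedAddCommGroup E] {g : ℝ → E},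
      IntervalIntegrable g volume a c → ∀ s ∈ Icc a c, ∀ t ∈ Icc a c,
      IntervalIntegrable g volume s t := by
    intro E _ g hg s hs t ht
    refine hg.mono_set ?_
    rw [uIcc_of_le hac]
    exact uIcc_subset_Icc hs ht
  have hG1 : ∀ j, IntervalIntegrable (fun u => (AA (f u) (n u)).1 j) volume a c := by
    intro j
    rw [hn]
    simp only [AA_fst]
    refine (hfj j a c).mul_continuousOn ?_
    rw [uIcc_of_le hac]
    exact hqc
  have hG2 : IntervalIntegrable (fun u => (AA (f u) (n u)).2) volume a c := by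
    rw [hn]
    simp only [AA_snd]
    have := IntervalIntegrable.sum (μ := volume) (a := a) (b := c) Finset.univ
      (f := fun j u => f u j * (q u * (x j u : ℂ))) (fun j _ => (hfj j a c).mul_continuousOn (by
        rw [uIcc_of_le hac]
        exact hqc.mul (Complex.continuous_ofReal.comp (hxc j)).continuousOn))
    refine this.congr ?_
    refine fun u _ => ?_
    simp [Finset.sum_apply]
  have hG : IntervalIntegrable (fun u => AA (f u) (n u)) volume a c := pair_int hG1 hG2
  -- integrals over `[a, t]`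
  have hae : ∀ t ∈ Icc a c, ∀ {P : ℝ → Prop}, (∀ᵐ s, s ∈ Ioo a c → P s) →
      ∀ᵐ s, s ∈ uIoc a t → P s := by
    intro t ht P hP
    filter_upwards [hP, (by simp [ae_iff, measure_singleton] : ∀ᵐ s : ℝ, s ≠ c)] with s hs hsc hst
    rw [uIoc_of_le ht.1] at hst
    exact hs ⟨hst.1, lt_of_le_of_ne (hst.2.trans ht.2) hsc⟩
  have hn1 : ∀ t ∈ Icc a c, n t = n a + ∫ s in a..t, AA (f s) (n s) := by
    intro t ht
    have haI : a ∈ Icc a c := ⟨le_rfl, hac⟩
    refine Prod.ext (funext fun j => ?_) ?_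
    · rw [Prod.fst_add, Pi.add_apply, pair_fst (hmon hG a haI t ht)]
      have h1 := (hqx j).2 t ht
      have h2 : ∫ s in a..t, (((lam s : ℂ) * Complex.I) * q s * (x j s : ℂ) +
          q s * (((f s j).re : ℝ) : ℂ)) = ∫ s in a..t, (AA (f s) (n s)).1 j := by
        refine intervalIntegral.integral_congr_ae ?_
        refine (hae t ht e1).mono fun s hs hst => ?_
        rw [AA_fst, hn]
        exact hs hst j
      rw [h2] at h1
      rw [hn] at h1 ⊢
      exact h1
    · rw [Prod.snd_add, pair_snd (hmon hG a haI t ht)]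
      have h1 := hqe t ht
      have h2 : ∫ s in a..t, ((lam s : ℂ) * Complex.I) * q s =
          ∫ s in a..t, (AA (f s) (n s)).2 := by
        refine intervalIntegral.integral_congr_ae ?_
        refine (hae t ht e2).mono fun s hs hst => ?_
        rw [AA_snd, hn]
        exact hs hst
      rw [h2] at h1
      rw [hn] at h1 ⊢
      exact h1
  have haI : a ∈ Icc a c := ⟨le_rfl, hac⟩
  have hn2 : ∀ t ∈ Icc a c, n t = n t₀ + ∫ s in t₀..t, LL (f s) (n s) := by
    intro t ht
    have h1 := hn1 t ht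
    have h2 := hn1 t₀ ht₀
    have h3 := intervalIntegral.integral_add_adjacent_intervals
      (hmon hG a haI t₀ ht₀) (hmon hG t₀ ht₀ t ht)
    rw [h1, h2, ← h3]
    simp only [LL_apply]
    abel
  -- uniqueness
  have hv : n t₀ = (fun j => ((F (ep 1 t₀) j).re : ℂ), 1) := by
    have : q t₀ = 1 := by
      rw [hq]
      simp
    rw [hn]
    simp only [this, one_mul, hx]
  have hmc : ContinuousOn (fun t => m (ep 1 t)) (Icc a c) :=
    (hm.cont.comp_continuous ep_cont ep_mem).continuousOn
  have hun := hOUN (fun u => LL (f u)) a c t₀ ht₀ (LL_int (hfi a c)) (fun t => m (ep 1 t)) n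
    (n t₀) hmc hnc (fun t _ => by
      have := hm.ftc t₀ t
      rw [hm0, ← hv] at this
      exact this) hn2
  intro t ht
  have h1 : m (ep 1 t) = n t := hun t ht
  rw [h1, hn]
  refine ⟨hqn t, fun j => ?_⟩
  rw [hx]

end Pool.Agent.FBM
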