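import Pool.Agent.FBM.StmtE

/-!
# EHW: extension at junctions, an arc on the sphere on the left, an arc on a wall on the right
-/

open MeasureTheory Set Filter Topology
open scoped Real ComplexConjugate

namespace Pool.Agent.FBM

namespace EHW

theorem closure_inter (ρ : ℝ) :
    closure {w : ℂ | ‖w‖ < ρ ∧ 0 < w.re ∧ 0 < w.im} ∩ Metric.ball 0 ρ =
      {w : ℂ | ‖w‖ < ρ ∧ 0 ≤ w.re ∧ 0 ≤ w.im} := by
  have h0 : {w : ℂ | 0 < w.re ∧ 0 < w.im} = Ioi 0 ×ℂ Ioi 0 := by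
    ext w
    simp [Complex.mem_reProdIm]
  have h1 : closure {w : ℂ | 0 < w.re ∧ 0 < w.im} = {w : ℂ | 0 ≤ w.re ∧ 0 ≤ w.im} := by
    rw [h0, Complex.closure_reProdIm, closure_Ioi]
    ext w
    simp [Complex.mem_reProdIm]
  apply Set.Subset.antisymm
  · rintro w ⟨hw, hb⟩
    refine ⟨by simpa using hb, ?_⟩
    have h2 : w ∈ closure {w : ℂ | 0 < w.re ∧ 0 < w.im} := closure_mono (fun z hz => hz.2) hw
    rw [h1] at h2
    exact h2
  · rintro w ⟨hb, hw⟩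
    have hb' : w ∈ Metric.ball (0 : ℂ) ρ := by simpa using hb
    refine ⟨?_, hb'⟩
    have h2 : w ∈ Metric.ball (0 : ℂ) ρ ∩ closure {w : ℂ | 0 < w.re ∧ 0 < w.im} :=
      ⟨hb', by rw [h1]; exact hw⟩
    have h3 := Metric.isOpen_ball.inter_closure h2
    refine closure_mono ?_ h3
    rintro z ⟨hz1, hz2⟩
    exact ⟨by simpa using hz1, hz2⟩

theorem isOpen_quad (ρ : ℝ) : IsOpen {w : ℂ | ‖w‖ < ρ ∧ 0 < w.re ∧ 0 < w.im} :=
  (isOpen_lt continuous_norm continuous_const).inter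
    ((isOpen_lt continuous_const Complex.continuous_re).inter
      (isOpen_lt continuous_const Complex.continuous_im))

theorem convex_quad (ρ : ℝ) : Convex ℝ {w : ℂ | ‖w‖ < ρ ∧ 0 < w.re ∧ 0 < w.im} := by
  have h1 : {w : ℂ | ‖w‖ < ρ ∧ 0 < w.re ∧ 0 < w.im} =
      Metric.ball 0 ρ ∩ ({w : ℂ | 0 < w.re} ∩ {w : ℂ | 0 < w.im}) := by
    ext w
    simp
  rw [h1]
  exact (convex_ball 0 ρ).inter ((convex_halfSpace_re_gt 0).inter (convex_halfSpace_im_gt 0))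

theorem zero_mem_closure (ρ : ℝ) (hρ : 0 < ρ) :
    (0 : ℂ) ∈ closure {w : ℂ | ‖w‖ < ρ ∧ 0 < w.re ∧ 0 < w.im} := by
  have h : (0 : ℂ) ∈ {w : ℂ | ‖w‖ < ρ ∧ 0 ≤ w.re ∧ 0 ≤ w.im} :=
    ⟨by simpa using hρ, le_refl _, le_refl _⟩
  rw [← closure_inter ρ] at h
  exact h.1

lemma arctan_le {x : ℝ} (hx : 0 ≤ x) : Real.arctan x ≤ x := by
  have h := Real.le_tan (Real.arctan_nonneg.mpr hx) (Real.arctan_lt_pi_div_two x)
  rwa [Real.tan_arctan] at h

lemma sq_norm {w : ℂ} (hw : ‖w‖ < 1) : ‖w ^ 2‖ < 1 := by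
  rw [norm_pow]
  nlinarith [norm_nonneg w]

lemma of_re {z : ℂ} (h : z.re = 0) : z = ((-1 : ℝ) : ℂ) * (starRingEnd ℂ) z := by
  apply Complex.ext <;> simp [h]

lemma of_im {z : ℂ} (h : z.im = 0) : z = ((1 : ℝ) : ℂ) * (starRingEnd ℂ) z := by
  apply Complex.ext <;> simp [h]

/-- The symmetry of `G` from the symmetries of `P` and `Q`. -/
theorem symm_of (ρ σ : ℝ) (P Q G : ℂ → ℂ) (hρ : 0 < ρ) (hσ : σ * σ = 1)
    (hP : DifferentiableOn ℂ P (Metric.ball 0 ρ))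
    (hG : DifferentiableOn ℂ G (Metric.ball 0 ρ)) (hQ0 : ∀ w ∈ Metric.ball (0 : ℂ) ρ, Q w ≠ 0)
    (hGQ : ∀ w ∈ Metric.ball (0 : ℂ) ρ, deriv G w * Q w = deriv P w)
    (hPs : ∀ w ∈ Metric.ball (0 : ℂ) ρ, P (conj w) = σ * conj (P w))
    (hQs : ∀ w ∈ Metric.ball (0 : ℂ) ρ, Q (conj w) = conj (Q w)) :
    ∀ w ∈ Metric.ball (0 : ℂ) ρ, G w - σ * conj (G (conj w)) = G 0 - σ * conj (G 0) := by
  have hcb : ∀ w ∈ Metric.ball (0 : ℂ) ρ, conj w ∈ Metric.ball (0 : ℂ) ρ := by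
    intro w hw
    simpa using hw
  have hGd : ∀ w ∈ Metric.ball (0 : ℂ) ρ, HasDerivAt G (deriv G w) w := fun w hw =>
    (hG.differentiableAt (Metric.isOpen_ball.mem_nhds hw)).hasDerivAt
  have hPd : ∀ w ∈ Metric.ball (0 : ℂ) ρ, HasDerivAt P (deriv P w) w := fun w hw =>
    (hP.differentiableAt (Metric.isOpen_ball.mem_nhds hw)).hasDerivAt
  have hPc : ∀ w ∈ Metric.ball (0 : ℂ) ρ, deriv P (conj w) = σ * conj (deriv P w) := by
    intro w hw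
    have h1 : HasDerivAt (fun z => conj (P (conj z))) (conj (deriv P (conj w))) w := by
      have := (hPd (conj w) (hcb w hw)).conj_conj
      rw [Complex.conj_conj] at this
      exact this
    have h2 : (fun z => conj (P (conj z))) =ᶠ[𝓝 w] fun z => σ * P z := by
      filter_upwards [Metric.isOpen_ball.mem_nhds hw] with z hz
      rw [hPs z hz, map_mul, Complex.conj_conj, Complex.conj_ofReal]
    have h3 : HasDerivAt (fun z => (σ : ℂ) * P z) (σ * deriv P w) w := (hPd w hw).const_mul _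
    have h4 := (h1.congr_of_eventuallyEq h2.symm).unique h3
    have h5 := congrArg conj h4
    rw [Complex.conj_conj, map_mul, Complex.conj_ofReal] at h5
    exact h5
  have hd : ∀ w ∈ Metric.ball (0 : ℂ) ρ,
      HasDerivAt (fun z => G z - σ * conj (G (conj z))) 0 w := by
    intro w hw
    have h1 : HasDerivAt (fun z => conj (G (conj z))) (conj (deriv G (conj w))) w := by
      have := (hGd (conj w) (hcb w hw)).conj_conj
      rw [Complex.conj_conj] at this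
      exact this
    have h2 := (hGd w hw).sub (h1.const_mul (σ : ℂ))
    have h3 : deriv G w - σ * conj (deriv G (conj w)) = 0 := by
      have h4 := hGQ w hw
      have h5 := congrArg conj (hGQ (conj w) (hcb w hw))
      rw [map_mul, hQs w hw, Complex.conj_conj, hPc w hw, map_mul, Complex.conj_ofReal,
        Complex.conj_conj] at h5
      have h7 : (deriv G w - σ * conj (deriv G (conj w))) * Q w = 0 := by
        have h8 : (σ : ℂ) * σ = 1 := by rw [← Complex.ofReal_mul, hσ, Complex.ofReal_one]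
        linear_combination h4 - (σ : ℂ) * h5 - deriv P w * h8
      exact (mul_eq_zero.1 h7).resolve_right (hQ0 w hw)
    rwa [h3] at h2
  intro w hw
  have h0 : (0 : ℂ) ∈ Metric.ball (0 : ℂ) ρ := by simpa using hρ
  have h1 : DifferentiableOn ℂ (fun z => G z - σ * conj (G (conj z))) (Metric.ball 0 ρ) :=
    fun z hz => (hd z hz).differentiableAt.differentiableWithinAt
  have h2 := (convex_ball (0 : ℂ) ρ).is_const_of_fderivWithin_eq_zero (𝕜 := ℂ) h1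
    (fun z hz => by
      have h3 : HasFDerivAt (fun z => G z - σ * conj (G (conj z))) (0 : ℂ →L[ℂ] ℂ) z := by
        have := (hd z hz).hasFDerivAt
        simpa using this
      exact (h3.hasFDerivWithinAt).fderivWithin (Metric.isOpen_ball.uniqueDiffWithinAt hz)) hw h0
  simpa using h2


end EHW

open EHW

theorem t_EHW (hESO : Stmt_ESO) (hEHS : Stmt_EHS) (hEWS : Stmt_EWS) (hEQR : Stmt_EQR)
    (hEQU : Stmt_EQU) (hEPR : Stmt_EPR) (hESL : Stmt_ESL) (hPSI : Stmt_PSI) : Stmt_EHW := by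
  intro F f i a c t₀ hF hat htc hH hW
  obtain ⟨m, hm, hm0⟩ := hESO F f hF t₀ (fun j => ((F (ep 1 t₀) j).re : ℂ), 1)
  have hS := hEHS F f a t₀ t₀ hF hH ⟨hat.le, le_rfl⟩ m hm hm0
  have hT := hEWS F f i t₀ c t₀ hF hW ⟨le_rfl, htc.le⟩ m hm hm0
  obtain ⟨hp1, hp2, hp3, -, hp0, hp4⟩ := hPSI t₀
  -- the square
  have hsq : ∀ w : ℂ, ‖w‖ < 1 → 0 ≤ w.re → 0 ≤ w.im → ‖w ^ 2‖ < 1 ∧ 0 ≤ (w ^ 2).im := by
    intro w h1 h2 h3
    refine ⟨sq_norm h1, ?_⟩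
    rw [pow_two, Complex.mul_im]
    positivity
  have hsq' : ∀ w : ℂ, ‖w‖ < 1 → 0 < w.re → 0 < w.im → ‖w ^ 2‖ < 1 ∧ 0 < (w ^ 2).im := by
    intro w h1 h2 h3
    refine ⟨sq_norm h1, ?_⟩
    rw [pow_two, Complex.mul_im]
    positivity
  have hφd : ∀ w : ℂ, ‖w‖ < 1 → HasDerivAt (fun w => psi t₀ (w ^ 2))
      (deriv (fun w => psi t₀ (w ^ 2)) w) w := by
    intro w h1
    have h4 : DifferentiableAt ℂ (fun w : ℂ => w ^ 2) w := differentiableAt_id.pow 2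
    have h5 : DifferentiableAt ℂ (fun w : ℂ => psi t₀ (w ^ 2)) w :=
      DifferentiableAt.comp (g := psi t₀) (f := fun w : ℂ => w ^ 2) w
        (hp3 (w ^ 2) (sq_norm h1)) h4
    exact h5.hasDerivAt
  -- continuity of the composed functions
  have hpc : ContinuousOn (fun w => psi t₀ (w ^ 2)) {w : ℂ | ‖w‖ < 1 ∧ 0 ≤ w.re ∧ 0 ≤ w.im} :=
    fun w hw => (hφd w hw.1).continuousAt.continuousWithinAt
  have hcl : ∀ w ∈ {w : ℂ | ‖w‖ < 1 ∧ 0 ≤ w.re ∧ 0 ≤ w.im},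
      psi t₀ (w ^ 2) ∈ Metric.closedBall (0 : ℂ) 1 := fun w hw =>
    hp1 _ (hsq w hw.1 hw.2.1 hw.2.2).1 (hsq w hw.1 hw.2.1 hw.2.2).2
  have hop : ∀ w : ℂ, ‖w‖ < 1 → 0 < w.re → 0 < w.im →
      psi t₀ (w ^ 2) ∈ Metric.ball (0 : ℂ) 1 := fun w h1 h2 h3 =>
    hp2 _ (hsq' w h1 h2 h3).1 (hsq' w h1 h2 h3).2
  have hmc : ContinuousOn (fun w => m (psi t₀ (w ^ 2))) {w : ℂ | ‖w‖ < 1 ∧ 0 ≤ w.re ∧ 0 ≤ w.im} :=
    hm.cont.comp hpc hcl
  have hqc : ContinuousOn (fun w => (m (psi t₀ (w ^ 2))).2)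
      {w : ℂ | ‖w‖ < 1 ∧ 0 ≤ w.re ∧ 0 ≤ w.im} :=
    continuous_snd.comp_continuousOn hmc
  have hpjc : ∀ j, ContinuousOn (fun w => (m (psi t₀ (w ^ 2))).1 j)
      {w : ℂ | ‖w‖ < 1 ∧ 0 ≤ w.re ∧ 0 ≤ w.im} :=
    fun j => ((continuous_apply j).comp continuous_fst).comp_continuousOn hmc
  -- derivatives
  have hmd : ∀ w : ℂ, ‖w‖ < 1 → 0 < w.re → 0 < w.im → HasDerivAt (fun w => m (psi t₀ (w ^ 2)))
      (deriv (fun w => psi t₀ (w ^ 2)) w •
        AA (deriv F (psi t₀ (w ^ 2))) (m (psi t₀ (w ^ 2)))) w := fun w h1 h2 h3 =>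
    HasDerivAt.scomp w (hm.diff _ (hop w h1 h2 h3)) (hφd w h1)
  have hqd : ∀ w : ℂ, ‖w‖ < 1 → 0 < w.re → 0 < w.im →
      HasDerivAt (fun w => (m (psi t₀ (w ^ 2))).2)
      (deriv (fun w => psi t₀ (w ^ 2)) w *
        (AA (deriv F (psi t₀ (w ^ 2))) (m (psi t₀ (w ^ 2)))).2) w := fun w h1 h2 h3 =>
    (hmd w h1 h2 h3).snd
  have hpd : ∀ w : ℂ, ‖w‖ < 1 → 0 < w.re → 0 < w.im → ∀ j,
      HasDerivAt (fun w => (m (psi t₀ (w ^ 2))).1 j)
      (deriv (fun w => psi t₀ (w ^ 2)) w *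
        (AA (deriv F (psi t₀ (w ^ 2))) (m (psi t₀ (w ^ 2)))).1 j) w := fun w h1 h2 h3 j =>
    hasDerivAt_pi.1 (hmd w h1 h2 h3).fst j
  have hFd : ∀ w : ℂ, ‖w‖ < 1 → 0 < w.re → 0 < w.im → HasDerivAt (fun w => F (psi t₀ (w ^ 2)))
      (deriv (fun w => psi t₀ (w ^ 2)) w • deriv F (psi t₀ (w ^ 2))) w := fun w h1 h2 h3 =>
    HasDerivAt.scomp w ((hF.diff.differentiableAt
      (Metric.isOpen_ball.mem_nhds (hop w h1 h2 h3))).hasDerivAt) (hφd w h1)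
  have hFjd : ∀ w : ℂ, ‖w‖ < 1 → 0 < w.re → 0 < w.im → ∀ j,
      HasDerivAt (fun w => F (psi t₀ (w ^ 2)) j)
      (deriv (fun w => psi t₀ (w ^ 2)) w * deriv F (psi t₀ (w ^ 2)) j) w := fun w h1 h2 h3 j =>
    hasDerivAt_pi.1 (hFd w h1 h2 h3) j
  -- the radius
  have hz1 : (0 : ℂ) ∈ {w : ℂ | ‖w‖ < 1 ∧ 0 ≤ w.re ∧ 0 ≤ w.im} := ⟨by simp, le_refl _, le_refl _⟩
  have hp00 : psi t₀ ((0 : ℂ) ^ 2) = ep 1 t₀ := by
    rw [zero_pow two_ne_zero, hp0]
  have hq0 : (m (psi t₀ ((0 : ℂ) ^ 2))).2 = 1 := by rw [hp00, hm0]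
  obtain ⟨ε, hε, hεq⟩ : ∃ ε > 0, ∀ w : ℂ, ‖w‖ < ε → ‖w‖ < 1 → 0 ≤ w.re → 0 ≤ w.im →
      (m (psi t₀ (w ^ 2))).2 ≠ 0 := by
    have h1 : ∀ᶠ w in 𝓝[{w : ℂ | ‖w‖ < 1 ∧ 0 ≤ w.re ∧ 0 ≤ w.im}] 0,
        (m (psi t₀ (w ^ 2))).2 ≠ 0 := by
      refine (hqc 0 hz1).eventually_ne ?_
      change (m (psi t₀ ((0 : ℂ) ^ 2))).2 ≠ 0
      rw [hq0]
      exact one_ne_zero
    rw [eventually_nhdsWithin_iff, Metric.eventually_nhds_iff] at h1
    obtain ⟨ε, hε, h⟩ := h1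
    exact ⟨ε, hε, fun w h1 h2 h3 h4 => h (by simpa using h1) ⟨h2, h3, h4⟩⟩
  obtain ⟨ρ, hρ0, hρ1, hρε, hρc, hρa⟩ : ∃ ρ : ℝ, 0 < ρ ∧ ρ < 1 ∧ ρ ≤ ε ∧ 2 * ρ ≤ c - t₀ ∧
      2 * ρ ≤ t₀ - a := by
    have h3 : 0 < min (c - t₀) (t₀ - a) := lt_min (by linarith) (by linarith)
    refine ⟨min ε (min (1 / 2) (min (c - t₀) (t₀ - a) / 2)), ?_, ?_, min_le_left _ _, ?_, ?_⟩
    · exact lt_min hε (lt_min (by norm_num) (by linarith))
    · exact ((min_le_right _ _).trans (min_le_left _ _)).trans_lt (by norm_num)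
    · have h4 := (min_le_right ε (min (1 / 2) (min (c - t₀) (t₀ - a) / 2))).trans
        (min_le_right (1 / 2) (min (c - t₀) (t₀ - a) / 2))
      have h5 := min_le_left (c - t₀) (t₀ - a)
      linarith
    · have h4 := (min_le_right ε (min (1 / 2) (min (c - t₀) (t₀ - a) / 2))).trans
        (min_le_right (1 / 2) (min (c - t₀) (t₀ - a) / 2))
      have h5 := min_le_right (c - t₀) (t₀ - a)
      linarith
  have harc : ∀ x : ℝ, 0 ≤ x → x < ρ →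
      0 ≤ Real.arctan (x ^ 2) ∧ 2 * Real.arctan (x ^ 2) ≤ 2 * ρ := by
    intro x hx hxρ
    refine ⟨Real.arctan_nonneg.mpr (sq_nonneg x), ?_⟩
    have h3 := arctan_le (sq_nonneg x)
    have h4 : x ^ 2 ≤ x := by nlinarith
    linarith
  have hsub : {w : ℂ | ‖w‖ < ρ ∧ 0 ≤ w.re ∧ 0 ≤ w.im} ⊆
      {w : ℂ | ‖w‖ < 1 ∧ 0 ≤ w.re ∧ 0 ≤ w.im} :=
    fun w hw => ⟨hw.1.trans hρ1, hw.2⟩
  have hqne : ∀ w : ℂ, ‖w‖ < ρ → 0 ≤ w.re → 0 ≤ w.im → (m (psi t₀ (w ^ 2))).2 ≠ 0 :=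
    fun w h1 h2 h3 => hεq w (lt_of_lt_of_le h1 hρε) (h1.trans hρ1) h2 h3
  -- the values on the two axes
  have hval1 : ∀ x : ℝ, psi t₀ ((x : ℂ) ^ 2) = ep 1 (t₀ + 2 * Real.arctan (x ^ 2)) := by
    intro x
    have := hp4 (x ^ 2)
    rw [← this]
    push_cast
    rfl
  have hval2 : ∀ x : ℝ, psi t₀ (((x : ℂ) * Complex.I) ^ 2)
      = ep 1 (t₀ - 2 * Real.arctan (x ^ 2)) := by
    intro x
    have h3 := hp4 (-(x ^ 2))
    rw [Real.arctan_neg] at h3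
    have e : (((x : ℂ) * Complex.I) ^ 2) = ((-(x ^ 2) : ℝ) : ℂ) := by
      rw [mul_pow, Complex.I_sq]; push_cast; ring
    rw [e, h3]
    congr 1
    ring
  have hre : ∀ x : ℝ, 0 ≤ x → x < ρ → (m (psi t₀ ((x : ℂ) ^ 2))).2.im = 0 ∧
      ((m (psi t₀ ((x : ℂ) ^ 2))).1 i).re = 0 ∧
      ∀ j, j ≠ i → ((m (psi t₀ ((x : ℂ) ^ 2))).1 j).im = 0 := by
    intro x hx hxρ
    obtain ⟨h1, h2⟩ := harc x hx hxρ
    rw [hval1 x]
    exact hT _ ⟨by linarith, by linarith⟩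
  have him : ∀ x : ℝ, 0 ≤ x → x < ρ → ‖(m (psi t₀ (((x : ℂ) * Complex.I) ^ 2))).2‖ = 1 ∧
      ∀ j, (m (psi t₀ (((x : ℂ) * Complex.I) ^ 2))).1 j =
        (m (psi t₀ (((x : ℂ) * Complex.I) ^ 2))).2 *
          ((F (psi t₀ (((x : ℂ) * Complex.I) ^ 2)) j).re : ℂ) := by
    intro x hx hxρ
    obtain ⟨h1, h2⟩ := harc x hx hxρ
    rw [hval2 x]
    exact hS _ ⟨by linarith, by linarith⟩
  have hxR : ∀ x : ℝ, 0 ≤ x → x < ρ → ‖(x : ℂ)‖ < ρ ∧ 0 ≤ (x : ℂ).re ∧ 0 ≤ (x : ℂ).im := by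
    intro x hx hxρ
    refine ⟨?_, ?_, ?_⟩
    · rwa [Complex.norm_real, Real.norm_eq_abs, abs_of_nonneg hx]
    · simpa using hx
    · simp
  have hxI : ∀ x : ℝ, 0 ≤ x → x < ρ → ‖(x : ℂ) * Complex.I‖ < ρ ∧ 0 ≤ ((x : ℂ) * Complex.I).re ∧
      0 ≤ ((x : ℂ) * Complex.I).im := by
    intro x hx hxρ
    refine ⟨?_, ?_, ?_⟩
    · rwa [norm_mul, Complex.norm_I, mul_one, Complex.norm_real, Real.norm_eq_abs,
        abs_of_nonneg hx]
    · simp
    · simpa using hx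
  -- extension of Q
  obtain ⟨Q, hQd, hQe, hQ0, hQc, hQi⟩ := hEQU ρ (fun w => (m (psi t₀ (w ^ 2))).2) hρ0
    (hqc.mono hsub)
    (fun w hw => (hqd w (hw.1.trans hρ1) hw.2.1 hw.2.2).differentiableAt.differentiableWithinAt)
    hqne
    (fun x hx hxρ => (Complex.conj_eq_iff_im.2 (hre x hx hxρ).1).symm)
    (fun x hx hxρ => (him x hx hxρ).1)
  -- extension of P / Q
  have hY : ∀ j, ∃ g : ℂ → ℂ, DifferentiableOn ℂ g (Metric.ball 0 ρ) ∧
      (∀ w : ℂ, ‖w‖ < ρ → 0 ≤ w.re → 0 ≤ w.im →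
        g w = (m (psi t₀ (w ^ 2))).1 j / (m (psi t₀ (w ^ 2))).2) ∧
      (∀ w : ℂ, ‖w‖ < ρ → g (conj w) = ((if j = i then -1 else 1 : ℝ) : ℂ) * conj (g w)) ∧
      ∀ w : ℂ, ‖w‖ < ρ → g (-(conj w)) = ((1 : ℝ) : ℂ) * conj (g w) := by
    intro j
    refine hEQR ρ (if j = i then -1 else 1) 1
      (fun w => (m (psi t₀ (w ^ 2))).1 j / (m (psi t₀ (w ^ 2))).2) hρ0 ?_ (Or.inl rfl) ?_ ?_ ?_ ?_
    · split_ifs
      · right; rfl
      · left; rfl
    · exact ((hpjc j).mono hsub).div (hqc.mono hsub) fun w hw => hqne w hw.1 hw.2.1 hw.2.2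
    · exact fun w hw => ((hpd w (hw.1.trans hρ1) hw.2.1 hw.2.2 j).differentiableAt.div
        (hqd w (hw.1.trans hρ1) hw.2.1 hw.2.2).differentiableAt
        (hqne w hw.1 hw.2.1.le hw.2.2.le)).differentiableWithinAt
    · intro x hx hxρ
      obtain ⟨h1, h2, h3⟩ := hre x hx hxρ
      have hq : conj (m (psi t₀ ((x : ℂ) ^ 2))).2 = (m (psi t₀ ((x : ℂ) ^ 2))).2 :=
        Complex.conj_eq_iff_im.2 h1
      by_cases hj : j = i
      · rw [if_pos hj]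
        have h4 := of_re (z := (m (psi t₀ ((x : ℂ) ^ 2))).1 j) (by rw [hj]; exact h2)
        rw [map_div₀, hq, ← mul_div_assoc, ← h4]
      · rw [if_neg hj]
        have h4 := of_im (z := (m (psi t₀ ((x : ℂ) ^ 2))).1 j) (h3 j hj)
        rw [map_div₀, hq, ← mul_div_assoc, ← h4]
    · intro x hx hxρ
      have h3 := (him x hx hxρ).2 j
      have h4 := hqne _ (hxI x hx hxρ).1 (hxI x hx hxρ).2.1 (hxI x hx hxρ).2.2
      have h5 : (m (psi t₀ (((x : ℂ) * Complex.I) ^ 2))).1 j /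
          (m (psi t₀ (((x : ℂ) * Complex.I) ^ 2))).2 =
          ((F (psi t₀ (((x : ℂ) * Complex.I) ^ 2)) j).re : ℂ) := by
        rw [h3, mul_div_cancel_left₀ _ h4]
      simp only [h5, Complex.conj_ofReal, Complex.ofReal_one, one_mul]
  choose Y hYd hYe hYc hYi using hY
  have hYx : ∀ x : ℝ, 0 ≤ x → x < ρ → ∀ j, Y j ((x : ℂ) * Complex.I) =
      ((F (psi t₀ (((x : ℂ) * Complex.I) ^ 2)) j).re : ℂ) := by
    intro x hx hxρ j
    rw [hYe j _ (hxI x hx hxρ).1 (hxI x hx hxρ).2.1 (hxI x hx hxρ).2.2, (him x hx hxρ).2 j,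
      mul_div_cancel_left₀ _ (hqne _ (hxI x hx hxρ).1 (hxI x hx hxρ).2.1 (hxI x hx hxρ).2.2)]
  have hQY : ∀ w : ℂ, ‖w‖ < ρ → 0 ≤ w.re → 0 ≤ w.im → ∀ j,
      Q w * Y j w = (m (psi t₀ (w ^ 2))).1 j := by
    intro w h1 h2 h3 j
    rw [hQe w h1 h2 h3, hYe j w h1 h2 h3, mul_div_cancel₀ _ (hqne w h1 h2 h3)]
  -- recovering the extension of F
  obtain ⟨G, hGd, hGe, hGF⟩ := hEPR ρ {w : ℂ | ‖w‖ < ρ ∧ 0 < w.re ∧ 0 < w.im}
    (fun w j => Q w * Y j w) Q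
    (fun w => F (psi t₀ (w ^ 2))) hρ0 (convex_quad ρ) (isOpen_quad ρ)
    (fun w hw => by simpa using hw.1) (zero_mem_closure ρ hρ0)
    (differentiableOn_pi.2 fun j => hQd.mul (hYd j)) hQd
    (fun z hz => hQ0 z (by simpa using hz))
    (by
      rw [closure_inter]
      exact hF.cont.comp (hpc.mono hsub) fun w hw => hcl w (hsub hw))
    (fun w hw => (hFd w (hw.1.trans hρ1) hw.2.1 hw.2.2).differentiableAt.differentiableWithinAt)
    (fun z hz j => by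
      have h1 : (fun w => Q w * Y j w) =ᶠ[𝓝 z] fun w => (m (psi t₀ (w ^ 2))).1 j := by
        filter_upwards [(isOpen_quad ρ).mem_nhds hz] with w hw
        exact hQY w hw.1 hw.2.1.le hw.2.2.le j
      rw [(hFjd z (hz.1.trans hρ1) hz.2.1 hz.2.2 j).deriv, h1.deriv_eq,
        (hpd z (hz.1.trans hρ1) hz.2.1 hz.2.2 j).deriv, hQe z hz.1 hz.2.1.le hz.2.2.le, AA_fst,
        mul_assoc])
  have hGF' : ∀ w : ℂ, ‖w‖ < ρ → 0 ≤ w.re → 0 ≤ w.im → G w = F (psi t₀ (w ^ 2)) := by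
    intro w h1 h2 h3
    refine hGF w ?_
    rw [closure_inter]
    exact ⟨h1, h2, h3⟩
  have hG0 : G 0 = F (ep 1 t₀) := by
    rw [hGF' 0 (by simpa using hρ0) (by simp) (by simp), hp00]
  -- the first symmetry
  have hsym : SymR i G ρ := by
    intro j w hw
    have hwb : w ∈ Metric.ball (0 : ℂ) ρ := by simpa using hw
    have hσ : (if j = i then -1 else 1 : ℝ) * (if j = i then -1 else 1 : ℝ) = 1 := by
      split_ifs <;> norm_num
    have h1 := symm_of ρ (if j = i then -1 else 1) (fun w => Q w * Y j w) Q (fun w => G w j) hρ0 hσ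
      (hQd.mul (hYd j)) (differentiableOn_pi.1 hGd j) (fun z hz => hQ0 z (by simpa using hz))
      (fun z hz => hGe z hz j)
      (fun z hz => by
        have hz' : ‖z‖ < ρ := by simpa using hz
        rw [hQc z hz', hYc j z hz', map_mul]
        ring)
      (fun z hz => hQc z (by simpa using hz)) w hwb
    have h2 := congrArg Complex.re h1
    have h3 : (G 0 j - ((if j = i then -1 else 1 : ℝ) : ℂ) * conj (G 0 j)).re = 0 := by
      rw [hG0]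
      by_cases hj : j = i
      · have h4 := hW.1 t₀ ⟨le_rfl, htc.le⟩
        rw [if_pos hj, hj]
        simp [h4]
      · rw [if_neg hj]
        simp
    rw [h3] at h2
    rw [Complex.sub_re, Complex.re_ofReal_mul, Complex.conj_re] at h2
    split_ifs at h2 ⊢ <;> linarith
  refine ⟨G, ρ, ⟨hρ0, hρ1, hGd, hGF'⟩, hsym, fun x hx => ?_⟩
  -- values on the imaginary axis
  have hcI : ∀ y : ℝ, conj ((y : ℂ) * Complex.I) = ((-y : ℝ) : ℂ) * Complex.I := by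
    intro y
    rw [map_mul, Complex.conj_ofReal, Complex.conj_I]
    push_cast
    ring
  have hnI : ∀ y : ℝ, |y| < ρ → ‖(y : ℂ) * Complex.I‖ < ρ := by
    intro y hy
    rwa [norm_mul, Complex.norm_I, mul_one, Complex.norm_real, Real.norm_eq_abs]
  have hYG0 : ∀ y : ℝ, 0 ≤ y → y < ρ → ∀ j, (Y j ((y : ℂ) * Complex.I)).re =
      (G ((y : ℂ) * Complex.I) j).re := by
    intro y hy hyρ j
    rw [hYx y hy hyρ j, Complex.ofReal_re,
      hGF' _ (hxI y hy hyρ).1 (hxI y hy hyρ).2.1 (hxI y hy hyρ).2.2]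
  have hYG : ∀ y : ℝ, |y| < ρ → ∀ j, (Y j ((y : ℂ) * Complex.I)).re =
      (G ((y : ℂ) * Complex.I) j).re := by
    intro y hy j
    rcases le_total 0 y with h | h
    · exact hYG0 y h (by rwa [abs_of_nonneg h] at hy) j
    · have h1 : (0 : ℝ) ≤ -y := by linarith
      have h2 : -y < ρ := by rwa [abs_of_nonpos h] at hy
      have h3 := hYc j _ (hnI (-y) (by rwa [abs_neg]))
      rw [hcI, neg_neg] at h3
      have h4 := hsym j _ (hnI (-y) (by rwa [abs_neg]))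
      rw [hcI, neg_neg] at h4
      rw [h3, h4, Complex.re_ofReal_mul, Complex.conj_re, hYG0 (-y) h1 h2 j]
  constructor
  · have hpos : ∀ y : ℝ, 0 ≤ y → y < ρ → ∑ j, (G ((y : ℂ) * Complex.I) j).re ^ 2 = 1 := by
      intro y hy hyρ
      obtain ⟨h1, h2⟩ := harc y hy hyρ
      rw [hGF' _ (hxI y hy hyρ).1 (hxI y hy hyρ).2.1 (hxI y hy hyρ).2.2, hval2 y]
      exact hH.1 _ ⟨by linarith, by linarith⟩
    rcases le_total 0 x with h | h
    · exact hpos x h (by rwa [abs_of_nonneg h] at hx)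
    · have h1 : (0 : ℝ) ≤ -x := by linarith
      have h2 : -x < ρ := by rwa [abs_of_nonpos h] at hx
      rw [← hpos (-x) h1 h2]
      refine Finset.sum_congr rfl fun j _ => ?_
      have h4 := hsym j _ (hnI (-x) (by rwa [abs_neg]))
      rw [hcI, neg_neg] at h4
      rw [h4]
      split_ifs <;> ring
  · obtain ⟨κ, hκ⟩ := hESL ρ Complex.I Q (fun w j => Y j w) G hρ0 Complex.norm_I hQd
      (differentiableOn_pi.2 fun j => hYd j) (fun y hy => by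
        have hmc : -(conj ((y : ℂ) * Complex.I)) = (y : ℂ) * Complex.I := by
          rw [hcI]
          push_cast
          ring
        refine ⟨?_, fun j => ?_⟩
        · have h1 := hQi _ (hnI y hy)
          rw [hmc] at h1
          have h2 := hQ0 _ (hnI y hy)
          have h3 : Q ((y : ℂ) * Complex.I) * conj (Q ((y : ℂ) * Complex.I)) = 1 := by
            have h4 : conj (Q ((y : ℂ) * Complex.I)) ≠ 0 := by
              simpa using h2
            nth_rewrite 1 [h1]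
            exact inv_mul_cancel₀ h4
          rw [Complex.mul_conj, Complex.normSq_eq_norm_sq] at h3
          have h5 : ‖Q ((y : ℂ) * Complex.I)‖ ^ 2 = 1 := by exact_mod_cast h3
          have h6 := norm_nonneg (Q ((y : ℂ) * Complex.I))
          nlinarith
        · have h1 := hYi j _ (hnI y hy)
          rw [hmc, Complex.ofReal_one, one_mul] at h1
          exact Complex.conj_eq_iff_im.1 h1.symm) (fun z hz j => hGe z hz j) x hx
    refine ⟨κ, fun j => ?_⟩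
    have h1 := hκ j
    rw [Complex.I_mul_im, hYG x hx j] at h1
    exact h1

end Pool.Agent.FBM
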