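import Pool.Agent.FBM.StmtE

/-!
# Block E, EPR: recovering `F` from `F' Q = P'`
-/

open MeasureTheory Set Filter Topology
open scoped Real

namespace Pool.Agent.FBM

theorem t_EPR : Stmt_EPR := by
  intro ρ S P Q f₀ hρ hconv hopen hSb h0 hP hQ hQ0 hfc hfd heq
  have hPj : ∀ j, DifferentiableOn ℂ (fun w => P w j) (Metric.ball 0 ρ) := fun j =>
    (differentiableOn_pi.1 hP) j
  have hpr : ∀ j, ∃ g : ℂ → ℂ, ∀ z ∈ Metric.ball (0 : ℂ) ρ,
      HasDerivAt g (deriv (fun w => P w j) z / Q z) z := fun j => by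
    have h1 : DifferentiableOn ℂ (fun z => deriv (fun w => P w j) z / Q z) (Metric.ball 0 ρ) :=
      ((hPj j).deriv Metric.isOpen_ball).div hQ hQ0
    exact h1.isExactOn_ball
  choose g hg using hpr
  obtain ⟨z₀, hz₀⟩ : S.Nonempty := closure_nonempty_iff.1 ⟨0, h0⟩
  let G : ℂ → Fin 3 → ℂ := fun z j => g j z + (f₀ z₀ j - g j z₀)
  have hGd : ∀ z ∈ Metric.ball (0 : ℂ) ρ, ∀ j,
      HasDerivAt (fun w => G w j) (deriv (fun w => P w j) z / Q z) z := fun z hz j =>
    (hg j z hz).add_const _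
  have hGdiff : DifferentiableOn ℂ G (Metric.ball 0 ρ) := by
    refine differentiableOn_pi.2 fun j z hz => ?_
    exact (hGd z hz j).differentiableAt.differentiableWithinAt
  have hS : ∀ z ∈ S, G z = f₀ z := by
    intro z hz
    funext j
    have hf0j : DifferentiableOn ℂ (fun w => f₀ w j) S := (differentiableOn_pi.1 hfd) j
    have hGj : DifferentiableOn ℂ (fun w => G w j) S := fun w hw =>
      (hGd w (hSb hw) j).differentiableAt.differentiableWithinAt
    have hd : DifferentiableOn ℂ (fun w => G w j - f₀ w j) S := hGj.sub hf0j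
    have hder : S.EqOn (deriv (fun w => G w j - f₀ w j)) 0 := by
      intro w hw
      have h1 : DifferentiableAt ℂ (fun w => f₀ w j) w :=
        (hf0j w hw).differentiableAt (hopen.mem_nhds hw)
      have h2 := (hGd w (hSb hw) j).sub h1.hasDerivAt
      have h3 : deriv (fun w => G w j - f₀ w j) w =
          deriv (fun w => P w j) w / Q w - deriv (fun w => f₀ w j) w := h2.deriv
      rw [h3, Pi.zero_apply, ← heq w hw j, mul_div_cancel_right₀ _ (hQ0 w (hSb hw)), sub_self]
    have h4 := hopen.is_const_of_deriv_eq_zero hconv.isPreconnected hd hder hz hz₀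
    have h5 : G z₀ j = f₀ z₀ j := by
      change g j z₀ + (f₀ z₀ j - g j z₀) = f₀ z₀ j
      ring
    simp only [h5, sub_self] at h4
    exact sub_eq_zero.1 h4
  refine ⟨G, hGdiff, ?_, ?_⟩
  · intro z hz j
    rw [(hGd z hz j).deriv, div_mul_cancel₀ _ (hQ0 z hz)]
  · intro z hz
    have hne : (𝓝[S] z).NeBot := mem_closure_iff_nhdsWithin_neBot.1 hz.1
    have hsub : S ⊆ closure S ∩ Metric.ball 0 ρ := fun w hw => ⟨subset_closure hw, hSb hw⟩
    have h1 : Tendsto f₀ (𝓝[S] z) (𝓝 (f₀ z)) := (hfc z hz).mono_left (nhdsWithin_mono _ hsub)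
    have h2 : Tendsto G (𝓝[S] z) (𝓝 (G z)) :=
      (hGdiff.continuousOn z hz.2).mono_left (nhdsWithin_mono _ hSb)
    have h3 : Tendsto f₀ (𝓝[S] z) (𝓝 (G z)) := by
      refine h2.congr' ?_
      filter_upwards [self_mem_nhdsWithin] with w hw
      exact hS w hw
    exact tendsto_nhds_unique h3 h1

end Pool.Agent.FBM
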