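import Pool.Agent.FBM.StmtE

/-!
# EQR: reflections across both axes (MP_947d36_gt, block E)
-/

open MeasureTheory Set Filter Topology
open scoped Real

namespace Pool.Agent.FBM

namespace EQR

/-- continuity from the two sides of a closed condition -/
theorem glue {g : ℂ → ℂ} {A : Set ℂ} {φ : ℂ → ℝ} (hφ : Continuous φ)
    (h1 : ContinuousOn g (A ∩ {w | 0 ≤ φ w})) (h2 : ContinuousOn g (A ∩ {w | φ w ≤ 0})) :
    ContinuousOn g A := by
  intro x hx
  have e : A = (A ∩ {w | 0 ≤ φ w}) ∪ (A ∩ {w | φ w ≤ 0}) := by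
    rw [← inter_union_distrib_left]
    refine Subset.antisymm (fun w hw => ⟨hw, ?_⟩) inter_subset_left
    exact (le_total 0 (φ w)).elim Or.inl Or.inr
  have c1 : ContinuousWithinAt g (A ∩ {w | 0 ≤ φ w}) x := by
    by_cases h : 0 ≤ φ x
    · exact h1 x ⟨hx, h⟩
    · apply continuousWithinAt_of_notMem_closure
      intro hc
      have h3 := closure_mono inter_subset_right hc
      rw [(isClosed_le continuous_const hφ).closure_eq] at h3
      exact h h3
  have c2 : ContinuousWithinAt g (A ∩ {w | φ w ≤ 0}) x := by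
    by_cases h : φ x ≤ 0
    · exact h2 x ⟨hx, h⟩
    · apply continuousWithinAt_of_notMem_closure
      intro hc
      have h3 := closure_mono inter_subset_right hc
      rw [(isClosed_le hφ continuous_const).closure_eq] at h3
      exact h h3
  rw [e]
  exact c1.union c2

/-- the reflected function -/
noncomputable def gg (σ τ : ℝ) (f : ℂ → ℂ) (w : ℂ) : ℂ :=
  if 0 ≤ w.im then (if 0 ≤ w.re then f w else τ * (starRingEnd ℂ) (f (-(starRingEnd ℂ) w)))
  else (if 0 ≤ w.re then σ * (starRingEnd ℂ) (f ((starRingEnd ℂ) w)) else σ * τ * f (-w))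

section

variable {ρ σ τ : ℝ} {f : ℂ → ℂ}

theorem sq_of {x : ℝ} (h : x = 1 ∨ x = -1) : (x : ℂ) * x = 1 := by
  rcases h with h | h <;> simp [h]

theorem ea (w : ℂ) (h1 : 0 ≤ w.re) (h2 : 0 ≤ w.im) : gg σ τ f w = f w := by
  rw [gg, if_pos h2, if_pos h1]

theorem eb (hI : ∀ w : ℂ, ‖w‖ < ρ → w.re = 0 → 0 ≤ w.im → f w = τ * (starRingEnd ℂ) (f w))
    (w : ℂ) (hw : ‖w‖ < ρ) (h1 : w.re ≤ 0) (h2 : 0 ≤ w.im) :
    gg σ τ f w = τ * (starRingEnd ℂ) (f (-(starRingEnd ℂ) w)) := by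
  rcases h1.lt_or_eq with h | h
  · rw [gg, if_pos h2, if_neg (not_le.2 h)]
  · have e : -(starRingEnd ℂ) w = w := Complex.ext (by simp [h]) (by simp)
    rw [ea w h.ge h2, e]
    exact hI w hw h h2

theorem ec (hR : ∀ w : ℂ, ‖w‖ < ρ → w.im = 0 → 0 ≤ w.re → f w = σ * (starRingEnd ℂ) (f w))
    (w : ℂ) (hw : ‖w‖ < ρ) (h1 : 0 ≤ w.re) (h2 : w.im ≤ 0) :
    gg σ τ f w = σ * (starRingEnd ℂ) (f ((starRingEnd ℂ) w)) := by
  rcases h2.lt_or_eq with h | h
  · rw [gg, if_neg (not_le.2 h), if_pos h1]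
  · have e : (starRingEnd ℂ) w = w := Complex.ext (by simp) (by simp [h])
    rw [ea w h1 h.ge, e]
    exact hR w hw h h1

theorem ed (hσ : (σ : ℂ) * σ = 1) (hτ : (τ : ℂ) * τ = 1)
    (hR : ∀ w : ℂ, ‖w‖ < ρ → w.im = 0 → 0 ≤ w.re → f w = σ * (starRingEnd ℂ) (f w))
    (hI : ∀ w : ℂ, ‖w‖ < ρ → w.re = 0 → 0 ≤ w.im → f w = τ * (starRingEnd ℂ) (f w))
    (w : ℂ) (hw : ‖w‖ < ρ) (h1 : w.re ≤ 0) (h2 : w.im ≤ 0) :
    gg σ τ f w = σ * τ * f (-w) := by
  rcases h2.lt_or_eq with h | h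
  · rcases h1.lt_or_eq with h' | h'
    · rw [gg, if_neg (not_le.2 h), if_neg (not_le.2 h')]
    · have e : (starRingEnd ℂ) w = -w := Complex.ext (by simp [h']) (by simp)
      rw [ec hR w hw h'.ge h2, e]
      have h3 := hI (-w) (by rwa [norm_neg]) (by simp [h']) (by simp [h.le])
      calc (σ : ℂ) * (starRingEnd ℂ) (f (-w)) = σ * ((τ * τ) * (starRingEnd ℂ) (f (-w))) := by
            rw [hτ, one_mul]
        _ = σ * τ * (τ * (starRingEnd ℂ) (f (-w))) := by ring
        _ = σ * τ * f (-w) := by rw [← h3]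
  · have e : -(starRingEnd ℂ) w = -w := by
      rw [Complex.ext_iff]
      constructor <;> simp [h]
    rw [eb hI w hw h1 h.ge, e]
    have h3 := hR (-w) (by rwa [norm_neg]) (by simp [h]) (by simp [h1])
    calc (τ : ℂ) * (starRingEnd ℂ) (f (-w)) = τ * ((σ * σ) * (starRingEnd ℂ) (f (-w))) := by
          rw [hσ, one_mul]
      _ = σ * τ * (σ * (starRingEnd ℂ) (f (-w))) := by ring
      _ = σ * τ * f (-w) := by rw [← h3]

theorem cont (hσ : (σ : ℂ) * σ = 1) (hτ : (τ : ℂ) * τ = 1)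
    (hf : ContinuousOn f {w | ‖w‖ < ρ ∧ 0 ≤ w.re ∧ 0 ≤ w.im})
    (hR : ∀ w : ℂ, ‖w‖ < ρ → w.im = 0 → 0 ≤ w.re → f w = σ * (starRingEnd ℂ) (f w))
    (hI : ∀ w : ℂ, ‖w‖ < ρ → w.re = 0 → 0 ≤ w.im → f w = τ * (starRingEnd ℂ) (f w)) :
    ContinuousOn (gg σ τ f) (Metric.ball 0 ρ) := by
  have hc := Complex.continuous_conj
  apply glue Complex.continuous_re
  · apply glue Complex.continuous_im
    · have h1 : ContinuousOn f (Metric.ball 0 ρ ∩ {w | 0 ≤ w.re} ∩ {w | 0 ≤ w.im}) :=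
        hf.mono fun w hw => ⟨mem_ball_zero_iff.1 hw.1.1, hw.1.2, hw.2⟩
      exact h1.congr fun w hw => ea w hw.1.2 hw.2
    · have h1 : ContinuousOn (fun w => (σ : ℂ) * (starRingEnd ℂ) (f ((starRingEnd ℂ) w)))
          (Metric.ball 0 ρ ∩ {w | 0 ≤ w.re} ∩ {w | w.im ≤ 0}) := by
        refine continuousOn_const.mul (hc.comp_continuousOn (hf.comp hc.continuousOn ?_))
        rintro w ⟨⟨hw1, hw2⟩, hw3⟩
        refine ⟨?_, ?_, ?_⟩
        · rw [RCLike.norm_conj]
          exact mem_ball_zero_iff.1 hw1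
        · rw [Complex.conj_re]
          exact hw2
        · rw [Complex.conj_im]
          exact neg_nonneg.2 hw3
      exact h1.congr fun w hw => ec hR w (mem_ball_zero_iff.1 hw.1.1) hw.1.2 hw.2
  · apply glue Complex.continuous_im
    · have h1 : ContinuousOn (fun w => (τ : ℂ) * (starRingEnd ℂ) (f (-(starRingEnd ℂ) w)))
          (Metric.ball 0 ρ ∩ {w | w.re ≤ 0} ∩ {w | 0 ≤ w.im}) := by
        refine continuousOn_const.mul (hc.comp_continuousOn (hf.comp hc.neg.continuousOn ?_))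
        rintro w ⟨⟨hw1, hw2⟩, hw3⟩
        refine ⟨?_, ?_, ?_⟩
        · rw [norm_neg, RCLike.norm_conj]
          exact mem_ball_zero_iff.1 hw1
        · rw [Complex.neg_re, Complex.conj_re]
          exact neg_nonneg.2 hw2
        · rw [Complex.neg_im, Complex.conj_im, neg_neg]
          exact hw3
      exact h1.congr fun w hw => eb hI w (mem_ball_zero_iff.1 hw.1.1) hw.1.2 hw.2
    · have h1 : ContinuousOn (fun w => (σ : ℂ) * τ * f (-w))
          (Metric.ball 0 ρ ∩ {w | w.re ≤ 0} ∩ {w | w.im ≤ 0}) := by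
        refine continuousOn_const.mul (hf.comp continuous_neg.continuousOn ?_)
        rintro w ⟨⟨hw1, hw2⟩, hw3⟩
        refine ⟨?_, ?_, ?_⟩
        · rw [norm_neg]
          exact mem_ball_zero_iff.1 hw1
        · rw [Complex.neg_re]
          exact neg_nonneg.2 hw2
        · rw [Complex.neg_im]
          exact neg_nonneg.2 hw3
      exact h1.congr fun w hw => ed hσ hτ hR hI w (mem_ball_zero_iff.1 hw.1.1) hw.1.2 hw.2

theorem diff (hf : DifferentiableOn ℂ f {w | ‖w‖ < ρ ∧ 0 < w.re ∧ 0 < w.im})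
    (w : ℂ) (hw : w ∈ Metric.ball (0 : ℂ) ρ) (h1 : w.im ≠ 0) (h2 : w.re ≠ 0) :
    DifferentiableAt ℂ (gg σ τ f) w := by
  have ho : IsOpen {w : ℂ | ‖w‖ < ρ ∧ 0 < w.re ∧ 0 < w.im} :=
    (isOpen_lt continuous_norm continuous_const).inter
      ((isOpen_lt continuous_const Complex.continuous_re).inter
        (isOpen_lt continuous_const Complex.continuous_im))
  have hf' : ∀ v : ℂ, ‖v‖ < ρ → 0 < v.re → 0 < v.im → DifferentiableAt ℂ f v :=
    fun v a b c => hf.differentiableAt (ho.mem_nhds ⟨a, b, c⟩)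
  have hw' : ‖w‖ < ρ := mem_ball_zero_iff.1 hw
  have hre : 0 < w.re → ∀ᶠ v : ℂ in 𝓝 w, 0 < v.re := fun h =>
    (isOpen_lt continuous_const Complex.continuous_re).mem_nhds h
  have hre' : w.re < 0 → ∀ᶠ v : ℂ in 𝓝 w, v.re < 0 := fun h =>
    (isOpen_lt Complex.continuous_re continuous_const).mem_nhds h
  have him : 0 < w.im → ∀ᶠ v : ℂ in 𝓝 w, 0 < v.im := fun h =>
    (isOpen_lt continuous_const Complex.continuous_im).mem_nhds h
  have him' : w.im < 0 → ∀ᶠ v : ℂ in 𝓝 w, v.im < 0 := fun h =>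
    (isOpen_lt Complex.continuous_im continuous_const).mem_nhds h
  rcases lt_or_gt_of_ne h1 with h1 | h1 <;> rcases lt_or_gt_of_ne h2 with h2 | h2
  · have h3 : DifferentiableAt ℂ (fun v : ℂ => (σ : ℂ) * τ * f (-v)) w := by
      have h4 : DifferentiableAt ℂ f (-w) :=
        hf' (-w) (by rwa [norm_neg]) (by simpa using h2) (by simpa using h1)
      exact (h4.comp w differentiableAt_id.neg).const_mul _
    refine h3.congr_of_eventuallyEq ?_
    filter_upwards [hre' h2, him' h1] with v a b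
    rw [gg, if_neg (not_le.2 b), if_neg (not_le.2 a)]
  · have h3 : DifferentiableAt ℂ
        (fun v : ℂ => (σ : ℂ) * (starRingEnd ℂ) (f ((starRingEnd ℂ) v))) w := by
      have h4 : DifferentiableAt ℂ f ((starRingEnd ℂ) w) :=
        hf' _ (by rwa [RCLike.norm_conj]) (by simpa using h2) (by simpa using h1)
      have h5 := differentiableAt_conj_conj_iff.2 h4
      exact h5.const_mul _
    refine h3.congr_of_eventuallyEq ?_
    filter_upwards [hre h2, him' h1] with v a b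
    rw [gg, if_neg (not_le.2 b), if_pos a.le]
  · have h3 : DifferentiableAt ℂ
        (fun v : ℂ => (τ : ℂ) * (starRingEnd ℂ) (f (-(starRingEnd ℂ) v))) w := by
      have h4 : DifferentiableAt ℂ f (-(starRingEnd ℂ) w) :=
        hf' _ (by rwa [norm_neg, RCLike.norm_conj]) (by simpa using h2) (by simpa using h1)
      have h6 : DifferentiableAt ℂ (fun v : ℂ => f (-v)) ((starRingEnd ℂ) w) :=
        h4.comp _ differentiableAt_id.neg
      have h5 := differentiableAt_conj_conj_iff.2 h6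
      exact h5.const_mul _
    refine h3.congr_of_eventuallyEq ?_
    filter_upwards [hre' h2, him h1] with v a b
    rw [gg, if_pos b.le, if_neg (not_le.2 a)]
  · refine (hf' w hw' h2 h1).congr_of_eventuallyEq ?_
    filter_upwards [hre h2, him h1] with v a b
    exact ea v a.le b.le

end

end EQR

theorem t_EQR (hGLQ : Stmt_GLQ) : Stmt_EQR := by
  intro ρ σ τ f hρ hσ' hτ' hf hfd hfR hfI
  have hσ := EQR.sq_of hσ'
  have hτ := EQR.sq_of hτ'
  have hR : ∀ w : ℂ, ‖w‖ < ρ → w.im = 0 → 0 ≤ w.re → f w = σ * (starRingEnd ℂ) (f w) := by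
    intro w hw h1 h2
    have e : ((w.re : ℝ) : ℂ) = w := Complex.ext (by simp) (by simp [h1])
    have h3 := hfR w.re h2 ((Complex.re_le_norm w).trans_lt hw)
    rwa [e] at h3
  have hI : ∀ w : ℂ, ‖w‖ < ρ → w.re = 0 → 0 ≤ w.im → f w = τ * (starRingEnd ℂ) (f w) := by
    intro w hw h1 h2
    have e : ((w.im : ℝ) : ℂ) * Complex.I = w := Complex.ext (by simp [h1]) (by simp)
    have h3 := hfI w.im h2 ((Complex.im_le_norm w).trans_lt hw)
    rwa [e] at h3
  have hcσ : (starRingEnd ℂ) (σ : ℂ) = σ := Complex.conj_ofReal σ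
  have hcτ : (starRingEnd ℂ) (τ : ℂ) = τ := Complex.conj_ofReal τ
  refine ⟨EQR.gg σ τ f, ?_, ?_, ?_, ?_⟩
  · exact hGLQ _ _ Metric.isOpen_ball (EQR.cont hσ hτ hf hR hI) fun z hz h1 h2 =>
      EQR.diff hfd z hz h1 h2
  · intro w _ h1 h2
    exact EQR.ea w h1 h2
  · intro w hw
    have hn : ‖(starRingEnd ℂ) w‖ < ρ := by rwa [RCLike.norm_conj]
    rcases le_total 0 w.re with h1 | h1 <;> rcases le_total 0 w.im with h2 | h2
    · rw [EQR.ec hR _ hn (by simpa using h1) (by simpa using h2), EQR.ea w h1 h2,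
        Complex.conj_conj]
    · rw [EQR.ea _ (by simpa using h1) (by simpa using h2), EQR.ec hR w hw h1 h2, map_mul,
        Complex.conj_conj, hcσ, ← mul_assoc, hσ, one_mul]
    · rw [EQR.ed hσ hτ hR hI _ hn (by simpa using h1) (by simpa using h2),
        EQR.eb hI w hw h1 h2, map_mul, Complex.conj_conj, hcτ, mul_assoc]
    · rw [EQR.eb hI _ hn (by simpa using h1) (by simpa using h2),
        EQR.ed hσ hτ hR hI w hw h1 h2, map_mul, map_mul, Complex.conj_conj, hcσ, hcτ]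
      calc (τ : ℂ) * (starRingEnd ℂ) (f (-w)) = (σ * σ) * τ * (starRingEnd ℂ) (f (-w)) := by
            rw [hσ, one_mul]
        _ = σ * (σ * τ * (starRingEnd ℂ) (f (-w))) := by ring
  · intro w hw
    have hn : ‖-(starRingEnd ℂ) w‖ < ρ := by rwa [norm_neg, RCLike.norm_conj]
    rcases le_total 0 w.re with h1 | h1 <;> rcases le_total 0 w.im with h2 | h2
    · rw [EQR.eb hI _ hn (by simpa using h1) (by simpa using h2), EQR.ea w h1 h2, map_neg,
        Complex.conj_conj, neg_neg]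
    · rw [EQR.ed hσ hτ hR hI _ hn (by simpa using h1) (by simpa using h2),
        EQR.ec hR w hw h1 h2, map_mul, Complex.conj_conj, hcσ, neg_neg]
      ring
    · rw [EQR.ea _ (by simpa using h1) (by simpa using h2), EQR.eb hI w hw h1 h2, map_mul,
        Complex.conj_conj, hcτ, ← mul_assoc, hτ, one_mul]
    · rw [EQR.ec hR _ hn (by simpa using h1) (by simpa using h2),
        EQR.ed hσ hτ hR hI w hw h1 h2, map_mul, map_mul, map_neg, Complex.conj_conj, hcσ, hcτ]
      calc (σ : ℂ) * (starRingEnd ℂ) (f (-w)) = (τ * τ) * σ * (starRingEnd ℂ) (f (-w)) := by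
            rw [hτ, one_mul]
        _ = τ * (σ * τ * (starRingEnd ℂ) (f (-w))) := by ring

end Pool.Agent.FBM
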