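import Pool.Agent.FBM.StmtE

/-!
# EQU: reflections across both axes, real and unimodular values
-/

open MeasureTheory Set Filter Topology
open scoped Real

namespace Pool.Agent.FBM

namespace EQU

/-- complex conjugation -/
noncomputable abbrev cj : ℂ → ℂ := fun w => (starRingEnd ℂ) w

/-- continuity on the union of two relatively closed pieces -/
theorem contOn_two {h : ℂ → ℂ} {U : Set ℂ} {p : ℂ → ℝ} (hp : Continuous p)
    (hA : ContinuousOn h (U ∩ {w | 0 ≤ p w})) (hB : ContinuousOn h (U ∩ {w | p w ≤ 0})) :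
    ContinuousOn h U := by
  intro w hw
  have hU : U ⊆ (U ∩ {w | 0 ≤ p w}) ∪ (U ∩ {w | p w ≤ 0}) := by
    intro v hv
    rcases le_total 0 (p v) with h1 | h1
    · exact Or.inl ⟨hv, h1⟩
    · exact Or.inr ⟨hv, h1⟩
  have cA : IsClosed {w : ℂ | 0 ≤ p w} := isClosed_le continuous_const hp
  have cB : IsClosed {w : ℂ | p w ≤ 0} := isClosed_le hp continuous_const
  refine ContinuousWithinAt.mono (continuousWithinAt_union.2 ⟨?_, ?_⟩) hU
  · by_cases h1 : 0 ≤ p w
    · exact hA w ⟨hw, h1⟩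
    · refine continuousWithinAt_of_notMem_closure fun h2 => h1 ?_
      exact closure_minimal inter_subset_right cA h2
  · by_cases h1 : p w ≤ 0
    · exact hB w ⟨hw, h1⟩
    · refine continuousWithinAt_of_notMem_closure fun h2 => h1 ?_
      exact closure_minimal inter_subset_right cB h2

/-- the function on the upper half disc -/
noncomputable def hh (f : ℂ → ℂ) (w : ℂ) : ℂ :=
  if 0 ≤ w.re then f w else ((starRingEnd ℂ) (f (-(starRingEnd ℂ) w)))⁻¹

/-- the function on the disc -/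
noncomputable def gg (f : ℂ → ℂ) (w : ℂ) : ℂ :=
  if 0 ≤ w.im then hh f w else (starRingEnd ℂ) (hh f ((starRingEnd ℂ) w))

theorem conj_re (w : ℂ) : ((starRingEnd ℂ) w).re = w.re := Complex.conj_re w
theorem conj_im (w : ℂ) : ((starRingEnd ℂ) w).im = -w.im := Complex.conj_im w

theorem nc_re (w : ℂ) : (-(starRingEnd ℂ) w).re = -w.re := by
  rw [Complex.neg_re, Complex.conj_re]

theorem nc_im (w : ℂ) : (-(starRingEnd ℂ) w).im = w.im := by
  rw [Complex.neg_im, Complex.conj_im, neg_neg]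

theorem nc_norm (w : ℂ) : ‖-(starRingEnd ℂ) w‖ = ‖w‖ := by
  rw [norm_neg, RCLike.norm_conj]

theorem nc_nc (w : ℂ) : -(starRingEnd ℂ) (-(starRingEnd ℂ) w) = w := by
  rw [map_neg, Complex.conj_conj, neg_neg]

variable {f : ℂ → ℂ} {ρ : ℝ}

/-- on the imaginary axis -/
theorem on_imag (h1 : ∀ x : ℝ, 0 ≤ x → x < ρ → ‖f (x * Complex.I)‖ = 1) {w : ℂ}
    (hw : ‖w‖ < ρ) (hr : w.re = 0) (hi : 0 ≤ w.im) : f w = ((starRingEnd ℂ) (f w))⁻¹ := by
  have e : w = (w.im : ℂ) * Complex.I := by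
    apply Complex.ext
    · simp [hr]
    · simp
  have hn : ‖w‖ = w.im := by
    rw [e, norm_mul, Complex.norm_I, mul_one, Complex.norm_real, Real.norm_eq_abs]
    simp [abs_of_nonneg hi]
  have h2 : ‖f w‖ = 1 := by
    rw [e]
    exact h1 _ hi (by rw [← hn]; exact hw)
  have h3 : f w * (starRingEnd ℂ) (f w) = 1 := by
    rw [Complex.mul_conj, Complex.normSq_eq_norm_sq, h2]
    norm_num
  exact eq_inv_of_mul_eq_one_left h3

theorem hh_nonneg {w : ℂ} (h : 0 ≤ w.re) : hh f w = f w := if_pos h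

theorem hh_neg {w : ℂ} (h : w.re < 0) :
    hh f w = ((starRingEnd ℂ) (f (-(starRingEnd ℂ) w)))⁻¹ := if_neg (not_le.2 h)

/-- symmetry of the function on the upper half disc -/
theorem hh_sym (h1 : ∀ x : ℝ, 0 ≤ x → x < ρ → ‖f (x * Complex.I)‖ = 1) {w : ℂ}
    (hw : ‖w‖ < ρ) (hi : 0 ≤ w.im) :
    hh f (-(starRingEnd ℂ) w) = ((starRingEnd ℂ) (hh f w))⁻¹ := by
  rcases lt_trichotomy w.re 0 with hr | hr | hr
  · rw [hh_nonneg (by rw [nc_re]; linarith), hh_neg hr, map_inv₀, Complex.conj_conj, inv_inv]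
  · have e : -(starRingEnd ℂ) w = w := by
      apply Complex.ext
      · rw [nc_re, hr, neg_zero]
      · rw [nc_im]
    rw [e, hh_nonneg hr.ge]
    exact on_imag h1 hw hr hi
  · rw [hh_neg (by rw [nc_re]; linarith), nc_nc, hh_nonneg hr.le]

theorem hh_ne (h0 : ∀ w : ℂ, ‖w‖ < ρ → 0 ≤ w.re → 0 ≤ w.im → f w ≠ 0) {w : ℂ}
    (hw : ‖w‖ < ρ) (hi : 0 ≤ w.im) : hh f w ≠ 0 := by
  rcases le_or_gt 0 w.re with hr | hr
  · rw [hh_nonneg hr]
    exact h0 w hw hr hi
  · rw [hh_neg hr]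
    refine inv_ne_zero ((map_ne_zero _).2 (h0 _ ?_ ?_ ?_))
    · rw [nc_norm]
      exact hw
    · rw [nc_re]
      linarith
    · rw [nc_im]
      exact hi

/-- on the real axis -/
theorem hh_real (h1 : ∀ x : ℝ, 0 ≤ x → x < ρ → f x = (starRingEnd ℂ) (f x)) {w : ℂ}
    (hw : ‖w‖ < ρ) (hi : w.im = 0) : hh f w = (starRingEnd ℂ) (hh f w) := by
  have e : w = (w.re : ℂ) := by
    apply Complex.ext
    · simp
    · simp [hi]
  have hn : ‖w‖ = |w.re| := by
    rw [e, Complex.norm_real, Real.norm_eq_abs]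
    simp
  rcases le_or_gt 0 w.re with hr | hr
  · rw [hh_nonneg hr]
    have h2 := h1 w.re hr (by rw [hn, abs_of_nonneg hr] at hw; exact hw)
    rwa [← e] at h2
  · have e2 : -(starRingEnd ℂ) w = ((-w.re : ℝ) : ℂ) := by
      rw [e, Complex.conj_ofReal]
      simp
    have h2 := h1 (-w.re) (by linarith) (by rw [hn, abs_of_neg hr] at hw; exact hw)
    rw [hh_neg hr, e2, ← h2, map_inv₀, ← h2]

theorem gg_nonneg {w : ℂ} (h : 0 ≤ w.im) : gg f w = hh f w := if_pos h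

theorem gg_neg {w : ℂ} (h : w.im < 0) :
    gg f w = (starRingEnd ℂ) (hh f ((starRingEnd ℂ) w)) := if_neg (not_le.2 h)

theorem gg_nonpos (h1 : ∀ x : ℝ, 0 ≤ x → x < ρ → f x = (starRingEnd ℂ) (f x)) {w : ℂ}
    (hw : ‖w‖ < ρ) (h : w.im ≤ 0) : gg f w = (starRingEnd ℂ) (hh f ((starRingEnd ℂ) w)) := by
  rcases h.lt_or_eq with h | h
  · exact gg_neg h
  · have e : (starRingEnd ℂ) w = w := by
      apply Complex.ext
      · rw [Complex.conj_re]
      · rw [Complex.conj_im, h, neg_zero]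
    rw [gg_nonneg h.ge, e]
    exact hh_real h1 hw h

theorem gg_conj (h1 : ∀ x : ℝ, 0 ≤ x → x < ρ → f x = (starRingEnd ℂ) (f x)) {w : ℂ}
    (hw : ‖w‖ < ρ) : gg f ((starRingEnd ℂ) w) = (starRingEnd ℂ) (gg f w) := by
  have hw' : ‖(starRingEnd ℂ) w‖ < ρ := by
    rw [RCLike.norm_conj]
    exact hw
  rcases le_total 0 w.im with h | h
  · rw [gg_nonneg h, gg_nonpos h1 hw' (by rw [Complex.conj_im]; linarith), Complex.conj_conj]
  · rw [gg_nonpos h1 hw h, Complex.conj_conj, gg_nonneg (by rw [Complex.conj_im]; linarith)]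

theorem gg_sym (h1 : ∀ x : ℝ, 0 ≤ x → x < ρ → f x = (starRingEnd ℂ) (f x))
    (h2 : ∀ x : ℝ, 0 ≤ x → x < ρ → ‖f (x * Complex.I)‖ = 1) {w : ℂ}
    (hw : ‖w‖ < ρ) : gg f (-(starRingEnd ℂ) w) = ((starRingEnd ℂ) (gg f w))⁻¹ := by
  rcases le_total 0 w.im with h | h
  · rw [gg_nonneg (by rw [nc_im]; exact h), gg_nonneg h]
    exact hh_sym h2 hw h
  · have hw' : ‖(starRingEnd ℂ) w‖ < ρ := by
      rw [RCLike.norm_conj]
      exact hw
    have e : (starRingEnd ℂ) (-(starRingEnd ℂ) w) = -(starRingEnd ℂ) ((starRingEnd ℂ) w) := by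
      rw [map_neg]
    rw [gg_nonpos h1 (by rw [nc_norm]; exact hw) (by rw [nc_im]; exact h), gg_nonpos h1 hw h, e,
      hh_sym h2 hw' (by rw [Complex.conj_im]; linarith), map_inv₀]

theorem gg_ne (h0 : ∀ w : ℂ, ‖w‖ < ρ → 0 ≤ w.re → 0 ≤ w.im → f w ≠ 0)
    (h1 : ∀ x : ℝ, 0 ≤ x → x < ρ → f x = (starRingEnd ℂ) (f x)) {w : ℂ}
    (hw : ‖w‖ < ρ) : gg f w ≠ 0 := by
  rcases le_total 0 w.im with h | h
  · rw [gg_nonneg h]
    exact hh_ne h0 hw h
  · rw [gg_nonpos h1 hw h]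
    refine (map_ne_zero _).2 (hh_ne h0 ?_ ?_)
    · rw [RCLike.norm_conj]
      exact hw
    · rw [Complex.conj_im]
      linarith

/-- continuity on the upper half disc -/
theorem hh_cont (hc : ContinuousOn f {w | ‖w‖ < ρ ∧ 0 ≤ w.re ∧ 0 ≤ w.im})
    (h0 : ∀ w : ℂ, ‖w‖ < ρ → 0 ≤ w.re → 0 ≤ w.im → f w ≠ 0)
    (h2 : ∀ x : ℝ, 0 ≤ x → x < ρ → ‖f (x * Complex.I)‖ = 1) :
    ContinuousOn (hh f) {w | ‖w‖ < ρ ∧ 0 ≤ w.im} := by
  refine contOn_two Complex.continuous_re ?_ ?_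
  · refine ContinuousOn.congr (f := f) ?_ fun w hw => hh_nonneg hw.2
    exact hc.mono fun w hw => ⟨hw.1.1, hw.2, hw.1.2⟩
  · refine ContinuousOn.congr
      (f := fun w => ((starRingEnd ℂ) (f (-(starRingEnd ℂ) w)))⁻¹) ?_ fun w hw => ?_
    · have hm : MapsTo (fun w : ℂ => -(starRingEnd ℂ) w)
          ({w | ‖w‖ < ρ ∧ 0 ≤ w.im} ∩ {w | w.re ≤ 0})
          {w | ‖w‖ < ρ ∧ 0 ≤ w.re ∧ 0 ≤ w.im} := by
        intro w hw
        refine ⟨?_, ?_, ?_⟩
        · change ‖-(starRingEnd ℂ) w‖ < ρ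
          rw [nc_norm]
          exact hw.1.1
        · change 0 ≤ (-(starRingEnd ℂ) w).re
          rw [nc_re]
          have := hw.2
          change w.re ≤ 0 at this
          linarith
        · change 0 ≤ (-(starRingEnd ℂ) w).im
          rw [nc_im]
          exact hw.1.2
      have hc1 : ContinuousOn (fun w : ℂ => f (-(starRingEnd ℂ) w))
          ({w | ‖w‖ < ρ ∧ 0 ≤ w.im} ∩ {w | w.re ≤ 0}) :=
        hc.comp (Complex.continuous_conj.neg.continuousOn) hm
      refine (Complex.continuous_conj.comp_continuousOn hc1).inv₀ fun w hw => ?_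
      have := hm hw
      exact (map_ne_zero _).2 (h0 _ this.1 this.2.1 this.2.2)
    · change hh f w = ((starRingEnd ℂ) (f (-(starRingEnd ℂ) w)))⁻¹
      rcases (show w.re ≤ 0 from hw.2).lt_or_eq with h | h
      · exact hh_neg h
      · have e : -(starRingEnd ℂ) w = w := by
          apply Complex.ext
          · rw [nc_re, h, neg_zero]
          · rw [nc_im]
        rw [hh_nonneg h.ge, e]
        exact on_imag h2 hw.1.1 h hw.1.2

theorem gg_cont (hc : ContinuousOn f {w | ‖w‖ < ρ ∧ 0 ≤ w.re ∧ 0 ≤ w.im})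
    (h0 : ∀ w : ℂ, ‖w‖ < ρ → 0 ≤ w.re → 0 ≤ w.im → f w ≠ 0)
    (h1 : ∀ x : ℝ, 0 ≤ x → x < ρ → f x = (starRingEnd ℂ) (f x))
    (h2 : ∀ x : ℝ, 0 ≤ x → x < ρ → ‖f (x * Complex.I)‖ = 1) :
    ContinuousOn (gg f) (Metric.ball 0 ρ) := by
  have hh1 := hh_cont hc h0 h2
  refine contOn_two Complex.continuous_im ?_ ?_
  · refine ContinuousOn.congr (f := hh f) ?_ fun w hw => gg_nonneg hw.2
    exact hh1.mono fun w hw => ⟨mem_ball_zero_iff.1 hw.1, hw.2⟩
  · refine ContinuousOn.congr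
      (f := fun w => (starRingEnd ℂ) (hh f ((starRingEnd ℂ) w))) ?_ fun w hw => ?_
    · have hm : MapsTo (fun w : ℂ => (starRingEnd ℂ) w)
          (Metric.ball 0 ρ ∩ {w | w.im ≤ 0}) {w | ‖w‖ < ρ ∧ 0 ≤ w.im} := by
        intro w hw
        refine ⟨?_, ?_⟩
        · change ‖(starRingEnd ℂ) w‖ < ρ
          rw [RCLike.norm_conj]
          exact mem_ball_zero_iff.1 hw.1
        · change 0 ≤ ((starRingEnd ℂ) w).im
          rw [Complex.conj_im]
          have := hw.2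
          change w.im ≤ 0 at this
          linarith
      exact Complex.continuous_conj.comp_continuousOn
        (hh1.comp Complex.continuous_conj.continuousOn hm)
    · exact gg_nonpos h1 (mem_ball_zero_iff.1 hw.1) hw.2

/-- differentiability in the open first quadrant -/
theorem gg_diff1 (hd : DifferentiableOn ℂ f {w | ‖w‖ < ρ ∧ 0 < w.re ∧ 0 < w.im}) {z : ℂ}
    (hz : ‖z‖ < ρ) (hr : 0 < z.re) (hi : 0 < z.im) : DifferentiableAt ℂ (gg f) z := by
  have ho : IsOpen {w : ℂ | ‖w‖ < ρ ∧ 0 < w.re ∧ 0 < w.im} :=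
    (isOpen_lt continuous_norm continuous_const).inter
      ((isOpen_lt continuous_const Complex.continuous_re).inter
        (isOpen_lt continuous_const Complex.continuous_im))
  have hn : {w : ℂ | ‖w‖ < ρ ∧ 0 < w.re ∧ 0 < w.im} ∈ 𝓝 z := ho.mem_nhds ⟨hz, hr, hi⟩
  have h1 : DifferentiableAt ℂ f z := hd.differentiableAt hn
  refine h1.congr_of_eventuallyEq ?_
  filter_upwards [hn] with w hw
  rw [gg_nonneg hw.2.2.le, hh_nonneg hw.2.1.le]

theorem ball_nhds {z : ℂ} (hz : ‖z‖ < ρ) : {w : ℂ | ‖w‖ < ρ} ∈ 𝓝 z :=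
  (isOpen_lt continuous_norm continuous_const).mem_nhds hz

/-- reflection in the real axis preserves differentiability -/
theorem diff_conj (h1 : ∀ x : ℝ, 0 ≤ x → x < ρ → f x = (starRingEnd ℂ) (f x)) {z : ℂ}
    (hz : ‖z‖ < ρ) (hd : DifferentiableAt ℂ (gg f) ((starRingEnd ℂ) z)) :
    DifferentiableAt ℂ (gg f) z := by
  have h := hd.conj_conj
  rw [Complex.conj_conj] at h
  refine h.congr_of_eventuallyEq ?_
  filter_upwards [ball_nhds hz] with w hw
  have h2 := gg_conj h1 hw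
  change gg f w = (starRingEnd ℂ) (gg f ((starRingEnd ℂ) w))
  rw [h2, Complex.conj_conj]

/-- reflection in the imaginary axis preserves differentiability -/
theorem diff_nc (h0 : ∀ w : ℂ, ‖w‖ < ρ → 0 ≤ w.re → 0 ≤ w.im → f w ≠ 0)
    (h1 : ∀ x : ℝ, 0 ≤ x → x < ρ → f x = (starRingEnd ℂ) (f x))
    (h2 : ∀ x : ℝ, 0 ≤ x → x < ρ → ‖f (x * Complex.I)‖ = 1) {z : ℂ}
    (hz : ‖z‖ < ρ) (hd : DifferentiableAt ℂ (gg f) (-(starRingEnd ℂ) z)) :
    DifferentiableAt ℂ (gg f) z := by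
  have e : -(starRingEnd ℂ) z = (starRingEnd ℂ) (-z) := by rw [map_neg]
  have hd' := hd
  rw [e] at hd'
  have h := hd'.conj_conj
  rw [Complex.conj_conj] at h
  have h3 : DifferentiableAt ℂ
      (fun w => ((starRingEnd ℂ) ∘ gg f ∘ (starRingEnd ℂ)) (-w)) z :=
    DifferentiableAt.comp (g := (starRingEnd ℂ) ∘ gg f ∘ (starRingEnd ℂ)) z h
      differentiableAt_id.neg
  have h4 : ((starRingEnd ℂ) ∘ gg f ∘ (starRingEnd ℂ)) (-z) ≠ 0 := by
    refine (map_ne_zero _).2 (gg_ne h0 h1 ?_)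
    rw [RCLike.norm_conj, norm_neg]
    exact hz
  refine (h3.inv h4).congr_of_eventuallyEq ?_
  filter_upwards [ball_nhds hz] with w hw
  have h5 := gg_sym h1 h2 hw
  change gg f w = ((starRingEnd ℂ) (gg f ((starRingEnd ℂ) (-w))))⁻¹
  rw [map_neg, h5, map_inv₀, Complex.conj_conj, inv_inv]

end EQU

open EQU in
/-- EQU: reflections across both axes, real values on the real axis and values on the unit circle
on the imaginary axis. -/
theorem t_EQU (hGLQ : Stmt_GLQ) : Stmt_EQU := by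
  intro ρ f _ hc hd h0 h1 h2
  refine ⟨gg f, ?_, ?_, ?_, ?_, ?_⟩
  · refine hGLQ (gg f) (Metric.ball 0 ρ) Metric.isOpen_ball (gg_cont hc h0 h1 h2) ?_
    intro z hz hi hr
    have hz' : ‖z‖ < ρ := mem_ball_zero_iff.1 hz
    have up : ∀ w : ℂ, ‖w‖ < ρ → 0 < w.im → w.re ≠ 0 → DifferentiableAt ℂ (gg f) w := by
      intro w hw hi hr
      rcases lt_or_gt_of_ne hr with h | h
      · refine diff_nc h0 h1 h2 hw (gg_diff1 hd ?_ ?_ ?_)
        · rw [nc_norm]
          exact hw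
        · rw [nc_re]
          linarith
        · rw [nc_im]
          exact hi
      · exact gg_diff1 hd hw h hi
    rcases lt_or_gt_of_ne hi with h | h
    · refine diff_conj h1 hz' (up _ ?_ ?_ ?_)
      · rw [RCLike.norm_conj]
        exact hz'
      · rw [Complex.conj_im]
        linarith
      · rw [Complex.conj_re]
        exact hr
    · exact up z hz' h hr
  · intro w _ hr hi
    rw [gg_nonneg hi, hh_nonneg hr]
  · intro w hw
    exact gg_ne h0 h1 hw
  · intro w hw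
    exact gg_conj h1 hw
  · intro w hw
    exact gg_sym h1 h2 hw

end Pool.Agent.FBM
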