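import Pool.Agent.FBM.StmtE

/-!
# ERG: the regularity of block D for triples
-/

open MeasureTheory Set Filter Topology
open scoped Real

namespace Pool.Agent.FBM

namespace ERG

theorem norm_ep {r t : ℝ} (hr : 0 ≤ r) : ‖ep r t‖ = r := by
  rw [ep, norm_mul, Complex.norm_exp_ofReal_mul_I, mul_one, Complex.norm_real, Real.norm_eq_abs,
    abs_of_nonneg hr]

theorem cont_ep (r : ℝ) : Continuous fun t : ℝ => ep r t := by
  unfold ep
  fun_prop

theorem mem_ball {r t : ℝ} (h0 : 0 < r) (h1 : r < 1) : ep r t ∈ Metric.ball (0 : ℂ) 1 := by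
  rw [mem_ball_zero_iff, norm_ep h0.le]
  exact h1

/-- Continuous functions are integrable over a period. -/
theorem int_cont {E : Type} [NormedAddCommGroup E] {g : ℝ → E} (hg : Continuous g) :
    Integrable g cm :=
  (hg.integrableOn_Icc (a := -π) (b := π)).mono_set Ioc_subset_Icc_self

theorem cont_deriv {F : ℂ → ℂ} (hF : DifferentiableOn ℂ F (Metric.ball 0 1)) {r : ℝ}
    (h0 : 0 < r) (h1 : r < 1) : Continuous fun t : ℝ => deriv F (ep r t) := by
  have h2 : DifferentiableOn ℂ (deriv F) (Metric.ball 0 1) := hF.deriv Metric.isOpen_ball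
  exact h2.continuousOn.comp_continuous (cont_ep r) fun t => mem_ball h0 h1

/-- Periodic functions integrable over one period are integrable over all intervals. -/
theorem int_all {E : Type} [NormedAddCommGroup E] {g : ℝ → E} (hp : Function.Periodic g (2 * π))
    (hg : Integrable g cm) (a b : ℝ) : IntervalIntegrable g volume a b := by
  have h1 : IntervalIntegrable g volume (-π) (-π + 2 * π) := by
    rw [intervalIntegrable_iff_integrableOn_Ioc_of_le (by linarith [Real.pi_pos])]
    have e : -π + 2 * π = π := by ring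
    rw [e]
    exact hg
  exact hp.intervalIntegrable Real.two_pi_pos.ne' h1 a b

end ERG

open ERG in
/-- ERG: the regularity of block D for triples. -/
theorem t_ERG : Stmt_ERG := by
  intro X f h
  have hper : Function.Periodic (fun t (i : Fin 3) => f i t) (2 * π) := fun t =>
    funext fun i => (h i).per t
  have hint : Integrable (fun t (i : Fin 3) => f i t) cm := Integrable.of_eval fun i => (h i).int
  refine ⟨continuousOn_pi.2 fun i => (h i).cont, differentiableOn_pi.2 fun i => (h i).diff,
    ⟨hper, hint, ?_⟩, fun s t => ?_⟩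
  · have hsum : Tendsto (fun r : ℝ => ∑ i : Fin 3,
        ∫ t, ‖Complex.I * ep r t * deriv (Fx (X i)) (ep r t) - f i t‖ ∂cm) (𝓝[<] 1) (𝓝 0) := by
      have h1 := tendsto_finsetSum (Finset.univ : Finset (Fin 3)) fun i _ => (h i).lim
      simpa using h1
    have hev : ∀ᶠ r : ℝ in 𝓝[<] 1, 0 < r ∧ r < 1 :=
      (eventually_nhdsWithin_of_eventually_nhds (lt_mem_nhds one_pos)).and
        (eventually_mem_nhdsWithin.mono fun r hr => hr)
    refine squeeze_zero' (Eventually.of_forall fun r => integral_nonneg fun t => norm_nonneg _)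
      (hev.mono fun r hr => ?_) hsum
    have hi : ∀ i : Fin 3, Integrable
        (fun t => ‖Complex.I * ep r t * deriv (Fx (X i)) (ep r t) - f i t‖) cm := by
      intro i
      refine (Integrable.sub (int_cont ?_) (h i).int).norm
      exact (continuous_const.mul (cont_ep r)).mul (cont_deriv (h i).diff hr.1 hr.2)
    rw [← integral_finsetSum _ fun i _ => hi i]
    refine integral_mono_of_nonneg (Eventually.of_forall fun t => norm_nonneg _)
      (integrable_finsetSum _ fun i _ => hi i) (Eventually.of_forall fun t => ?_)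
    have hd : deriv (fun z (i : Fin 3) => Fx (X i) z) (ep r t) =
        fun i => deriv (Fx (X i)) (ep r t) := by
      rw [deriv_pi]
      exact fun i => (h i).diff.differentiableAt (Metric.isOpen_ball.mem_nhds
        (mem_ball hr.1 hr.2))
    change ‖(Complex.I * ep r t) • deriv (fun z (i : Fin 3) => Fx (X i) z) (ep r t) -
      fun i => f i t‖ ≤ ∑ i, ‖Complex.I * ep r t * deriv (Fx (X i)) (ep r t) - f i t‖
    rw [hd]
    refine (pi_norm_le_iff_of_nonneg (Finset.sum_nonneg fun i _ => norm_nonneg _)).2 fun j => ?_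
    exact Finset.single_le_sum (f := fun i : Fin 3 =>
      ‖Complex.I * ep r t * deriv (Fx (X i)) (ep r t) - f i t‖)
      (fun i _ => norm_nonneg _) (Finset.mem_univ j)
  · funext i
    have h1 := (ContinuousLinearMap.proj (R := ℂ) (φ := fun _ : Fin 3 => ℂ) i).intervalIntegral_comp_comm
      (int_all hper hint s t)
    change Fx (X i) (ep 1 t) - Fx (X i) (ep 1 s) =
      (ContinuousLinearMap.proj (R := ℂ) (φ := fun _ : Fin 3 => ℂ) i) (∫ u in s..t, fun i => f i u)
    rw [← h1, (h i).ftc]
    rfl

end Pool.Agent.FBM
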