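import Pool.Agent.FBM.StmtE

/-! FBM, block E: reflection across the real axis. -/

open MeasureTheory Set Filter Topology
open scoped Real

namespace Pool.Agent.FBM

namespace ERR

/-- the reflected function -/
noncomputable def rfn (σ : ℝ) (f : ℂ → ℂ) (w : ℂ) : ℂ :=
  σ * (starRingEnd ℂ) (f ((starRingEnd ℂ) w))

open Classical in
/-- the extension -/
noncomputable def exn (σ : ℝ) (f : ℂ → ℂ) (w : ℂ) : ℂ := if 0 ≤ w.im then f w else rfn σ f w

theorem exn_up {σ : ℝ} {f : ℂ → ℂ} {w : ℂ} (h : 0 ≤ w.im) : exn σ f w = f w := if_pos h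

theorem exn_lo {σ : ℝ} {f : ℂ → ℂ} {w : ℂ} (h : w.im < 0) : exn σ f w = rfn σ f w :=
  if_neg (not_le.2 h)

end ERR

open ERR in
theorem t_ERR (hGLU : Stmt_GLU) : Stmt_ERR := by
  intro ρ σ f hρ hσ hc hd hr
  have hσ2 : (σ : ℂ) * σ = 1 := by
    rcases hσ with h | h <;> rw [h] <;> norm_num
  have hreal : ∀ w : ℂ, ‖w‖ < ρ → w.im = 0 → f w = rfn σ f w := by
    intro w hw hi
    have h1 : w = (w.re : ℂ) := by
      apply Complex.ext <;> simp [hi]
    have h2 : |w.re| < ρ := (Complex.abs_re_le_norm w).trans_lt hw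
    have h3 := hr w.re h2
    unfold rfn
    rw [h1, Complex.conj_ofReal]
    exact h3
  have hopen : IsOpen {w : ℂ | ‖w‖ < ρ ∧ 0 < w.im} :=
    (isOpen_lt continuous_norm continuous_const).inter
      (isOpen_lt continuous_const Complex.continuous_im)
  have hcont : ContinuousOn (exn σ f) (Metric.ball 0 ρ) := by
    unfold exn
    apply ContinuousOn.if
    · intro a ha
      have h1 : a.im = 0 := by
        have h2 := ha.2
        rw [Complex.frontier_setOfPred_le_im] at h2
        exact h2
      exact hreal a (mem_ball_zero_iff.1 ha.1) h1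
    · refine hc.mono ?_
      rintro a ⟨ha, hb⟩
      rw [IsClosed.closure_eq (isClosed_le continuous_const Complex.continuous_im)] at hb
      exact ⟨mem_ball_zero_iff.1 ha, hb⟩
    · have h1 : ContinuousOn (fun w : ℂ => f ((starRingEnd ℂ) w)) {w : ℂ | ‖w‖ < ρ ∧ w.im ≤ 0} := by
        refine hc.comp (Complex.continuous_conj.continuousOn) ?_
        rintro w ⟨hw, hi⟩
        refine ⟨?_, ?_⟩
        · rw [Complex.norm_conj]
          exact hw
        · rw [Complex.conj_im]
          linarith
      have h2 : ContinuousOn (rfn σ f) {w : ℂ | ‖w‖ < ρ ∧ w.im ≤ 0} := by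
        unfold rfn
        exact continuousOn_const.mul (Complex.continuous_conj.comp_continuousOn h1)
      refine h2.mono ?_
      rintro a ⟨ha, hb⟩
      refine ⟨mem_ball_zero_iff.1 ha, ?_⟩
      have h3 : closure {a : ℂ | ¬ 0 ≤ a.im} ⊆ {a : ℂ | a.im ≤ 0} := by
        apply closure_minimal
        · intro b hb
          exact (not_le.1 hb).le
        · exact isClosed_le Complex.continuous_im continuous_const
      exact h3 hb
  have hdiff : ∀ z ∈ Metric.ball (0 : ℂ) ρ, z.im ≠ 0 → DifferentiableAt ℂ (exn σ f) z := by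
    intro z hz hi
    rw [mem_ball_zero_iff] at hz
    rcases lt_or_gt_of_ne hi with h | h
    · have h1 : DifferentiableAt ℂ f ((starRingEnd ℂ) z) := by
        refine hd.differentiableAt (hopen.mem_nhds ⟨?_, ?_⟩)
        · rw [Complex.norm_conj]
          exact hz
        · rw [Complex.conj_im]
          linarith
      have h2 := h1.conj_conj
      rw [Complex.conj_conj] at h2
      have h3 : DifferentiableAt ℂ (rfn σ f) z := by
        exact h2.const_mul (σ : ℂ)
      refine h3.congr_of_eventuallyEq ?_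
      have h4 : ∀ᶠ w in 𝓝 z, w.im < 0 :=
        (isOpen_lt Complex.continuous_im continuous_const).mem_nhds h
      filter_upwards [h4] with w hw
      exact exn_lo hw
    · have h1 : DifferentiableAt ℂ f z := hd.differentiableAt (hopen.mem_nhds ⟨hz, h⟩)
      refine h1.congr_of_eventuallyEq ?_
      have h4 : ∀ᶠ w : ℂ in 𝓝 z, 0 < w.im :=
        (isOpen_lt continuous_const Complex.continuous_im).mem_nhds h
      filter_upwards [h4] with w hw
      exact exn_up hw.le
  refine ⟨exn σ f, hGLU (exn σ f) (Metric.ball 0 ρ) Metric.isOpen_ball hcont hdiff,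
    fun w _ hi => exn_up hi, ?_⟩
  intro w hw
  rcases lt_trichotomy w.im 0 with h | h | h
  · rw [exn_lo h, exn_up (by rw [Complex.conj_im]; linarith)]
    unfold rfn
    rw [map_mul, Complex.conj_conj, Complex.conj_ofReal, ← mul_assoc, hσ2, one_mul]
  · have h1 : (starRingEnd ℂ) w = w := Complex.conj_eq_iff_im.2 h
    rw [h1, exn_up h.ge]
    have h2 := hreal w hw h
    unfold rfn at h2
    rw [h1] at h2
    exact h2
  · rw [exn_up h.le, exn_lo (by rw [Complex.conj_im]; linarith)]
    unfold rfn
    rw [Complex.conj_conj]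

end Pool.Agent.FBM
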