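import Pool.Agent.FBM.StmtE

/-!
# ERU: reflection across the real axis, values on the unit circle
-/

open MeasureTheory Set Filter Topology
open scoped Real

namespace Pool.Agent.FBM

namespace ERU

open Classical in
/-- the reflected function -/
noncomputable def gg (f : ℂ → ℂ) (w : ℂ) : ℂ :=
  if 0 ≤ w.im then f w else ((starRingEnd ℂ) (f ((starRingEnd ℂ) w)))⁻¹

theorem gg_pos (f : ℂ → ℂ) {w : ℂ} (h : 0 ≤ w.im) : gg f w = f w := by
  unfold gg
  rw [if_pos h]

theorem gg_neg (f : ℂ → ℂ) {w : ℂ} (h : w.im < 0) :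
    gg f w = ((starRingEnd ℂ) (f ((starRingEnd ℂ) w)))⁻¹ := by
  unfold gg
  rw [if_neg (not_le.2 h)]

theorem conj_inv {f : ℂ → ℂ} {w : ℂ} (hn : ‖f w‖ = 1) : ((starRingEnd ℂ) (f w))⁻¹ = f w := by
  have h : f w * (starRingEnd ℂ) (f w) = 1 := by
    rw [Complex.mul_conj, Complex.normSq_eq_norm_sq, hn]
    norm_num
  exact inv_eq_of_mul_eq_one_left h

end ERU

theorem t_ERU (hGLU : Stmt_GLU) : Stmt_ERU := by
  intro ρ f hρ hc hd hne h1
  have hreal : ∀ w : ℂ, ‖w‖ < ρ → w.im = 0 → ((starRingEnd ℂ) (f w))⁻¹ = f w := by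
    intro w hw him
    have hw' : w = (w.re : ℂ) := by
      apply Complex.ext <;> simp [him]
    refine ERU.conj_inv ?_
    rw [hw']
    refine h1 w.re ?_
    have h2 : ‖(w.re : ℂ)‖ < ρ := by rw [← hw']; exact hw
    rwa [Complex.norm_real, Real.norm_eq_abs] at h2
  have hnorm : ∀ w : ℂ, ‖(starRingEnd ℂ) w‖ = ‖w‖ := fun w => Complex.norm_conj w
  refine ⟨ERU.gg f, ?_, fun w _ h => ERU.gg_pos f h, ?_, ?_⟩
  · refine hGLU (ERU.gg f) (Metric.ball 0 ρ) Metric.isOpen_ball ?_ ?_
    · unfold ERU.gg
      refine ContinuousOn.if ?_ ?_ ?_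
      · rintro w ⟨hw, hfr⟩
        rw [Complex.frontier_setOfPred_le_im] at hfr
        have him : w.im = 0 := hfr
        have hcw : (starRingEnd ℂ) w = w := Complex.conj_eq_iff_im.2 him
        rw [hcw]
        exact (hreal w (by simpa using hw) him).symm
      · refine hc.mono ?_
        rintro w ⟨hw, hcl⟩
        have hclosed : IsClosed {w : ℂ | 0 ≤ w.im} :=
          isClosed_le continuous_const Complex.continuous_im
        rw [hclosed.closure_eq] at hcl
        exact ⟨by simpa using hw, hcl⟩
      · have hsub : (Metric.ball (0 : ℂ) ρ ∩ closure {a : ℂ | ¬ 0 ≤ a.im}) ⊆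
            {w | ‖w‖ < ρ ∧ w.im ≤ 0} := by
          rintro w ⟨hw, hcl⟩
          have hclosed : IsClosed {w : ℂ | w.im ≤ 0} :=
            isClosed_le Complex.continuous_im continuous_const
          have h3 : closure {a : ℂ | ¬ 0 ≤ a.im} ⊆ {w : ℂ | w.im ≤ 0} :=
            hclosed.closure_subset_iff.2 fun a ha => (not_le.1 ha).le
          exact ⟨by simpa using hw, h3 hcl⟩
        refine ContinuousOn.mono ?_ hsub
        refine ContinuousOn.inv₀ ?_ ?_
        · refine Complex.continuous_conj.comp_continuousOn ?_
          refine hc.comp Complex.continuous_conj.continuousOn ?_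
          intro w hw
          refine ⟨by rw [hnorm]; exact hw.1, ?_⟩
          rw [Complex.conj_im]
          have := hw.2
          linarith
        · intro w hw
          have h4 : f ((starRingEnd ℂ) w) ≠ 0 := by
            refine hne _ (by rw [hnorm]; exact hw.1) ?_
            rw [Complex.conj_im]
            have := hw.2
            linarith
          exact (map_ne_zero (starRingEnd ℂ)).2 h4
    · intro z hz him
      have hz' : ‖z‖ < ρ := by simpa using hz
      rcases lt_or_gt_of_ne him with hlt | hgt
      · have hev : ERU.gg f =ᶠ[𝓝 z] fun w => ((starRingEnd ℂ) (f ((starRingEnd ℂ) w)))⁻¹ := by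
          have hopen : IsOpen {w : ℂ | w.im < 0} :=
            isOpen_lt Complex.continuous_im continuous_const
          filter_upwards [hopen.mem_nhds hlt] with w hw
          exact ERU.gg_neg f hw
        refine DifferentiableAt.congr_of_eventuallyEq ?_ hev
        have hcz : 0 < ((starRingEnd ℂ) z).im := by
          rw [Complex.conj_im]
          linarith
        have hopen : IsOpen {w : ℂ | ‖w‖ < ρ ∧ 0 < w.im} :=
          (isOpen_lt continuous_norm continuous_const).inter
            (isOpen_lt continuous_const Complex.continuous_im)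
        have hda : DifferentiableAt ℂ f ((starRingEnd ℂ) z) :=
          (hd _ ⟨by rw [hnorm]; exact hz', hcz⟩).differentiableAt
            (hopen.mem_nhds ⟨by rw [hnorm]; exact hz', hcz⟩)
        have hcc := hda.conj_conj
        rw [Complex.conj_conj] at hcc
        refine DifferentiableAt.inv hcc ?_
        have h4 : f ((starRingEnd ℂ) z) ≠ 0 := hne _ (by rw [hnorm]; exact hz') hcz.le
        exact (map_ne_zero (starRingEnd ℂ)).2 h4
      · have hev : ERU.gg f =ᶠ[𝓝 z] f := by
          have hopen : IsOpen {w : ℂ | 0 < w.im} :=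
            isOpen_lt continuous_const Complex.continuous_im
          filter_upwards [hopen.mem_nhds hgt] with w hw
          exact ERU.gg_pos f (le_of_lt hw)
        refine DifferentiableAt.congr_of_eventuallyEq ?_ hev
        have hopen : IsOpen {w : ℂ | ‖w‖ < ρ ∧ 0 < w.im} :=
          (isOpen_lt continuous_norm continuous_const).inter
            (isOpen_lt continuous_const Complex.continuous_im)
        exact (hd _ ⟨hz', hgt⟩).differentiableAt (hopen.mem_nhds ⟨hz', hgt⟩)
  · intro w hw
    rcases le_or_gt 0 w.im with h | h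
    · rw [ERU.gg_pos f h]
      exact hne w hw h
    · rw [ERU.gg_neg f h]
      refine inv_ne_zero ((map_ne_zero (starRingEnd ℂ)).2 (hne _ (by rw [hnorm]; exact hw) ?_))
      rw [Complex.conj_im]
      linarith
  · intro w hw
    rcases lt_trichotomy w.im 0 with h | h | h
    · rw [ERU.gg_neg f h, ERU.gg_pos f (by rw [Complex.conj_im]; linarith), map_inv₀,
        Complex.conj_conj, inv_inv]
    · have hcw : (starRingEnd ℂ) w = w := Complex.conj_eq_iff_im.2 h
      rw [hcw, ERU.gg_pos f h.ge]
      exact (hreal w hw h).symm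
    · rw [ERU.gg_neg f (by rw [Complex.conj_im]; linarith), ERU.gg_pos f h.le,
        Complex.conj_conj]

end Pool.Agent.FBM
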