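import Pool.Agent.FBM.StmtE

/-!
# ESL: the free boundary condition from `P = Q Y`
-/

open MeasureTheory Set Filter Topology
open scoped Real

namespace Pool.Agent.FBM

namespace ESL

theorem re_deriv {f : ℝ → ℂ} {f' : ℂ} {x : ℝ} (h : HasDerivAt f f' x) :
    HasDerivAt (fun t => (f t).re) f'.re x := by
  have := (Complex.reCLM.hasFDerivAt (x := f x)).comp_hasDerivAt x h
  simpa [Function.comp_def] using this

theorem im_deriv {f : ℝ → ℂ} {f' : ℂ} {x : ℝ} (h : HasDerivAt f f' x) :
    HasDerivAt (fun t => (f t).im) f'.im x := by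
  have := (Complex.imCLM.hasFDerivAt (x := f x)).comp_hasDerivAt x h
  simpa [Function.comp_def] using this

/-- a curve on the unit circle has tangent orthogonal to the radius -/
theorem norm_one {f : ℝ → ℂ} {f' : ℂ} {x : ℝ} (h : HasDerivAt f f' x)
    (hn : ∀ᶠ t in 𝓝 x, ‖f t‖ = 1) : (f' * (starRingEnd ℂ) (f x)).re = 0 := by
  have h1 : HasDerivAt (fun t => (f t).re ^ 2 + (f t).im ^ 2)
      (2 * (f x).re * f'.re + 2 * (f x).im * f'.im) x := by
    have h0 := ((re_deriv h).pow 2).add ((im_deriv h).pow 2)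
    refine HasDerivAt.congr_deriv h0 ?_
    simp
  have h2 : HasDerivAt (fun t => (f t).re ^ 2 + (f t).im ^ 2) 0 x := by
    refine (hasDerivAt_const x (1 : ℝ)).congr_of_eventuallyEq ?_
    filter_upwards [hn] with t ht
    have h3 : Complex.normSq (f t) = 1 := by
      rw [Complex.normSq_eq_norm_sq, ht]; norm_num
    rw [Complex.normSq_apply] at h3
    nlinarith
  have h4 := h1.unique h2
  simp only [Complex.mul_re, Complex.conj_re, Complex.conj_im]
  nlinarith

/-- a curve in the real line has real tangent -/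
theorem im_zero {f : ℝ → ℂ} {f' : ℂ} {x : ℝ} (h : HasDerivAt f f' x)
    (hn : ∀ᶠ t in 𝓝 x, (f t).im = 0) : f'.im = 0 :=
  (im_deriv h).unique ((hasDerivAt_const x (0 : ℝ)).congr_of_eventuallyEq hn)

end ESL

theorem t_ESL : Stmt_ESL := by
  intro ρ u Q Y G hρ hu hQ hY hax hG x hx
  have hball : (x : ℂ) * u ∈ Metric.ball (0 : ℂ) ρ := by
    rw [mem_ball_zero_iff, norm_mul, hu, Complex.norm_real, Real.norm_eq_abs, mul_one]
    exact hx
  have hnb : Metric.ball (0 : ℂ) ρ ∈ 𝓝 ((x : ℂ) * u) := Metric.isOpen_ball.mem_nhds hball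
  have hQd : HasDerivAt Q (deriv Q (x * u)) (x * u) :=
    ((hQ _ hball).differentiableAt hnb).hasDerivAt
  have hYd : ∀ j, HasDerivAt (fun w => Y w j) (deriv (fun w => Y w j) (x * u)) (x * u) := by
    intro j
    have h1 := ((hY _ hball).differentiableAt hnb)
    exact ((differentiableAt_pi.1 h1) j).hasDerivAt
  have hc : HasDerivAt (fun t : ℝ => (t : ℂ) * u) u x := by
    have := (Complex.ofRealCLM.hasDerivAt (x := x)).mul_const u
    simpa using this
  have hev : ∀ᶠ t : ℝ in 𝓝 x, |t| < ρ := by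
    have : ContinuousAt (fun t : ℝ => |t|) x := continuous_abs.continuousAt
    exact this.eventually_lt continuousAt_const hx
  have hQc : HasDerivAt (fun t : ℝ => Q (t * u)) (u * deriv Q (x * u)) x := by
    have := HasDerivAt.scomp x hQd hc
    simpa [Function.comp_def, smul_eq_mul] using this
  have hYc : ∀ j, HasDerivAt (fun t : ℝ => Y (t * u) j)
      (u * deriv (fun w => Y w j) (x * u)) x := by
    intro j
    have := HasDerivAt.scomp x (hYd j) hc
    simpa [Function.comp_def, smul_eq_mul] using this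
  have e1 := ESL.norm_one hQc (hev.mono fun t ht => (hax t ht).1)
  have e2 : ∀ j, (u * deriv (fun w => Y w j) (x * u)).im = 0 := fun j =>
    ESL.im_zero (hYc j) (hev.mono fun t ht => (hax t ht).2 j)
  refine ⟨(u * deriv Q (x * u) * (starRingEnd ℂ) (Q (x * u))).im, fun j => ?_⟩
  have e3 := hG _ hball j
  have e4 : deriv (fun w => Q w * Y w j) (x * u)
      = deriv Q (x * u) * Y (x * u) j + Q (x * u) * deriv (fun w => Y w j) (x * u) :=
    (hQd.mul (hYd j)).deriv
  have e5 : Q (x * u) * (starRingEnd ℂ) (Q (x * u)) = 1 := by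
    rw [Complex.mul_conj, Complex.normSq_eq_norm_sq, (hax x hx).1]
    norm_num
  have e6 : u * deriv (fun w => G w j) (x * u)
      = u * deriv Q (x * u) * (starRingEnd ℂ) (Q (x * u)) * Y (x * u) j
        + u * deriv (fun w => Y w j) (x * u) := by
    have h1 : deriv (fun w => G w j) (x * u)
        = (deriv (fun w => G w j) (x * u) * Q (x * u)) * (starRingEnd ℂ) (Q (x * u)) := by
      rw [mul_assoc, e5, mul_one]
    rw [h1, e3, e4]
    linear_combination (u * deriv (fun w => Y w j) (x * u)) * e5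
  rw [e6, Complex.add_im, e2 j, Complex.mul_im, e1, (hax x hx).2 j]
  ring

end Pool.Agent.FBM
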