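import Pool.Agent.FBM.StmtE

/-!
# ESO: solutions of the linear equation of a null curve
-/

open MeasureTheory Set Filter Topology
open scoped Real

namespace Pool.Agent.FBM

namespace ESO

theorem AA_add (f g : Fin 3 → ℂ) : AA (f + g) = AA f + AA g := by
  refine ContinuousLinearMap.ext fun m => Prod.ext (funext fun j => ?_) ?_
  · change (f j + g j) * m.2 = f j * m.2 + g j * m.2
    ring
  · change ∑ j, (f j + g j) * m.1 j = ∑ j, f j * m.1 j + ∑ j, g j * m.1 j
    rw [← Finset.sum_add_distrib]
    exact Finset.sum_congr rfl fun j _ => by ring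

theorem AA_smul (c : ℂ) (f : Fin 3 → ℂ) : AA (c • f) = c • AA f := by
  refine ContinuousLinearMap.ext fun m => Prod.ext (funext fun j => ?_) ?_
  · change (c * f j) * m.2 = c * (f j * m.2)
    ring
  · change ∑ j, (c * f j) * m.1 j = c * ∑ j, f j * m.1 j
    rw [Finset.mul_sum]
    exact Finset.sum_congr rfl fun j _ => by ring

/-- `AA` as a continuous linear map. -/
noncomputable def AAL : (Fin 3 → ℂ) →L[ℂ] ((Fin 3 → ℂ) × ℂ →L[ℂ] (Fin 3 → ℂ) × ℂ) :=
  LinearMap.toContinuousLinearMap
    { toFun := AA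
      map_add' := AA_add
      map_smul' := AA_smul }

theorem AAL_apply (f : Fin 3 → ℂ) : AAL f = AA f := rfl

theorem cont_ep (r : ℝ) : Continuous (ep r) := by
  unfold ep
  fun_prop

theorem norm_ep {r : ℝ} (h : 0 ≤ r) (t : ℝ) : ‖ep r t‖ = r := by
  unfold ep
  rw [norm_mul, Complex.norm_exp_ofReal_mul_I, mul_one, Complex.norm_real, Real.norm_eq_abs,
    abs_of_nonneg h]

theorem ii {E : Type} [NormedAddCommGroup E] {f : ℝ → E} (h : Function.Periodic f (2 * π))
    (hi : Integrable f cm) (a b : ℝ) : IntervalIntegrable f volume a b := by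
  refine h.intervalIntegrable (ne_of_gt Real.two_pi_pos) (t := -π) ?_ a b
  have e : -π + 2 * π = π := by ring
  rw [e, intervalIntegrable_iff_integrableOn_Ioc_of_le (by linarith [Real.pi_pos])]
  exact hi

theorem bdl {F : ℂ → Fin 3 → ℂ} {f : ℝ → Fin 3 → ℂ} (h : Reg F f) :
    BdL (fun z => AA (deriv F z)) (fun t => AA (f t)) := by
  refine ⟨fun t => ?_, AAL.integrable_comp h.bd.int, ?_⟩
  · rw [h.bd.per t]
  · have h1 := h.bd.lim.const_mul ‖AAL‖
    rw [mul_zero] at h1
    refine tendsto_of_tendsto_of_tendsto_of_le_of_le' tendsto_const_nhds h1 ?_ ?_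
    · exact Eventually.of_forall fun r => integral_nonneg fun t => norm_nonneg _
    · filter_upwards [Ioo_mem_nhdsLT one_pos] with r hr
      rw [← integral_const_mul]
      refine integral_mono_of_nonneg (Eventually.of_forall fun t => norm_nonneg _) ?_
        (Eventually.of_forall fun t => ?_)
      · refine (Integrable.norm ?_).const_mul _
        refine Integrable.sub ?_ h.bd.int
        have hc : Continuous fun t => (Complex.I * ep r t) • deriv F (ep r t) := by
          have h2 : ContinuousOn (deriv F) (Metric.ball 0 1) :=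
            (h.diff.deriv Metric.isOpen_ball).continuousOn
          have h3 : Continuous fun t => deriv F (ep r t) :=
            h2.comp_continuous (cont_ep r) fun t => by
              rw [mem_ball_zero_iff, norm_ep hr.1.le]
              exact hr.2
          exact (continuous_const.mul (cont_ep r)).smul h3
        exact (hc.integrableOn_Icc (a := -π) (b := π)).mono_set Ioc_subset_Icc_self
      · change ‖(Complex.I * ep r t) • AAL (deriv F (ep r t)) - AAL (f t)‖ ≤ _
        rw [← map_smul, ← map_sub]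
        exact AAL.le_opNorm _

end ESO

open ESO

theorem t_ESO (hOBD : Stmt_OBD) : Stmt_ESO := by
  intro F f h t₀ v
  have hd : DifferentiableOn ℂ (fun z => AA (deriv F z)) (Metric.ball 0 1) :=
    AAL.differentiable.comp_differentiableOn (h.diff.deriv Metric.isOpen_ball)
  obtain ⟨m, h1, h2, h3, h4⟩ := hOBD (fun z => AA (deriv F z)) (fun t => AA (f t)) hd (bdl h) t₀ v
  have hm : Continuous fun t => m (ep 1 t) := h1.comp_continuous (cont_ep 1) fun t => by
    rw [mem_closedBall_zero_iff, norm_ep zero_le_one]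
  obtain ⟨M, hM⟩ : ∃ M, ∀ t, ‖m (ep 1 t)‖ ≤ M := by
    obtain ⟨M, hM⟩ := (isCompact_closedBall (0 : ℂ) 1).exists_bound_of_continuousOn h1
    exact ⟨M, fun t => hM _ (by rw [mem_closedBall_zero_iff, norm_ep zero_le_one])⟩
  have hf : ∀ a b, IntervalIntegrable f volume a b := ii h.bd.per h.bd.int
  have hi : ∀ a b, IntervalIntegrable (fun u => AA (f u) (m (ep 1 u))) volume a b := by
    intro a b
    refine ((hf a b).norm.const_mul (‖AAL‖ * M)).mono_fun ?_ ?_
    · exact AAL.aestronglyMeasurable_comp₂ (hf a b).def'.aestronglyMeasurable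
        hm.aestronglyMeasurable
    · refine Eventually.of_forall fun t => ?_
      have h5 : ‖AAL (f t) (m (ep 1 t))‖ ≤ ‖AAL‖ * ‖f t‖ * ‖m (ep 1 t)‖ := AAL.le_opNorm₂ _ _
      have h6 := hM t
      have h7 : 0 ≤ M := (norm_nonneg _).trans h6
      have h8 : ‖AAL‖ * M * ‖f t‖ ≤ ‖‖AAL‖ * M * ‖f t‖‖ := le_abs_self _
      refine le_trans ?_ h8
      refine h5.trans ?_
      have h9 : ‖AAL‖ * ‖f t‖ * ‖m (ep 1 t)‖ ≤ ‖AAL‖ * ‖f t‖ * M :=
        mul_le_mul_of_nonneg_left h6 (mul_nonneg AAL.opNorm_nonneg (norm_nonneg _))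
      linarith
  refine ⟨m, ⟨h1, h3, fun s t => ?_⟩, h2⟩
  rw [h4 t, h4 s, add_assoc, intervalIntegral.integral_add_adjacent_intervals (hi t₀ s) (hi s t)]

end Pool.Agent.FBM
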