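import Pool.Agent.FBM.StmtE

/-!
# Module FBM_EWE: extension at interior points of wall arcs
-/

open MeasureTheory Set Filter Topology
open scoped Real

namespace Pool.Agent.FBM.EWE

/-- near an interior point the real axis is mapped into the arc -/
theorem radius (a c t₀ : ℝ) (h : t₀ ∈ Ioo a c) :
    ∃ ρ : ℝ, 0 < ρ ∧ ρ < 1 ∧ ∀ x : ℝ, |x| < ρ → t₀ + 2 * Real.arctan x ∈ Icc a c := by
  have hc : ContinuousAt (fun x : ℝ => t₀ + 2 * Real.arctan x) 0 := by
    have := Real.continuous_arctan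
    fun_prop
  have hn : Ioo a c ∈ 𝓝 ((fun x : ℝ => t₀ + 2 * Real.arctan x) 0) := by
    have : (fun x : ℝ => t₀ + 2 * Real.arctan x) 0 = t₀ := by simp
    rw [this]
    exact Ioo_mem_nhds h.1 h.2
  obtain ⟨δ, hδ, hb⟩ := Metric.mem_nhds_iff.1 (hc hn)
  refine ⟨min δ (1 / 2), lt_min hδ (by norm_num), lt_of_le_of_lt (min_le_right _ _) (by norm_num),
    fun x hx => ?_⟩
  have hx' : x ∈ Metric.ball (0 : ℝ) δ := by
    rw [Metric.mem_ball, Real.dist_eq, sub_zero]
    exact lt_of_lt_of_le hx (min_le_left _ _)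
  exact Ioo_subset_Icc_self (hb hx')

end Pool.Agent.FBM.EWE

namespace Pool.Agent.FBM

theorem t_EWE (hERR : Stmt_ERR) (hPSI : Stmt_PSI) : Stmt_EWE := by
  intro F f i a c t₀ hF hW ht
  obtain ⟨ρ, hρ, hρ1, hρa⟩ := EWE.radius a c t₀ ht
  obtain ⟨hp1, hp2, hp3, -, -, hp6⟩ := hPSI t₀
  have ht' : t₀ ∈ Icc a c := Ioo_subset_Icc_self ht
  -- the shifted components
  have hcomp : ∀ j : Fin 3, ∃ g : ℂ → ℂ, DifferentiableOn ℂ g (Metric.ball 0 ρ) ∧
      (∀ w : ℂ, ‖w‖ < ρ → 0 ≤ w.im →
        g w = F (psi t₀ w) j - Complex.I * ((F (ep 1 t₀) j).im : ℂ)) ∧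
      ∀ w : ℂ, ‖w‖ < ρ → g ((starRingEnd ℂ) w) =
        ((if j = i then (-1 : ℝ) else 1 : ℝ) : ℂ) * (starRingEnd ℂ) (g w) := by
    intro j
    refine hERR ρ (if j = i then (-1 : ℝ) else 1)
      (fun w => F (psi t₀ w) j - Complex.I * ((F (ep 1 t₀) j).im : ℂ)) hρ ?_ ?_ ?_ ?_
    · by_cases hj : j = i
      · right; simp [hj]
      · left; simp [hj]
    · have h1 : ContinuousOn (fun w => F (psi t₀ w)) {w : ℂ | ‖w‖ < ρ ∧ 0 ≤ w.im} := by
        refine hF.cont.comp ?_ ?_
        · intro w hw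
          exact (hp3 w (lt_trans hw.1 hρ1)).continuousAt.continuousWithinAt
        · intro w hw
          exact hp1 w (lt_trans hw.1 hρ1) hw.2
      exact (((continuous_apply j).comp_continuousOn h1)).sub continuousOn_const
    · have h1 : DifferentiableOn ℂ (fun w => F (psi t₀ w)) {w : ℂ | ‖w‖ < ρ ∧ 0 < w.im} := by
        refine hF.diff.comp ?_ ?_
        · intro w hw
          exact (hp3 w (lt_trans hw.1 hρ1)).differentiableWithinAt
        · intro w hw
          exact hp2 w (lt_trans hw.1 hρ1) hw.2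
      exact ((differentiableOn_pi.1 h1) j).sub (differentiableOn_const _)
    · intro x hx
      have hmem := hρa x hx
      have hpsi := hp6 x
      simp only [hpsi]
      by_cases hj : j = i
      · subst hj
        have hre := hW.1 _ hmem
        apply Complex.ext
        · simp [hre]
        · simp
          ring
      · have him := hW.2 j hj _ ht' _ hmem
        apply Complex.ext
        · simp [hj]
        · simp [hj, him]
  choose g hg1 hg2 hg3 using hcomp
  refine ⟨fun w j => g j w + Complex.I * ((F (ep 1 t₀) j).im : ℂ), ρ, ⟨hρ, hρ1, ?_, ?_⟩, ?_⟩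
  · rw [differentiableOn_pi]
    intro j
    exact (hg1 j).add (differentiableOn_const _)
  · intro w hw him
    funext j
    change g j w + _ = _
    rw [hg2 j w hw him]
    ring
  · intro j w hw
    change (g j ((starRingEnd ℂ) w) + Complex.I * ((F (ep 1 t₀) j).im : ℂ)).re =
      _ * (g j w + Complex.I * ((F (ep 1 t₀) j).im : ℂ)).re
    rw [hg3 j w hw]
    by_cases hj : j = i
    · simp [hj]
    · simp [hj]

end Pool.Agent.FBM
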