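import Pool.Agent.FBM.StmtE

/-!
# EWS: the solution on a `W i` arc (MP_947d36_gt, block E)
-/

open MeasureTheory Set Filter Topology
open scoped Real

namespace Pool.Agent.FBM

namespace EWS

/-- abbreviation for the space of the pairs `(P, Q)` -/
abbrev EE := (Fin 3 → ℂ) × ℂ

/-- conjugation composed with the change of the sign of component `i` -/
noncomputable def SS (i : Fin 3) : EE →L[ℝ] EE :=
  LinearMap.toContinuousLinearMap
    { toFun := fun m => (fun j => (if j = i then (-1 : ℂ) else 1) * (starRingEnd ℂ) (m.1 j),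
        (starRingEnd ℂ) m.2)
      map_add' := fun m n => by
        refine Prod.ext (funext fun j => ?_) ?_
        · change (if j = i then (-1 : ℂ) else 1) * (starRingEnd ℂ) (m.1 j + n.1 j) =
            (if j = i then (-1 : ℂ) else 1) * (starRingEnd ℂ) (m.1 j) +
            (if j = i then (-1 : ℂ) else 1) * (starRingEnd ℂ) (n.1 j)
          rw [map_add]
          ring
        · change (starRingEnd ℂ) (m.2 + n.2) = (starRingEnd ℂ) m.2 + (starRingEnd ℂ) n.2
          rw [map_add]
      map_smul' := fun c m => by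
        refine Prod.ext (funext fun j => ?_) ?_
        · change (if j = i then (-1 : ℂ) else 1) * (starRingEnd ℂ) (c • m.1 j) =
            c • ((if j = i then (-1 : ℂ) else 1) * (starRingEnd ℂ) (m.1 j))
          rw [Complex.real_smul, Complex.real_smul, map_mul, Complex.conj_ofReal]
          ring
        · change (starRingEnd ℂ) (c • m.2) = c • (starRingEnd ℂ) m.2
          rw [Complex.real_smul, Complex.real_smul, map_mul, Complex.conj_ofReal] }

theorem SS_fst (i : Fin 3) (m : EE) (j : Fin 3) :
    (SS i m).1 j = (if j = i then (-1 : ℂ) else 1) * (starRingEnd ℂ) (m.1 j) := rfl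

theorem SS_snd (i : Fin 3) (m : EE) : (SS i m).2 = (starRingEnd ℂ) m.2 := rfl

/-- the coefficient map, real linear -/
noncomputable def LL : (Fin 3 → ℂ) →L[ℝ] (EE →L[ℝ] EE) :=
  LinearMap.toContinuousLinearMap
    { toFun := fun f => (AA f).restrictScalars ℝ
      map_add' := fun f g => by
        refine ContinuousLinearMap.ext fun m => ?_
        refine Prod.ext (funext fun j => ?_) ?_
        · change (f j + g j) * m.2 = f j * m.2 + g j * m.2
          ring
        · change ∑ j, (f j + g j) * m.1 j = ∑ j, f j * m.1 j + ∑ j, g j * m.1 j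
          rw [← Finset.sum_add_distrib]
          exact Finset.sum_congr rfl fun j _ => by ring
      map_smul' := fun c f => by
        refine ContinuousLinearMap.ext fun m => ?_
        refine Prod.ext (funext fun j => ?_) ?_
        · change (c • f j) * m.2 = c • (f j * m.2)
          rw [Complex.real_smul, Complex.real_smul]
          ring
        · change ∑ j, (c • f j) * m.1 j = c • ∑ j, f j * m.1 j
          rw [Finset.smul_sum]
          exact Finset.sum_congr rfl fun j _ => by
            rw [Complex.real_smul, Complex.real_smul]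
            ring }

theorem LL_apply (f : Fin 3 → ℂ) (m : EE) : LL f m = AA f m := rfl

/-- the symmetry of the equation -/
theorem symm {f : Fin 3 → ℂ} {i : Fin 3} (h1 : (f i).re = 0) (h2 : ∀ j, j ≠ i → (f j).im = 0)
    (m : EE) : SS i (LL f m) = LL f (SS i m) := by
  have hf : ∀ j, (if j = i then (-1 : ℂ) else 1) * (starRingEnd ℂ) (f j) = f j := by
    intro j
    by_cases hj : j = i
    · rw [if_pos hj, hj]
      apply Complex.ext
      · simp [h1]
      · simp
    · rw [if_neg hj]
      apply Complex.ext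
      · simp
      · simp [h2 j hj]
  refine Prod.ext (funext fun j => ?_) ?_
  · rw [LL_apply, LL_apply, SS_fst, AA_fst, AA_fst, SS_snd, map_mul, ← mul_assoc, hf]
  · rw [LL_apply, LL_apply, SS_snd, AA_snd, AA_snd, map_sum]
    refine Finset.sum_congr rfl fun j _ => ?_
    rw [SS_fst, map_mul]
    by_cases hj : j = i
    · have := hf j
      rw [if_pos hj] at this ⊢
      linear_combination (-((starRingEnd ℂ) (m.1 j))) * this
    · have := hf j
      rw [if_neg hj] at this ⊢
      rw [one_mul] at this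
      rw [this]
      simp

/-- `f` is integrable on all intervals -/
theorem intf {F : ℂ → Fin 3 → ℂ} {f : ℝ → Fin 3 → ℂ} (hR : Reg F f) (a c : ℝ) :
    IntervalIntegrable f volume a c := by
  have h1 : IntervalIntegrable f volume (-π) (-π + 2 * π) := by
    rw [intervalIntegrable_iff_integrableOn_Ioc_of_le (by linarith [Real.pi_pos])]
    have := hR.bd.int
    rw [cm] at this
    rw [show -π + 2 * π = π by ring]
    exact this
  exact hR.bd.per.intervalIntegrable (by positivity) h1 a c

/-- a linear function of `F` constant on the arc: the derivative vanishes -/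
theorem der0 {F : ℂ → Fin 3 → ℂ} {f : ℝ → Fin 3 → ℂ} (hR : Reg F f) {a c : ℝ} (hac : a ≤ c)
    (L : (Fin 3 → ℂ) →L[ℝ] ℝ) (h : ∀ t ∈ Icc a c, L (F (ep 1 t)) = L (F (ep 1 a))) :
    ∀ᵐ x, x ∈ Ioo a c → L (f x) = 0 := by
  filter_upwards [(intf hR a c).ae_hasDerivAt_integral] with x hx hxI
  have hx1 : HasDerivAt (fun x => ∫ t in a..x, f t) (f x) x := by
    apply hx
    · rw [uIcc_of_le hac]
      exact Ioo_subset_Icc_self hxI
    · rw [uIcc_of_le hac]
      exact left_mem_Icc.2 hac
  have hx2 : HasDerivAt (fun x => L (∫ t in a..x, f t)) (L (f x)) x :=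
    L.hasFDerivAt.comp_hasDerivAt x hx1
  have hx3 : HasDerivAt (fun x => L (∫ t in a..x, f t)) 0 x := by
    apply (hasDerivAt_const x (0 : ℝ)).congr_of_eventuallyEq
    filter_upwards [Ioo_mem_nhds hxI.1 hxI.2] with y hy
    rw [← hR.ftc, map_sub, h y (Ioo_subset_Icc_self hy), sub_self]
  exact hx2.unique hx3

theorem continuous_ep : Continuous (fun v : ℝ => ep 1 v) := by
  unfold ep
  fun_prop

theorem mem_ep (t : ℝ) : ep 1 t ∈ Metric.closedBall (0 : ℂ) 1 := by
  rw [mem_closedBall_zero_iff, ep, norm_mul, Complex.norm_exp_ofReal_mul_I]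
  simp

/-- the integrand is integrable -/
theorem intm {F : ℂ → Fin 3 → ℂ} {f : ℝ → Fin 3 → ℂ} (hR : Reg F f) {m : ℝ → EE}
    (hm : Continuous m) (a c : ℝ) :
    IntervalIntegrable (fun u => LL (f u) (m u)) volume a c := by
  have hf := intf hR a c
  have key : ∀ p q : ℝ, IntegrableOn f (Ioc p q) volume →
      IntegrableOn (fun u => LL (f u) (m u)) (Ioc p q) volume := by
    intro p q hpq
    obtain ⟨C, hC⟩ := (isCompact_Icc (a := p) (b := q)).exists_bound_of_continuousOn
      hm.continuousOn
    refine LL.integrable_of_bilin_of_bdd_right C hpq hm.aestronglyMeasurable ?_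
    rw [ae_restrict_iff' measurableSet_Ioc]
    exact ae_of_all _ fun t ht => hC t (Ioc_subset_Icc_self ht)
  exact ⟨key _ _ hf.1, key _ _ hf.2⟩

end EWS

theorem t_EWS (hOUN : Stmt_OUN) : Stmt_EWS := by
  intro F f i a c t₀ hR hW ht₀ m hS hm₀
  have hac : a ≤ c := ht₀.1.trans ht₀.2
  obtain ⟨hW1, hW2⟩ := hW
  -- the derivative along the arc
  have hre : ∀ᵐ x, x ∈ Ioo a c → (f x i).re = 0 := by
    have := EWS.der0 hR hac (Complex.reCLM.comp
      ((ContinuousLinearMap.proj i : (Fin 3 → ℂ) →L[ℝ] ℂ))) ?_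
    · exact this
    · intro t ht
      change (F (ep 1 t) i).re = (F (ep 1 a) i).re
      rw [hW1 t ht, hW1 a (left_mem_Icc.2 hac)]
  have him : ∀ j, j ≠ i → ∀ᵐ x, x ∈ Ioo a c → (f x j).im = 0 := by
    intro j hj
    have := EWS.der0 hR hac (Complex.imCLM.comp
      ((ContinuousLinearMap.proj j : (Fin 3 → ℂ) →L[ℝ] ℂ))) ?_
    · exact this
    · intro t ht
      change (F (ep 1 t) j).im = (F (ep 1 a) j).im
      exact hW2 j hj a (left_mem_Icc.2 hac) t ht
  have him' : ∀ᵐ x, ∀ j, j ≠ i → x ∈ Ioo a c → (f x j).im = 0 := by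
    rw [ae_all_iff]
    intro j
    by_cases hj : j = i
    · exact ae_of_all _ fun x h => absurd hj h
    · filter_upwards [him j hj] with x hx _
      exact hx
  -- the two solutions
  set M : ℝ → EWS.EE := fun t => m (ep 1 t) with hM
  have hMc : Continuous M := by
    rw [← continuousOn_univ]
    exact hS.cont.comp EWS.continuous_ep.continuousOn fun t _ => EWS.mem_ep t
  have hMe : ∀ t, M t = M t₀ + ∫ s in t₀..t, EWS.LL (f s) (M s) := fun t => hS.ftc t₀ t
  have hM0 : EWS.SS i (M t₀) = M t₀ := by
    rw [show M t₀ = (fun j => ((F (ep 1 t₀) j).re : ℂ), 1) from hm₀]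
    refine Prod.ext (funext fun j => ?_) ?_
    · rw [EWS.SS_fst]
      change _ * (starRingEnd ℂ) ((F (ep 1 t₀) j).re : ℂ) = ((F (ep 1 t₀) j).re : ℂ)
      rw [Complex.conj_ofReal]
      by_cases hj : j = i
      · rw [hj, hW1 t₀ ht₀]
        simp
      · rw [if_neg hj, one_mul]
    · rw [EWS.SS_snd]
      exact map_one _
  have hNe : ∀ t ∈ Icc a c, EWS.SS i (M t) =
      M t₀ + ∫ s in t₀..t, EWS.LL (f s) (EWS.SS i (M s)) := by
    intro t ht
    have e1 : EWS.SS i (M t) = EWS.SS i (M t₀) + EWS.SS i (∫ s in t₀..t, EWS.LL (f s) (M s)) := by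
      rw [← map_add, ← hMe t]
    rw [e1, hM0, ← (EWS.SS i).intervalIntegral_comp_comm (EWS.intm hR hMc t₀ t)]
    congr 1
    apply intervalIntegral.integral_congr_ae
    have hne : ∀ᵐ x : ℝ, x ≠ a ∧ x ≠ c := by
      have h₁ : ∀ᵐ x : ℝ, x ≠ a := by simp [ae_iff, measure_singleton]
      have h₂ : ∀ᵐ x : ℝ, x ≠ c := by simp [ae_iff, measure_singleton]
      filter_upwards [h₁, h₂] with x h1 h2 using ⟨h1, h2⟩
    filter_upwards [hre, him', hne] with x h1 h2 h3 hx
    have hxI : x ∈ Ioo a c := by
      have hx1 : x ∈ uIcc t₀ t := uIoc_subset_uIcc hx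
      have hx2 : x ∈ Icc a c := (uIcc_subset_Icc ht₀ ht) hx1
      exact ⟨lt_of_le_of_ne hx2.1 (fun e => h3.1 e.symm), lt_of_le_of_ne hx2.2 h3.2⟩
    exact EWS.symm (h1 hxI) (fun j hj => h2 j hj hxI) (M x)
  have hB : IntervalIntegrable (fun s => EWS.LL (f s)) volume a c := by
    have hf := EWS.intf hR a c
    exact ⟨EWS.LL.integrable_comp hf.1, EWS.LL.integrable_comp hf.2⟩
  have hSc : Continuous (fun t => EWS.SS i (M t)) := (EWS.SS i).continuous.comp hMc
  have hfin := @hOUN EWS.EE _ _ _ (fun s => EWS.LL (f s)) a c t₀ ht₀ hB M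
    (fun t => EWS.SS i (M t)) (M t₀) hMc.continuousOn hSc.continuousOn (fun t _ => hMe t) hNe
  intro t ht
  have hfix : M t = EWS.SS i (M t) := hfin t ht
  have hfst : ∀ j, (M t).1 j = (if j = i then (-1 : ℂ) else 1) * (starRingEnd ℂ) ((M t).1 j) := by
    intro j
    rw [← EWS.SS_fst, ← hfix]
  have hsnd : (M t).2 = (starRingEnd ℂ) (M t).2 := by
    rw [← EWS.SS_snd i, ← hfix]
  refine ⟨?_, ?_, ?_⟩
  · have := congrArg Complex.im hsnd
    rw [Complex.conj_im] at this
    change (M t).2.im = 0
    linarith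
  · have := congrArg Complex.re (hfst i)
    rw [if_pos rfl] at this
    simp only [neg_mul, one_mul, Complex.neg_re, Complex.conj_re] at this
    change ((M t).1 i).re = 0
    linarith
  · intro j hj
    have := congrArg Complex.im (hfst j)
    rw [if_neg hj, one_mul, Complex.conj_im] at this
    change ((M t).1 j).im = 0
    linarith

end Pool.Agent.FBM
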