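import Pool.Agent.FBM.StmtE

/-!
# FBM, block E: extension at the corners between two walls
-/

open MeasureTheory Set Filter Topology
open scoped Real

namespace Pool.Agent.FBM

namespace EWW

lemma arctan_le {x : ℝ} (hx : 0 ≤ x) : Real.arctan x ≤ x := by
  have h := Real.le_tan (Real.arctan_nonneg.mpr hx) (Real.arctan_lt_pi_div_two x)
  rwa [Real.tan_arctan] at h

/-- a complex number with vanishing real part -/
lemma of_re {z : ℂ} (h : z.re = 0) : z = ((-1 : ℝ) : ℂ) * (starRingEnd ℂ) z := by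
  apply Complex.ext <;> simp [h]

/-- a complex number with vanishing imaginary part -/
lemma of_im {z : ℂ} (h : z.im = 0) : z = ((1 : ℝ) : ℂ) * (starRingEnd ℂ) z := by
  apply Complex.ext <;> simp [h]

/-- the closed quadrant is mapped to the closed disc -/
lemma sq_closed {θ : ℝ} (hP : ∀ w : ℂ, ‖w‖ < 1 → 0 ≤ w.im → psi θ w ∈ Metric.closedBall (0 : ℂ) 1)
    {ρ : ℝ} (h0 : 0 < ρ) (hρ : ρ < 1) {w : ℂ} (hw : ‖w‖ < ρ) (h1 : 0 ≤ w.re) (h2 : 0 ≤ w.im) :
    psi θ (w ^ 2) ∈ Metric.closedBall (0 : ℂ) 1 := by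
  apply hP
  · rw [norm_pow]
    have : ‖w‖ < 1 := hw.trans hρ
    nlinarith [norm_nonneg w]
  · rw [pow_two, Complex.mul_im]; positivity

lemma sq_norm {ρ : ℝ} (hρ : ρ < 1) {w : ℂ} (hw : ‖w‖ < ρ) : ‖w ^ 2‖ < 1 := by
  rw [norm_pow]
  have : ‖w‖ < 1 := hw.trans hρ
  nlinarith [norm_nonneg w]

end EWW

open EWW

theorem t_EWW (hEQR : Stmt_EQR) (hPSI : Stmt_PSI) : Stmt_EWW := by
  intro F f i j a c t₀ hR hij hat htc hWi hWj
  obtain ⟨hP1, hP2, hP3, -, hP0, hPs⟩ := hPSI t₀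
  -- the radius
  obtain ⟨ρ, h0, h1, hρc, hρa⟩ : ∃ ρ : ℝ, 0 < ρ ∧ ρ < 1 ∧ 2 * ρ ≤ c - t₀ ∧ 2 * ρ ≤ t₀ - a := by
    refine ⟨min (1 / 2) (min (c - t₀) (t₀ - a) / 2), ?_, ?_, ?_, ?_⟩
    · have h3 : 0 < min (c - t₀) (t₀ - a) := lt_min (by linarith) (by linarith)
      exact lt_min (by norm_num) (by linarith)
    · exact (min_le_left _ _).trans_lt (by norm_num)
    · have h3 := min_le_right (1 / 2) (min (c - t₀) (t₀ - a) / 2)
      have h4 := min_le_left (c - t₀) (t₀ - a)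
      linarith
    · have h3 := min_le_right (1 / 2) (min (c - t₀) (t₀ - a) / 2)
      have h4 := min_le_right (c - t₀) (t₀ - a)
      linarith
  have harc : ∀ x : ℝ, 0 ≤ x → x < ρ → 0 ≤ Real.arctan (x ^ 2) ∧ 2 * Real.arctan (x ^ 2) ≤ 2 * ρ := by
    intro x hx hxρ
    refine ⟨Real.arctan_nonneg.mpr (sq_nonneg x), ?_⟩
    have h3 := arctan_le (sq_nonneg x)
    have h4 : x ^ 2 ≤ x := by nlinarith
    linarith
  -- the values on the two axes
  have hval1 : ∀ x : ℝ, psi t₀ ((x : ℂ) ^ 2) = ep 1 (t₀ + 2 * Real.arctan (x ^ 2)) := by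
    intro x
    have := hPs (x ^ 2)
    rw [← this]
    push_cast
    rfl
  have hval2 : ∀ x : ℝ, psi t₀ (((x : ℂ) * Complex.I) ^ 2)
      = ep 1 (t₀ - 2 * Real.arctan (x ^ 2)) := by
    intro x
    have h3 := hPs (-(x ^ 2))
    rw [Real.arctan_neg] at h3
    have e : (((x : ℂ) * Complex.I) ^ 2) = ((-(x ^ 2) : ℝ) : ℂ) := by
      rw [mul_pow, Complex.I_sq]; push_cast; ring
    rw [e, h3]
    congr 1
    ring
  -- the reflected functions
  have key : ∀ k : Fin 3, ∃ g : ℂ → ℂ, DifferentiableOn ℂ g (Metric.ball 0 ρ) ∧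
      (∀ w : ℂ, ‖w‖ < ρ → 0 ≤ w.re → 0 ≤ w.im →
        g w = F (psi t₀ (w ^ 2)) k - Complex.I * ((F (ep 1 t₀) k).im : ℂ)) ∧
      (∀ w : ℂ, ‖w‖ < ρ → g ((starRingEnd ℂ) w)
        = ((if k = j then -1 else 1 : ℝ) : ℂ) * (starRingEnd ℂ) (g w)) ∧
      ∀ w : ℂ, ‖w‖ < ρ → g (-(starRingEnd ℂ) w)
        = ((if k = i then -1 else 1 : ℝ) : ℂ) * (starRingEnd ℂ) (g w) := by
    intro k
    refine hEQR ρ (if k = j then -1 else 1) (if k = i then -1 else 1)
      (fun w => F (psi t₀ (w ^ 2)) k - Complex.I * ((F (ep 1 t₀) k).im : ℂ)) h0 ?_ ?_ ?_ ?_ ?_ ?_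
    · split_ifs
      · right; rfl
      · left; rfl
    · split_ifs
      · right; rfl
      · left; rfl
    · refine ContinuousOn.sub ?_ continuousOn_const
      have hc1 : ContinuousOn (fun w : ℂ => psi t₀ (w ^ 2)) {w | ‖w‖ < ρ ∧ 0 ≤ w.re ∧ 0 ≤ w.im} := by
        intro w hw
        have h3 := (hP3 (w ^ 2) (sq_norm h1 hw.1)).continuousAt
        have h4 : ContinuousAt (fun w : ℂ => w ^ 2) w := (continuous_pow 2).continuousAt
        exact (ContinuousAt.comp (f := fun w : ℂ => w ^ 2) h3 h4).continuousWithinAt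
      have hc2 : ContinuousOn (fun w : ℂ => F (psi t₀ (w ^ 2)))
          {w | ‖w‖ < ρ ∧ 0 ≤ w.re ∧ 0 ≤ w.im} :=
        hR.cont.comp hc1 (fun w hw => sq_closed hP1 h0 h1 hw.1 hw.2.1 hw.2.2)
      exact (continuous_apply k).comp_continuousOn hc2
    · refine DifferentiableOn.sub ?_ (differentiableOn_const _)
      intro w hw
      have him : 0 < (w ^ 2).im := by
        rw [pow_two, Complex.mul_im]
        have := mul_pos hw.2.1 hw.2.2
        linarith
      have hb := hP2 (w ^ 2) (sq_norm h1 hw.1) him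
      have hF : DifferentiableAt ℂ F (psi t₀ (w ^ 2)) :=
        hR.diff.differentiableAt (Metric.isOpen_ball.mem_nhds hb)
      have hF2 : DifferentiableAt ℂ (fun z => F z k) (psi t₀ (w ^ 2)) :=
        (differentiableAt_pi.mp hF) k
      have h4 : DifferentiableAt ℂ (fun w : ℂ => w ^ 2) w := differentiableAt_id.pow 2
      have h5 : DifferentiableAt ℂ (fun w : ℂ => psi t₀ (w ^ 2)) w :=
        DifferentiableAt.comp (g := psi t₀) (f := fun w : ℂ => w ^ 2) w
          (hP3 (w ^ 2) (sq_norm h1 hw.1)) h4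
      exact (DifferentiableAt.comp (g := fun z => F z k) (f := fun w : ℂ => psi t₀ (w ^ 2)) w
        hF2 h5).differentiableWithinAt
    · intro x hx hxρ
      obtain ⟨ha1, ha2⟩ := harc x hx hxρ
      have ht : t₀ + 2 * Real.arctan (x ^ 2) ∈ Icc t₀ c := ⟨by linarith, by linarith⟩
      have ht0 : t₀ ∈ Icc t₀ c := ⟨le_rfl, htc.le⟩
      by_cases hk : k = j
      · rw [if_pos hk]
        apply of_re
        simp only [hval1]
        subst hk
        rw [Complex.sub_re, hWj.1 _ ht]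
        simp
      · rw [if_neg hk]
        apply of_im
        simp only [hval1]
        rw [Complex.sub_im, hWj.2 k hk t₀ ht0 _ ht]
        simp
    · intro x hx hxρ
      obtain ⟨ha1, ha2⟩ := harc x hx hxρ
      have ht : t₀ - 2 * Real.arctan (x ^ 2) ∈ Icc a t₀ := ⟨by linarith, by linarith⟩
      have ht0 : t₀ ∈ Icc a t₀ := ⟨hat.le, le_rfl⟩
      by_cases hk : k = i
      · rw [if_pos hk]
        apply of_re
        simp only [hval2]
        subst hk
        rw [Complex.sub_re, hWi.1 _ ht]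
        simp
      · rw [if_neg hk]
        apply of_im
        simp only [hval2]
        rw [Complex.sub_im, hWi.2 k hk t₀ ht0 _ ht]
        simp
  choose g hg1 hg2 hg3 hg4 using key
  refine ⟨fun w k => g k w + Complex.I * ((F (ep 1 t₀) k).im : ℂ), ρ, ⟨h0, h1, ?_, ?_⟩, ?_, ?_⟩
  · rw [differentiableOn_pi]
    intro k
    exact (hg1 k).add (differentiableOn_const _)
  · intro w hw hre him
    funext k
    change g k w + Complex.I * ((F (ep 1 t₀) k).im : ℂ) = F (psi t₀ (w ^ 2)) k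
    rw [hg2 k w hw hre him]
    ring
  · intro k w hw
    simp only [hg4 k w hw]
    rw [Complex.add_re, Complex.add_re]
    split_ifs <;> simp
  · intro k w hw
    simp only [hg3 k w hw]
    rw [Complex.add_re, Complex.add_re]
    split_ifs <;> simp

end Pool.Agent.FBM
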