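import Mathlib
import Pool.Agent.FBM.StmtE

/-!
# GLQ: gluing along both axes
-/

set_option autoImplicit false

namespace Pool.Agent.FBM

/-- Functions holomorphic off both axes and continuous are holomorphic. -/
theorem t_GLQ (hGLU : Stmt_GLU) : Stmt_GLQ := by
  intro E _ _ _ f U hU hf hd
  -- step 1: off the imaginary axis
  have h1 : ∀ z ∈ U, z.re ≠ 0 → DifferentiableAt ℂ f z := by
    intro z hz hre
    have hO : IsOpen (U ∩ {w : ℂ | w.re ≠ 0}) :=
      hU.inter (isOpen_ne_fun Complex.continuous_re continuous_const)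
    have h2 : DifferentiableOn ℂ f (U ∩ {w : ℂ | w.re ≠ 0}) :=
      hGLU (E := E) f _ hO (hf.mono Set.inter_subset_left) (fun w hw him => hd w hw.1 him hw.2)
    exact (h2 z ⟨hz, hre⟩).differentiableAt (hO.mem_nhds ⟨hz, hre⟩)
  -- step 2: rotate by a right angle
  have hc : Continuous (fun z : ℂ => Complex.I * z) := continuous_const.mul continuous_id
  have hO2 : IsOpen ((fun z : ℂ => Complex.I * z) ⁻¹' U) := hU.preimage hc
  have h3 : DifferentiableOn ℂ (fun z : ℂ => f (Complex.I * z))
      ((fun z : ℂ => Complex.I * z) ⁻¹' U) := by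
    refine hGLU (E := E) (fun z : ℂ => f (Complex.I * z)) _ hO2
      (hf.comp hc.continuousOn (fun z hz => hz)) ?_
    intro z hz him
    have h4 : DifferentiableAt ℂ f (Complex.I * z) := by
      apply h1 _ hz
      simp only [Complex.mul_re, Complex.I_re, Complex.I_im, zero_mul, one_mul, zero_sub]
      exact neg_ne_zero.2 him
    have h5 : DifferentiableAt ℂ (fun z : ℂ => Complex.I * z) z :=
      differentiableAt_id.const_mul Complex.I
    exact DifferentiableAt.comp (g := f) z h4 h5
  intro w hw
  have hI : Complex.I * (-Complex.I * w) = w := by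
    linear_combination (-w) * Complex.I_mul_I
  have hw' : -Complex.I * w ∈ (fun z : ℂ => Complex.I * z) ⁻¹' U := by
    change Complex.I * (-Complex.I * w) ∈ U
    rw [hI]
    exact hw
  have h6 : DifferentiableAt ℂ (fun z : ℂ => f (Complex.I * z)) (-Complex.I * w) :=
    (h3 _ hw').differentiableAt (hO2.mem_nhds hw')
  have h7 : DifferentiableAt ℂ (fun z : ℂ => -Complex.I * z) w :=
    differentiableAt_id.const_mul (-Complex.I)
  have h8 : DifferentiableAt ℂ ((fun z : ℂ => f (Complex.I * z)) ∘ (fun z : ℂ => -Complex.I * z))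
      w := DifferentiableAt.comp w h6 h7
  have h9 : ((fun z : ℂ => f (Complex.I * z)) ∘ (fun z : ℂ => -Complex.I * z)) = f := by
    funext z
    change f (Complex.I * (-Complex.I * z)) = f z
    congr 1
    linear_combination (-z) * Complex.I_mul_I
  rw [h9] at h8
  exact h8.differentiableWithinAt

end Pool.Agent.FBM
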