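import Pool.Agent.FBM.StmtE

/-!
FBM, block E: gluing along the real line.
-/

open MeasureTheory Set Filter Topology

namespace Pool.Agent.FBM

namespace GLU

open Complex

variable {E : Type} [NormedAddCommGroup E] [NormedSpace ℂ E]

lemma rect_zero (f : ℂ → E) (z w : ℂ) (hc : ContinuousOn f (Rectangle z w))
    (hd : ∀ u ∈ Rectangle z w, u.im ≠ 0 → DifferentiableAt ℂ f u)
    (h0 : (0 : ℝ) ∉ Ioo (min z.im w.im) (max z.im w.im)) :
    (∫ x : ℝ in z.re..w.re, f (x + z.im * I)) - (∫ x : ℝ in z.re..w.re, f (x + w.im * I)) +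
      I • (∫ y : ℝ in z.im..w.im, f (w.re + y * I)) -
      I • (∫ y : ℝ in z.im..w.im, f (z.re + y * I)) = 0 := by
  refine integral_boundary_rect_eq_zero_of_continuousOn_of_differentiableOn f z w hc ?_
  intro u hu
  refine (hd u ?_ ?_).differentiableWithinAt
  · exact ⟨Ioo_subset_Icc_self hu.1, Ioo_subset_Icc_self hu.2⟩
  · intro h
    apply h0
    have := hu.2
    rw [mem_preimage, h] at this
    exact this

lemma hor {f : ℂ → E} {z w : ℂ} (hc : ContinuousOn f (Rectangle z w)) {a : ℝ}
    (ha : a ∈ uIcc z.re w.re) {c d : ℝ} (hcI : c ∈ uIcc z.im w.im) (hdI : d ∈ uIcc z.im w.im) :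
    IntervalIntegrable (fun y : ℝ => f (a + y * I)) volume c d := by
  apply ContinuousOn.intervalIntegrable
  refine hc.comp (by fun_prop) fun y hy => ?_
  have h1 : y ∈ uIcc z.im w.im := uIcc_subset_uIcc hcI hdI hy
  refine ⟨?_, ?_⟩
  · simpa using ha
  · simpa using h1

theorem main (f : ℂ → E) (z w : ℂ) (hc : ContinuousOn f (Rectangle z w))
    (hd : ∀ u ∈ Rectangle z w, u.im ≠ 0 → DifferentiableAt ℂ f u) :
    (∫ x : ℝ in z.re..w.re, f (x + z.im * I)) - (∫ x : ℝ in z.re..w.re, f (x + w.im * I)) +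
      I • (∫ y : ℝ in z.im..w.im, f (w.re + y * I)) -
      I • (∫ y : ℝ in z.im..w.im, f (z.re + y * I)) = 0 := by
  by_cases h0 : (0 : ℝ) ∈ uIcc z.im w.im
  · have k1 : Rectangle z (w.re : ℂ) ⊆ Rectangle z w := by
      rintro u ⟨hu1, hu2⟩
      refine ⟨by simpa using hu1, ?_⟩
      refine uIcc_subset_uIcc left_mem_uIcc ?_ hu2
      simpa using h0
    have k2 : Rectangle (z.re : ℂ) w ⊆ Rectangle z w := by
      rintro u ⟨hu1, hu2⟩
      refine ⟨by simpa using hu1, ?_⟩
      refine uIcc_subset_uIcc ?_ right_mem_uIcc hu2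
      simpa using h0
    have e1 := rect_zero f z (w.re : ℂ) (hc.mono k1) (fun u hu => hd u (k1 hu)) (by
      rw [ofReal_im]
      rintro ⟨h1, h2⟩
      rcases min_lt_iff.1 h1 with h3 | h3
      · rcases lt_max_iff.1 h2 with h4 | h4
        · linarith
        · linarith
      · linarith)
    have e2 := rect_zero f (z.re : ℂ) w (hc.mono k2) (fun u hu => hd u (k2 hu)) (by
      rw [ofReal_im]
      rintro ⟨h1, h2⟩
      rcases min_lt_iff.1 h1 with h3 | h3
      · linarith
      · rcases lt_max_iff.1 h2 with h4 | h4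
        · linarith
        · linarith)
    simp only [ofReal_re, ofReal_im] at e1 e2
    have e3 := intervalIntegral.integral_add_adjacent_intervals
      (hor hc right_mem_uIcc left_mem_uIcc h0) (hor hc right_mem_uIcc h0 right_mem_uIcc)
    have e4 := intervalIntegral.integral_add_adjacent_intervals
      (hor hc left_mem_uIcc left_mem_uIcc h0) (hor hc left_mem_uIcc h0 right_mem_uIcc)
    rw [← e3, ← e4, smul_add, smul_add]
    have e5 := congrArg₂ (· + ·) e1 e2
    simp only [add_zero] at e5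
    rw [← e5]
    abel
  · refine rect_zero f z w hc hd fun h => h0 ?_
    exact Ioo_subset_Icc_self h

end GLU

theorem t_GLU : Stmt_GLU := by
  intro E _ _ _ f U hU hc hd
  refine (Complex.isConservativeOn_and_continuousOn_iff_isDifferentiableOn hU).1 ⟨?_, hc⟩
  intro z w hzw
  rw [← add_eq_zero_iff_eq_neg, Complex.wedgeIntegral_add_wedgeIntegral_eq]
  exact GLU.main f z w (hc.mono hzw) fun u hu => hd u (hzw hu)

end Pool.Agent.FBM
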