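import Pool.Agent.FBM.StmtE

/-!
# FBM, block E: product rule for absolutely continuous complex functions (helper92)
-/

open MeasureTheory Set Filter Topology
open scoped Real

namespace Pool.Agent.FBM

namespace IBP

/-- `f` is absolutely continuous on bounded intervals with derivative `f'`. -/
def ACc (f f' : ℝ → ℂ) : Prop :=
  (∀ a b : ℝ, IntervalIntegrable f' volume a b) ∧ ∀ a b : ℝ, f b - f a = ∫ x in a..b, f' x

theorem ACc.dist_le {f f' : ℝ → ℂ} (hf : ACc f f') (c x y : ℝ) :
    dist (f x) (f y) ≤ dist (∫ t in c..x, ‖f' t‖) (∫ t in c..y, ‖f' t‖) := by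
  have h1 : f x - f y = ∫ t in y..x, f' t := hf.2 y x
  have h2 : (∫ t in c..x, ‖f' t‖) - (∫ t in c..y, ‖f' t‖) = ∫ t in y..x, ‖f' t‖ :=
    intervalIntegral.integral_interval_sub_left (hf.1 c x).norm (hf.1 c y).norm
  rw [dist_eq_norm, dist_eq_norm, h1, h2, Real.norm_eq_abs]
  exact intervalIntegral.norm_integral_le_abs_integral_norm

theorem ac_of_dist_le {f : ℝ → ℂ} {h : ℝ → ℝ} {a b : ℝ}
    (hh : AbsolutelyContinuousOnInterval h a b)
    (hd : ∀ x y, dist (f x) (f y) ≤ dist (h x) (h y)) : AbsolutelyContinuousOnInterval f a b := by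
  unfold AbsolutelyContinuousOnInterval at hh ⊢
  exact squeeze_zero (fun _ => Finset.sum_nonneg (fun _ _ => dist_nonneg))
    (fun _ => Finset.sum_le_sum (fun _ _ => hd _ _)) hh

theorem ACc.ac {f f' : ℝ → ℂ} (hf : ACc f f') (a b : ℝ) : AbsolutelyContinuousOnInterval f a b :=
  ac_of_dist_le ((hf.1 a b).norm.absolutelyContinuousOnInterval_intervalIntegral
    (c := a) left_mem_uIcc) (hf.dist_le a)

theorem ACc.continuous {f f' : ℝ → ℂ} (hf : ACc f f') : Continuous f := by
  rw [continuous_iff_continuousAt]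
  intro x
  have h := (hf.ac (x - 1) (x + 1)).continuousOn
  rw [uIcc_of_le (by linarith)] at h
  exact h.continuousAt (Icc_mem_nhds (by linarith) (by linarith))

theorem ACc.prim {F : ℝ → ℂ} (hF : ∀ a b : ℝ, IntervalIntegrable F volume a b) (c : ℝ) :
    ACc (fun x => ∫ t in c..x, F t) F :=
  ⟨hF, fun a b => intervalIntegral.integral_interval_sub_left (hF c b) (hF c a)⟩

theorem ACc.ae_hasDerivAt {f f' : ℝ → ℂ} (hf : ACc f f') :
    ∀ᵐ x, HasDerivAt f (f' x) x := by
  have h : LocallyIntegrable f' volume := by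
    rw [locallyIntegrable_iff]
    intro k hk
    obtain ⟨r, hr⟩ := hk.isBounded.subset_closedBall 0
    rw [Real.closedBall_eq_Icc] at hr
    refine IntegrableOn.mono_set ?_ hr
    rcases le_or_gt (0 - r) (0 + r) with h | h
    · have := (hf.1 (0 - r) (0 + r)).1
      rw [integrableOn_Icc_iff_integrableOn_Ioc]
      exact this
    · rw [Icc_eq_empty (not_le.mpr h)]
      exact integrableOn_empty
  filter_upwards [_root_.LocallyIntegrable.ae_hasDerivAt_integral h] with x hx
  have h1 := (hx 0).const_add (f 0)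
  refine h1.congr_of_eventuallyEq (Eventually.of_forall (fun y => ?_))
  have := hf.2 0 y
  simp only
  rw [← this]; abel

theorem ac_mul {f g : ℝ → ℂ} {a b : ℝ}
    (hf : AbsolutelyContinuousOnInterval f a b) (hg : AbsolutelyContinuousOnInterval g a b) :
    AbsolutelyContinuousOnInterval (fun x => f x * g x) a b := by
  obtain ⟨C, hC⟩ := hf.exists_bound
  obtain ⟨D, hD⟩ := hg.exists_bound
  unfold AbsolutelyContinuousOnInterval at hf hg
  apply squeeze_zero' ?_ ?_
    (by simpa using (hg.const_mul C).add (hf.const_mul D))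
  · exact Filter.Eventually.of_forall <| fun _ ↦ Finset.sum_nonneg (fun i hi ↦ dist_nonneg)
  rw [eventually_inf_principal]
  filter_upwards with (n, I) hnI
  simp only [Finset.mul_sum, ← Finset.sum_add_distrib]
  gcongr with i hi
  simp only [AbsolutelyContinuousOnInterval.disjWithin, mem_ofPred_eq] at hnI
  have m1 := hC _ (hnI.left i hi |>.left)
  have m2 := hD _ (hnI.left i hi |>.right)
  have e : f (I i).1 * g (I i).1 - f (I i).2 * g (I i).2 =
      f (I i).1 * (g (I i).1 - g (I i).2) + (f (I i).1 - f (I i).2) * g (I i).2 := by ring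
  rw [dist_eq_norm, dist_eq_norm, dist_eq_norm, e]
  refine (norm_add_le _ _).trans (add_le_add ?_ ?_)
  · rw [norm_mul]
    gcongr
  · rw [norm_mul, mul_comm]
    gcongr

theorem mul_int {f' g : ℝ → ℂ} {a b : ℝ}
    (hf : IntervalIntegrable f' volume a b) (hg : Continuous g) :
    IntervalIntegrable (fun x => f' x * g x) volume a b := by
  exact hf.mul_continuousOn hg.continuousOn

/-- product rule, global form -/
theorem prod_rule {f f' g g' : ℝ → ℂ} (hf : ACc f f') (hg : ACc g g') :
    ACc (fun x => f x * g x) (fun x => f' x * g x + f x * g' x) := by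
  have hint : ∀ a b : ℝ, IntervalIntegrable (fun x => f' x * g x + f x * g' x) volume a b :=
    fun a b => (mul_int (hf.1 a b) hg.continuous).add
      ((hg.1 a b).continuousOn_mul hf.continuous.continuousOn)
  refine ⟨hint, fun a b => ?_⟩
  have hp := ACc.prim hint a
  have hac := (ac_mul (hf.ac a b) (hg.ac a b)).sub (hp.ac a b)
  have hd : ∀ᵐ x, x ∈ uIcc a b → HasDerivAt ((fun x => f x * g x) -
      fun x => ∫ t in a..x, (f' t * g t + f t * g' t)) 0 x := by
    filter_upwards [hf.ae_hasDerivAt, hg.ae_hasDerivAt, hp.ae_hasDerivAt] with x h1 h2 h3 _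
    have h5 := (h1.mul h2).sub h3
    have h6 : f' x * g x + f x * g' x - (f' x * g x + f x * g' x) = 0 := sub_self _
    rw [h6] at h5
    exact h5
  obtain ⟨C, hC⟩ := hac.const_of_ae_hasDerivAt_zero hd
  have c1 := hC a left_mem_uIcc
  have c2 := hC b right_mem_uIcc
  simp only [Pi.sub_apply, intervalIntegral.integral_same, sub_zero] at c1 c2
  rw [← c1] at c2
  change f b * g b - f a * g a = _
  rw [← c2]; abel

/-- extension of an absolutely continuous function on `[a, b]` -/
theorem extend {f f' : ℝ → ℂ} {a b : ℝ} (hab : a ≤ b) (hi : IntervalIntegrable f' volume a b)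
    (h : ∀ t ∈ Icc a b, f t = f a + ∫ s in a..t, f' s) :
    ∃ F, ACc F ((Ioc a b).indicator f') ∧ ∀ t ∈ Icc a b, F t = f t := by
  have hint : Integrable ((Ioc a b).indicator f') volume := by
    rw [integrable_indicator_iff measurableSet_Ioc]
    exact (intervalIntegrable_iff_integrableOn_Ioc_of_le hab).1 hi
  have hint' : ∀ c d : ℝ, IntervalIntegrable ((Ioc a b).indicator f') volume c d :=
    fun c d => hint.intervalIntegrable
  refine ⟨fun t => f a + ∫ s in a..t, (Ioc a b).indicator f' s, ⟨hint', fun c d => ?_⟩, ?_⟩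
  · have h0 : (∫ s in a..d, (Ioc a b).indicator f' s) - (∫ s in a..c, (Ioc a b).indicator f' s) =
        ∫ s in c..d, (Ioc a b).indicator f' s :=
      intervalIntegral.integral_interval_sub_left (hint' a d) (hint' a c)
    rw [← h0]; ring
  · intro t ht
    have h1 : ∫ s in a..t, (Ioc a b).indicator f' s = ∫ s in a..t, f' s := by
      refine intervalIntegral.integral_congr_ae (Eventually.of_forall fun s hs => ?_)
      rw [uIoc_of_le ht.1] at hs
      exact indicator_of_mem (show s ∈ Ioc a b from ⟨hs.1, hs.2.trans ht.2⟩) _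
    simp only [h1]
    exact (h t ht).symm

end IBP

open IBP in
theorem t_IBP : Stmt_IBP := by
  intro f g f' g' a b hab hf' hg' hf hg
  obtain ⟨F, hF, hF2⟩ := extend hab hf' hf
  obtain ⟨G, hG, hG2⟩ := extend hab hg' hg
  have hP := prod_rule hF hG
  have hEq : ∀ s ∈ Ioc a b, (Ioc a b).indicator f' s * G s + F s * (Ioc a b).indicator g' s =
      f' s * g s + f s * g' s := by
    intro s hs
    rw [indicator_of_mem hs, indicator_of_mem hs, hF2 s (Ioc_subset_Icc_self hs),
      hG2 s (Ioc_subset_Icc_self hs)]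
  refine ⟨?_, ?_⟩
  · have h1 := hP.1 a b
    rw [intervalIntegrable_iff_integrableOn_Ioc_of_le hab] at h1 ⊢
    exact h1.congr_fun hEq measurableSet_Ioc
  · intro t ht
    have h1 := hP.2 a t
    have ha : a ∈ Icc a b := ⟨le_refl _, hab⟩
    simp only [hF2 t ht, hG2 t ht, hF2 a ha, hG2 a ha] at h1
    have h2 : ∫ x in a..t, ((Ioc a b).indicator f' x * G x + F x * (Ioc a b).indicator g' x) =
        ∫ x in a..t, (f' x * g x + f x * g' x) := by
      refine intervalIntegral.integral_congr_ae (Eventually.of_forall fun s hs => ?_)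
      rw [uIoc_of_le ht.1] at hs
      exact hEq s ⟨hs.1, hs.2.trans ht.2⟩
    rw [h2] at h1
    rw [← h1]; ring

end Pool.Agent.FBM
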