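import Pool.Agent.FBM.StmtE

/-!
# OBD: linear holomorphic differential equations with initial value on the circle
-/

open MeasureTheory Set Filter Topology
open scoped Real

namespace Pool.Agent.FBM

namespace OBD

theorem norm_ep (r t : ℝ) : ‖ep r t‖ = |r| := by
  rw [ep, norm_mul, Complex.norm_exp_ofReal_mul_I, mul_one, Complex.norm_real, Real.norm_eq_abs]

theorem ep_per (r t : ℝ) : ep r (t + 2 * π) = ep r t := by
  have h : ((t + 2 * π : ℝ) : ℂ) * Complex.I = (t : ℂ) * Complex.I + 2 * π * Complex.I := by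
    push_cast
    ring
  rw [ep, ep, h, Complex.exp_add, Complex.exp_two_pi_mul_I, mul_one]

theorem mul_ep (r t : ℝ) : (r : ℂ) * ep 1 t = ep r t := by
  simp [ep]

theorem hasDerivAt_ep (r t : ℝ) : HasDerivAt (fun s : ℝ => ep r s) (Complex.I * ep r t) t := by
  have h1 : HasDerivAt (fun s : ℝ => (s : ℂ) * Complex.I) Complex.I t := by
    simpa using (Complex.ofRealCLM.hasDerivAt (x := t)).mul_const Complex.I
  have h2 := (h1.cexp).const_mul (r : ℂ)
  have e : (r : ℂ) * (Complex.exp (t * Complex.I) * Complex.I) = Complex.I * ep r t := by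
    rw [ep]
    ring
  rw [e] at h2
  exact h2

theorem continuous_ep (r : ℝ) : Continuous fun s : ℝ => ep r s :=
  continuous_iff_continuousAt.2 fun t => (hasDerivAt_ep r t).continuousAt

theorem exists_ep {z : ℂ} (hz : ‖z‖ = 1) (t₀ : ℝ) : ∃ t ∈ Icc t₀ (t₀ + 2 * π), ep 1 t = z := by
  obtain ⟨t, ht, ht'⟩ := (show Function.Periodic (fun s => ep 1 s) (2 * π) from
    ep_per 1).exists_mem_Ico Real.two_pi_pos z.arg t₀
  refine ⟨t, Ico_subset_Icc_self ht, ?_⟩
  have e : ep 1 z.arg = z := by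
    have := Complex.norm_mul_exp_arg_mul_I z
    rw [hz] at this
    exact this
  rw [← e]
  exact ht'.symm

section

variable {E : Type} [NormedAddCommGroup E] [NormedSpace ℂ E] [CompleteSpace E]
  {B : ℂ → E →L[ℂ] E} {b : ℝ → E →L[ℂ] E}

/-- The coefficient on the circle of radius `r`. -/
noncomputable def co (B : ℂ → E →L[ℂ] E) (r t : ℝ) : E →L[ℝ] E :=
  ((Complex.I * ep r t) • B (ep r t)).restrictScalars ℝ

theorem mem_ball {r : ℝ} (h0 : 0 < r) (h1 : r < 1) (t : ℝ) : ep r t ∈ Metric.ball (0 : ℂ) 1 := by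
  rw [mem_ball_zero_iff, norm_ep, abs_of_pos h0]
  exact h1

theorem continuous_co (hB : DifferentiableOn ℂ B (Metric.ball 0 1)) {r : ℝ} (h0 : 0 < r)
    (h1 : r < 1) : Continuous (co B r) := by
  have h2 : Continuous fun t => B (ep r t) :=
    hB.continuousOn.comp_continuous (continuous_ep r) (mem_ball h0 h1)
  have h3 : Continuous fun t => (Complex.I * ep r t) • B (ep r t) :=
    (continuous_const.mul (continuous_ep r)).smul h2
  exact (ContinuousLinearMap.restrictScalarsL ℂ E E ℝ ℝ).continuous.comp h3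

variable {m : ℂ → E} (hm : ∀ z ∈ Metric.ball (0 : ℂ) 1, HasDerivAt m (B z (m z)) z)

include hm in
theorem hasDerivAt_T {r : ℝ} (h0 : 0 < r) (h1 : r < 1) (t : ℝ) :
    HasDerivAt (fun s : ℝ => m (ep r s)) (co B r t (m (ep r t))) t :=
  (hm _ (mem_ball h0 h1 t)).scomp t (hasDerivAt_ep r t)

include hm in
theorem continuous_T {r : ℝ} (h0 : 0 < r) (h1 : r < 1) : Continuous fun s : ℝ => m (ep r s) :=
  continuous_iff_continuousAt.2 fun t => (hasDerivAt_T hm h0 h1 t).continuousAt

include hm in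
theorem T_eq (hB : DifferentiableOn ℂ B (Metric.ball 0 1)) {r : ℝ} (h0 : 0 < r) (h1 : r < 1)
    (t₀ t : ℝ) : m (ep r t) = m (ep r t₀) + ∫ s in t₀..t, co B r s (m (ep r s)) := by
  rw [intervalIntegral.integral_eq_sub_of_hasDerivAt (f := fun s => m (ep r s))
    (fun s _ => hasDerivAt_T hm h0 h1 s)]
  · abel
  · exact ((continuous_co hB h0 h1).clm_apply (continuous_T hm h0 h1)).intervalIntegrable _ _


omit [CompleteSpace E] in
theorem cm_eq (f : ℝ → ℝ) : ∫ t, f t ∂cm = ∫ t in (-π)..π, f t := by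
  rw [intervalIntegral.integral_of_le (by linarith [Real.pi_pos])]
  rfl

omit [CompleteSpace E] in
theorem b_int (hb : BdL B b) (a c : ℝ) : IntervalIntegrable b volume a c := by
  refine hb.per.intervalIntegrable Real.two_pi_pos.ne' (t := -π) ?_ a c
  have e : -π + 2 * π = π := by ring
  rw [e, intervalIntegrable_iff_integrableOn_Ioc_of_le (by linarith [Real.pi_pos])]
  exact hb.int

omit [CompleteSpace E] in
theorem b_int' (hb : BdL B b) (a c : ℝ) :
    IntervalIntegrable (fun t => (b t).restrictScalars ℝ) volume a c := by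
  have h := b_int hb a c
  exact ⟨(ContinuousLinearMap.restrictScalarsL ℂ E E ℝ ℝ).integrable_comp h.1,
    (ContinuousLinearMap.restrictScalarsL ℂ E E ℝ ℝ).integrable_comp h.2⟩

omit [CompleteSpace E] in
theorem l1_eq (hb : BdL B b) (r t₀ : ℝ) :
    ∫ s in t₀..(t₀ + 2 * π), ‖co B r s - (b s).restrictScalars ℝ‖ =
      ∫ t, ‖(Complex.I * ep r t) • B (ep r t) - b t‖ ∂cm := by
  have h1 : ∀ s, ‖co B r s - (b s).restrictScalars ℝ‖ =
      ‖(Complex.I * ep r s) • B (ep r s) - b s‖ := by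
    intro s
    have : co B r s - (b s).restrictScalars ℝ =
        ((Complex.I * ep r s) • B (ep r s) - b s).restrictScalars ℝ := rfl
    rw [this, ContinuousLinearMap.norm_restrictScalars]
  have hper : Function.Periodic (fun s => ‖(Complex.I * ep r s) • B (ep r s) - b s‖)
      (2 * π) := by
    intro s
    simp only [ep_per, hb.per s]
  rw [cm_eq, intervalIntegral.integral_congr fun s _ => h1 s,
    hper.intervalIntegral_add_eq t₀ (-π)]
  congr 1
  ring


omit [CompleteSpace E] in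
theorem g_int (hb : BdL B b) {c : ℝ → E} (hc : Continuous c) (x y : ℝ) :
    IntervalIntegrable (fun s => b s (c s)) volume x y := by
  have h := b_int hb x y
  obtain ⟨C, hC⟩ := (isCompact_uIcc (a := x) (b := y)).exists_bound_of_continuousOn
    hc.continuousOn
  rw [intervalIntegrable_iff] at h ⊢
  have h1 : Integrable (fun s => C * ‖b s‖) (volume.restrict (uIoc x y)) := h.norm.const_mul C
  refine Integrable.mono' h1 ?_ ?_
  · exact (ContinuousLinearMap.id ℂ (E →L[ℂ] E)).aestronglyMeasurable_comp₂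
      h.aestronglyMeasurable hc.aestronglyMeasurable
  · filter_upwards [ae_restrict_mem measurableSet_uIoc] with s hs
    rw [mul_comm]
    exact ((b s).le_opNorm _).trans
      (mul_le_mul_of_nonneg_left (hC s (uIoc_subset_uIcc hs)) (norm_nonneg _))

/-- The scaled functions. -/
theorem scale_diff (hm : ∀ z ∈ Metric.ball (0 : ℂ) 1, HasDerivAt m (B z (m z)) z) {r : ℝ}
    (h0 : 0 < r) (h1 : r < 1) {z : ℂ} (hz : z ∈ Metric.closedBall (0 : ℂ) 1) :
    HasDerivAt (fun w => m ((r : ℂ) * w)) ((r : ℂ) • B (r * z) (m (r * z))) z := by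
  have hrz : (r : ℂ) * z ∈ Metric.ball (0 : ℂ) 1 := by
    rw [mem_closedBall_zero_iff] at hz
    rw [mem_ball_zero_iff, norm_mul, Complex.norm_real, Real.norm_eq_abs, abs_of_pos h0]
    nlinarith
  have h2 : HasDerivAt (fun w : ℂ => (r : ℂ) * w) (r : ℂ) z := by
    simpa using (hasDerivAt_id z).const_mul (r : ℂ)
  exact (hm _ hrz).scomp z h2


/-- The limit of the scaled functions. -/
theorem limit (hB : DifferentiableOn ℂ B (Metric.ball 0 1)) {r : ℕ → ℝ} (h0 : ∀ n, 0 < r n)
    (h1 : ∀ n, r n < 1) (hr : Tendsto r atTop (𝓝 1)) {m : ℕ → ℂ → E}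
    (hm : ∀ n, ∀ z ∈ Metric.ball (0 : ℂ) 1, HasDerivAt (m n) (B z (m n z)) z) {t₀ : ℝ}
    {T₀ : ℝ → E} (hT : TendstoUniformlyOn (fun n t => m n (ep (r n) t)) T₀ atTop
      (Icc t₀ (t₀ + 2 * π))) :
    ∃ M : ℂ → E, ContinuousOn M (Metric.closedBall 0 1) ∧
      (∀ z ∈ Metric.ball (0 : ℂ) 1, HasDerivAt M (B z (M z)) z) ∧
      ∀ t ∈ Icc t₀ (t₀ + 2 * π), M (ep 1 t) = T₀ t := by
  have hder : ∀ n, ∀ z ∈ Metric.closedBall (0 : ℂ) 1, HasDerivAt (fun w => m n ((r n : ℂ) * w))
      ((r n : ℂ) • B (r n * z) (m n (r n * z))) z :=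
    fun n z hz => scale_diff (hm n) (h0 n) (h1 n) hz
  have hcauchy : UniformCauchySeqOn (fun n z => m n ((r n : ℂ) * z)) atTop
      (Metric.closedBall (0 : ℂ) 1) := by
    have h2 := hT.uniformCauchySeqOn
    rw [Metric.uniformCauchySeqOn_iff] at h2 ⊢
    intro ε hε
    obtain ⟨N, hN⟩ := h2 (ε / 2) (half_pos hε)
    refine ⟨N, fun k hk l hl z hz => ?_⟩
    have hd : DiffContOnCl ℂ (fun w => m k ((r k : ℂ) * w) - m l ((r l : ℂ) * w))
        (Metric.ball (0 : ℂ) 1) := by
      apply DifferentiableOn.diffContOnCl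
      rw [closure_ball (0 : ℂ) one_ne_zero]
      intro w hw
      exact ((hder k w hw).differentiableAt.sub
        (hder l w hw).differentiableAt).differentiableWithinAt
    rw [dist_eq_norm]
    refine lt_of_le_of_lt (Complex.norm_le_of_forall_mem_frontier_norm_le Metric.isBounded_ball hd
      (C := ε / 2) ?_ (by rwa [closure_ball (0 : ℂ) one_ne_zero])) (half_lt_self hε)
    intro w hw
    rw [frontier_ball (0 : ℂ) one_ne_zero, mem_sphere_zero_iff_norm] at hw
    obtain ⟨t, ht, rfl⟩ := exists_ep hw t₀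
    have h3 := hN k hk l hl t ht
    rw [dist_eq_norm] at h3
    rw [mul_ep, mul_ep]
    exact h3.le
  have hpt : ∀ z : ℂ, ∃ x : E, z ∈ Metric.closedBall (0 : ℂ) 1 →
      Tendsto (fun n => m n ((r n : ℂ) * z)) atTop (𝓝 x) := by
    intro z
    by_cases hz : z ∈ Metric.closedBall (0 : ℂ) 1
    · obtain ⟨x, hx⟩ := cauchySeq_tendsto_of_complete (hcauchy.cauchySeq hz)
      exact ⟨x, fun _ => hx⟩
    · exact ⟨0, fun h => absurd h hz⟩
  choose M hM using hpt
  have hunif : TendstoUniformlyOn (fun n z => m n ((r n : ℂ) * z)) M atTop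
      (Metric.closedBall (0 : ℂ) 1) :=
    hcauchy.tendstoUniformlyOn_of_tendsto fun z hz => hM z hz
  have hcont : ContinuousOn M (Metric.closedBall (0 : ℂ) 1) :=
    hunif.continuousOn (Filter.Frequently.of_forall fun n z hz =>
      (hder n z hz).continuousAt.continuousWithinAt)
  refine ⟨M, hcont, ?_, ?_⟩
  · have hloc : TendstoLocallyUniformlyOn (fun n z => m n ((r n : ℂ) * z)) M atTop
        (Metric.ball (0 : ℂ) 1) :=
      (hunif.mono Metric.ball_subset_closedBall).tendstoLocallyUniformlyOn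
    have hdn : ∀ᶠ n in atTop, DifferentiableOn ℂ (fun z => m n ((r n : ℂ) * z))
        (Metric.ball (0 : ℂ) 1) := Eventually.of_forall fun n z hz =>
      (hder n z (Metric.ball_subset_closedBall hz)).differentiableAt.differentiableWithinAt
    have hdM : DifferentiableOn ℂ M (Metric.ball (0 : ℂ) 1) :=
      hloc.differentiableOn hdn Metric.isOpen_ball
    have hdd := hloc.deriv hdn Metric.isOpen_ball
    intro z hz
    have hz' := Metric.ball_subset_closedBall hz
    have e1 : Tendsto (fun n => (r n : ℂ) • B (r n * z) (m n (r n * z))) atTop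
        (𝓝 (deriv M z)) := by
      have := hdd.tendsto_at hz
      refine this.congr fun n => ?_
      exact (hder n z hz').deriv
    have e2 : Tendsto (fun n => (r n : ℂ) • B (r n * z) (m n (r n * z))) atTop
        (𝓝 ((1 : ℂ) • B z (M z))) := by
      have hrc : Tendsto (fun n => (r n : ℂ)) atTop (𝓝 (1 : ℂ)) := by
        have := (Complex.continuous_ofReal.tendsto 1).comp hr
        rw [Complex.ofReal_one] at this
        exact this
      have hrz : Tendsto (fun n => (r n : ℂ) * z) atTop (𝓝 z) := by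
        simpa using hrc.mul_const z
      have hBz : Tendsto (fun n => B ((r n : ℂ) * z)) atTop (𝓝 (B z)) :=
        ((hB.continuousOn.continuousAt (Metric.isOpen_ball.mem_nhds hz)).tendsto).comp hrz
      exact hrc.smul (((isBoundedBilinearMap_apply (𝕜 := ℂ) (E := E) (F := E)).continuous.tendsto
        (B z, M z)).comp (hBz.prodMk_nhds (hM z hz')))
    have e3 := tendsto_nhds_unique e1 e2
    rw [one_smul] at e3
    rw [← e3]
    exact (hdM.differentiableAt (Metric.isOpen_ball.mem_nhds hz)).hasDerivAt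
  · intro t ht
    have hz : ep 1 t ∈ Metric.closedBall (0 : ℂ) 1 := by
      rw [mem_closedBall_zero_iff, norm_ep, abs_one]
    refine tendsto_nhds_unique (hM _ hz) ?_
    simp only [mul_ep]
    exact hT.tendsto_at ht


/-- From one period to the line. -/
theorem all_t (hb : BdL B b) {M : ℂ → E} (hM : ContinuousOn M (Metric.closedBall 0 1)) {t₀ : ℝ}
    {v : E} (h : ∀ t ∈ Icc t₀ (t₀ + 2 * π), M (ep 1 t) = v + ∫ s in t₀..t, b s (M (ep 1 s))) :
    ∀ t : ℝ, M (ep 1 t) = v + ∫ s in t₀..t, b s (M (ep 1 s)) := by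
  have hc : Continuous fun s => M (ep 1 s) :=
    hM.comp_continuous (continuous_ep 1) fun s => by
      rw [mem_closedBall_zero_iff, norm_ep, abs_one]
  have hper : Function.Periodic (fun s => b s (M (ep 1 s))) (2 * π) := by
    intro s
    simp only [ep_per, hb.per s]
  have hint := g_int hb hc
  have h0 := h t₀ (left_mem_Icc.2 (by linarith [Real.pi_pos]))
  have h1 := h (t₀ + 2 * π) (right_mem_Icc.2 (by linarith [Real.pi_pos]))
  rw [intervalIntegral.integral_same, add_zero] at h0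
  rw [ep_per, h0] at h1
  have h2 : ∫ s in t₀..(t₀ + 2 * π), b s (M (ep 1 s)) = 0 := by
    have := h1.symm
    rwa [add_eq_left] at this
  intro t
  obtain ⟨n, hn, -⟩ := existsUnique_add_zsmul_mem_Ico Real.two_pi_pos t t₀
  have h3 := h (t + n • (2 * π)) (Ico_subset_Icc_self hn)
  have h4 : ep 1 (t + n • (2 * π)) = ep 1 t :=
    (show Function.Periodic (fun s => ep 1 s) (2 * π) from ep_per 1).zsmul n t
  have h5 : ∫ s in t..(t + n • (2 * π)), b s (M (ep 1 s)) = 0 := by
    rw [hper.intervalIntegral_add_zsmul_eq n t hint, hper.intervalIntegral_add_eq t t₀, h2,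
      smul_zero]
  rw [h4, ← intervalIntegral.integral_add_adjacent_intervals (hint t₀ t)
    (hint t (t + n • (2 * π))), h5, add_zero] at h3
  exact h3

end

end OBD

open OBD in
theorem t_OBD (hOCX : Stmt_OCX) (hOLM : Stmt_OLM) : Stmt_OBD := by
  intro E _ _ _ B b hB hb t₀ v
  have hr0 : ∀ n : ℕ, 0 < 1 - 1 / ((n : ℝ) + 2) := by
    intro n
    have : (0 : ℝ) < (n : ℝ) + 2 := by positivity
    rw [sub_pos, div_lt_one this]
    have : (0 : ℝ) ≤ n := Nat.cast_nonneg n
    linarith
  have hr1 : ∀ n : ℕ, 1 - 1 / ((n : ℝ) + 2) < 1 := by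
    intro n
    have : (0 : ℝ) < 1 / ((n : ℝ) + 2) := by positivity
    linarith
  have hr : Tendsto (fun n : ℕ => 1 - 1 / ((n : ℝ) + 2)) atTop (𝓝 1) := by
    have h1 : Tendsto (fun n : ℕ => 1 / ((n : ℝ) + 2)) atTop (𝓝 0) := by
      have h2 : Tendsto (fun n : ℕ => (n : ℝ) + 2) atTop atTop :=
        tendsto_atTop_add_const_right _ _ tendsto_natCast_atTop_atTop
      simp only [one_div]
      exact h2.inv_tendsto_atTop
    simpa using (tendsto_const_nhds (x := (1 : ℝ))).sub h1
  set r : ℕ → ℝ := fun n => 1 - 1 / ((n : ℝ) + 2) with hrdef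
  have hr' : Tendsto r atTop (𝓝[<] 1) :=
    tendsto_nhdsWithin_iff.2 ⟨hr, Eventually.of_forall hr1⟩
  have hex : ∀ n, ∃ m : ℂ → E, m (ep (r n) t₀) = v ∧
      ∀ z ∈ Metric.ball (0 : ℂ) 1, HasDerivAt m (B z (m z)) z :=
    fun n => hOCX B hB _ (mem_ball (hr0 n) (hr1 n) t₀) v
  choose m hm0 hm using hex
  have hl : Tendsto (fun n => ∫ s in t₀..(t₀ + 2 * π), ‖co B (r n) s - (b s).restrictScalars ℝ‖)
      atTop (𝓝 0) := by
    simp only [l1_eq hb]
    exact hb.lim.comp hr'
  obtain ⟨T₀, hT1, hT2, hT3⟩ := hOLM (fun n => co B (r n)) (fun s => (b s).restrictScalars ℝ)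
    t₀ (t₀ + 2 * π) (by linarith [Real.pi_pos])
    (fun n => (continuous_co hB (hr0 n) (hr1 n)).continuousOn) (b_int' hb _ _) hl
    (fun n t => m n (ep (r n) t)) v
    (fun n => (continuous_T (hm n) (hr0 n) (hr1 n)).continuousOn)
    (fun n t _ => by
      have := T_eq (hm n) hB (hr0 n) (hr1 n) t₀ t
      rwa [hm0 n] at this)
  obtain ⟨M, hM1, hM2, hM3⟩ := limit hB hr0 hr1 hr hm hT2
  have hM4 : ∀ t ∈ Icc t₀ (t₀ + 2 * π), M (ep 1 t) = v + ∫ s in t₀..t, b s (M (ep 1 s)) := by
    intro t ht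
    rw [hM3 t ht, hT3 t ht]
    congr 1
    refine intervalIntegral.integral_congr fun s hs => ?_
    rw [uIcc_of_le ht.1] at hs
    simp only [ContinuousLinearMap.coe_restrictScalars']
    rw [hM3 s ⟨hs.1, hs.2.trans ht.2⟩]
  refine ⟨M, hM1, ?_, hM2, all_t hb hM1 hM4⟩
  have := hM4 t₀ (left_mem_Icc.2 (by linarith [Real.pi_pos]))
  rwa [intervalIntegral.integral_same, add_zero] at this

end Pool.Agent.FBM
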