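import Pool.Agent.FBM.StmtE

/-!
# OCX: linear holomorphic differential equations in the disc (Picard iteration)
-/

open MeasureTheory Set Filter Topology
open scoped Real

namespace Pool.Agent.FBM

namespace OCX

variable {E : Type} [NormedAddCommGroup E] [NormedSpace ℂ E]

/-- One step of the iteration. -/
theorem step {B : ℂ → E →L[ℂ] E} {z₀ : ℂ} {ρ K b : ℝ} {n : ℕ} {f g : ℂ → E} (hK : 0 ≤ K)
    (hb : 0 ≤ b) (hρ : ρ < 1) (hz₀ : ‖z₀‖ ≤ ρ) (hB : ∀ z : ℂ, ‖z‖ ≤ ρ → ‖B z‖ ≤ K)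
    (hf : ∀ z : ℂ, ‖z‖ ≤ ρ → ‖f z‖ ≤ b * (K * ‖z - z₀‖) ^ n / n.factorial) (hg : g z₀ = 0)
    (hd : ∀ z ∈ Metric.ball (0 : ℂ) 1, HasDerivAt g (B z (f z)) z) (z : ℂ) (hz : ‖z‖ ≤ ρ) :
    ‖g z‖ ≤ b * (K * ‖z - z₀‖) ^ (n + 1) / (n + 1).factorial := by
  set r : ℝ := ‖z - z₀‖ with hr
  have hseg : ∀ t ∈ Icc (0 : ℝ) 1, ‖z₀ + (t : ℂ) * (z - z₀)‖ ≤ ρ := by
    intro t ht
    have h1 : z₀ + (t : ℂ) * (z - z₀) = ((1 - t : ℝ) : ℂ) * z₀ + (t : ℂ) * z := by
      push_cast
      ring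
    rw [h1]
    refine (norm_add_le _ _).trans ?_
    rw [norm_mul, norm_mul, Complex.norm_real, Complex.norm_real, Real.norm_eq_abs,
      Real.norm_eq_abs, abs_of_nonneg ht.1, abs_of_nonneg (sub_nonneg.2 ht.2)]
    have h2 : (1 - t) * ‖z₀‖ ≤ (1 - t) * ρ :=
      mul_le_mul_of_nonneg_left hz₀ (sub_nonneg.2 ht.2)
    have h3 : t * ‖z‖ ≤ t * ρ := mul_le_mul_of_nonneg_left hz ht.1
    linarith
  have hder : ∀ t ∈ Icc (0 : ℝ) 1, HasDerivAt (fun s : ℝ => g (z₀ + (s : ℂ) * (z - z₀)))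
      ((z - z₀) • B (z₀ + (t : ℂ) * (z - z₀)) (f (z₀ + (t : ℂ) * (z - z₀)))) t := by
    intro t ht
    have h1 : HasDerivAt (fun s : ℂ => z₀ + s * (z - z₀)) (z - z₀) (t : ℂ) := by
      have h2 := ((hasDerivAt_id (t : ℂ)).mul_const (z - z₀)).const_add z₀
      rw [one_mul] at h2
      exact h2
    have h3 : HasDerivAt g (B (z₀ + (t : ℂ) * (z - z₀)) (f (z₀ + (t : ℂ) * (z - z₀))))
        (z₀ + (t : ℂ) * (z - z₀)) := by
      refine hd _ ?_
      rw [mem_ball_zero_iff]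
      exact (hseg t ht).trans_lt hρ
    exact HasDerivAt.scomp t h3 h1.comp_ofReal
  have hbd := image_norm_le_of_norm_deriv_right_le_deriv_boundary
    (f := fun s : ℝ => g (z₀ + (s : ℂ) * (z - z₀)))
    (f' := fun t : ℝ => (z - z₀) • B (z₀ + (t : ℂ) * (z - z₀)) (f (z₀ + (t : ℂ) * (z - z₀))))
    (a := 0) (b := 1)
    (B := fun t : ℝ => b * (K * (t * r)) ^ (n + 1) / (n + 1).factorial)
    (B' := fun t : ℝ => b * (K * r) * (K * (t * r)) ^ n / n.factorial)
    (fun t ht => (hder t ht).continuousAt.continuousWithinAt)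
    (fun t ht => (hder t ⟨ht.1, ht.2.le⟩).hasDerivWithinAt) ?_ ?_ ?_
    (right_mem_Icc.2 zero_le_one)
  · simp only [Complex.ofReal_one, one_mul, add_sub_cancel] at hbd
    exact hbd
  · simp only [Complex.ofReal_zero, zero_mul, add_zero, mul_zero, hg, norm_zero]
    positivity
  · intro t
    have h1 : HasDerivAt (fun t : ℝ => K * (t * r)) (K * r) t := by
      have h2 := ((hasDerivAt_id t).mul_const r).const_mul K
      rw [one_mul] at h2
      exact h2
    have h3 := ((h1.pow (n + 1)).const_mul b).div_const ((n + 1).factorial : ℝ)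
    refine h3.congr_deriv ?_
    rw [Nat.factorial_succ]
    have h4 : ((n : ℝ) + 1) ≠ 0 := by positivity
    have h5 : (n.factorial : ℝ) ≠ 0 := by positivity
    push_cast
    field_simp
  · intro t ht
    have ht' : t ∈ Icc (0 : ℝ) 1 := ⟨ht.1, ht.2.le⟩
    have h1 := hseg t ht'
    have h2 := hf _ h1
    have h3 : ‖z₀ + (t : ℂ) * (z - z₀) - z₀‖ = t * r := by
      rw [add_sub_cancel_left, norm_mul, Complex.norm_real, Real.norm_eq_abs,
        abs_of_nonneg ht.1]
    rw [h3] at h2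
    rw [norm_smul, ← hr]
    have h4 : ‖B (z₀ + (t : ℂ) * (z - z₀)) (f (z₀ + (t : ℂ) * (z - z₀)))‖ ≤
        K * (b * (K * (t * r)) ^ n / n.factorial) :=
      (ContinuousLinearMap.le_opNorm _ _).trans
        (mul_le_mul (hB _ h1) h2 (norm_nonneg _) hK)
    calc r * ‖B (z₀ + (t : ℂ) * (z - z₀)) (f (z₀ + (t : ℂ) * (z - z₀)))‖
        ≤ r * (K * (b * (K * (t * r)) ^ n / n.factorial)) :=
          mul_le_mul_of_nonneg_left h4 (norm_nonneg _)
      _ = _ := by ring

end OCX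

theorem t_OCX : Stmt_OCX := by
  intro E _ _ _ B hB z₀ hz₀ v
  have hz1 : ‖z₀‖ < 1 := by rwa [mem_ball_zero_iff] at hz₀
  -- the terms of the series
  have hnext : ∀ f : {f : ℂ → E // DifferentiableOn ℂ f (Metric.ball 0 1)},
      ∃ g : {f : ℂ → E // DifferentiableOn ℂ f (Metric.ball 0 1)}, g.1 z₀ = 0 ∧
        ∀ z ∈ Metric.ball (0 : ℂ) 1, HasDerivAt g.1 (B z (f.1 z)) z := by
    intro f
    have h1 : DifferentiableOn ℂ (fun z => B z (f.1 z)) (Metric.ball 0 1) := hB.clm_apply f.2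
    obtain ⟨g, hg0, hg⟩ := (h1.isExactOn_ball).with_val_at z₀ 0
    exact ⟨⟨g, fun z hz => (hg z hz).differentiableAt.differentiableWithinAt⟩, hg0, hg⟩
  choose next hn0 hn1 using hnext
  set d' : ℕ → {f : ℂ → E // DifferentiableOn ℂ f (Metric.ball 0 1)} := fun n =>
    next^[n] ⟨fun _ => v, differentiableOn_const _⟩ with hd'
  set d : ℕ → ℂ → E := fun n => (d' n).1 with hd
  have d0 : ∀ z, d 0 z = v := fun z => rfl
  have dS : ∀ n, d' (n + 1) = next (d' n) := fun n => Function.iterate_succ_apply' _ _ _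
  have dz : ∀ n, d (n + 1) z₀ = 0 := by
    intro n
    have h := hn0 (d' n)
    rw [← dS] at h
    exact h
  have dder : ∀ n, ∀ z ∈ Metric.ball (0 : ℂ) 1, HasDerivAt (d (n + 1)) (B z (d n z)) z := by
    intro n z hz
    have h := hn1 (d' n) z hz
    rw [← dS] at h
    exact h
  refine ⟨fun z => ∑' n, d n z, ?_, ?_⟩
  · change ∑' n, d n z₀ = v
    rw [tsum_eq_single 0]
    · exact d0 z₀
    · intro n hn
      obtain ⟨k, rfl⟩ := Nat.exists_eq_succ_of_ne_zero hn
      exact dz k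
  · intro z hz
    have hz2 : ‖z‖ < 1 := by rwa [mem_ball_zero_iff] at hz
    obtain ⟨ρ, hρ0, hρ1⟩ := exists_between (max_lt hz1 hz2)
    have hρz₀ : ‖z₀‖ < ρ := (le_max_left _ _).trans_lt hρ0
    have hρz : ‖z‖ < ρ := (le_max_right _ _).trans_lt hρ0
    obtain ⟨K, hK⟩ := (isCompact_closedBall (0 : ℂ) ρ).exists_bound_of_continuousOn
      (f := B) (hB.continuousOn.mono (Metric.closedBall_subset_ball hρ1))
    have hKB : ∀ w : ℂ, ‖w‖ ≤ ρ → ‖B w‖ ≤ K := fun w hw => hK w (by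
      rwa [mem_closedBall_zero_iff])
    have hK0 : 0 ≤ K := (norm_nonneg _).trans (hKB z₀ hρz₀.le)
    have hbound : ∀ n, ∀ w : ℂ, ‖w‖ ≤ ρ →
        ‖d n w‖ ≤ ‖v‖ * (K * ‖w - z₀‖) ^ n / n.factorial := by
      intro n
      induction n with
      | zero =>
        intro w _
        rw [d0, pow_zero, Nat.factorial_zero, Nat.cast_one, div_one, mul_one]
      | succ n ih =>
        exact OCX.step hK0 (norm_nonneg v) hρ1 hρz₀.le hKB ih (dz n) (dder n)
    have hbound2 : ∀ n, ∀ w : ℂ, ‖w‖ ≤ ρ → ‖d n w‖ ≤ ‖v‖ * ((2 * K) ^ n / n.factorial) := by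
      intro n w hw
      refine (hbound n w hw).trans ?_
      rw [← mul_div_assoc]
      have h1 : ‖w - z₀‖ ≤ 2 := (norm_sub_le _ _).trans (by linarith)
      have h2 : K * ‖w - z₀‖ ≤ 2 * K := by nlinarith
      gcongr
    have hs : Summable fun n : ℕ => ‖v‖ * ((2 * K) ^ n / n.factorial) :=
      (Real.summable_pow_div_factorial (2 * K)).mul_left _
    have hsd : ∀ w : ℂ, ‖w‖ ≤ ρ → Summable fun n => d n w := fun w hw =>
      Summable.of_norm_bounded hs fun n => hbound2 n w hw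
    set g' : ℕ → ℂ → E := fun n w => match n with
      | 0 => 0
      | k + 1 => B w (d k w) with hg'
    set u : ℕ → ℝ := fun n => match n with
      | 0 => 0
      | k + 1 => K * (‖v‖ * ((2 * K) ^ k / k.factorial)) with hu
    have hus : Summable u := by
      rw [← summable_nat_add_iff 1]
      exact hs.mul_left K
    have hmain := hasDerivAt_tsum_of_isPreconnected (g := d) (g' := g') (u := u) (y₀ := z₀)
      (y := z) hus (Metric.isOpen_ball (x := (0 : ℂ)) (ε := ρ))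
      (convex_ball (0 : ℂ) ρ).isPreconnected ?_ ?_ (by rwa [mem_ball_zero_iff])
      (hsd z₀ hρz₀.le) (by rwa [mem_ball_zero_iff])
    · have h1 : ∑' n, g' n z = B z (∑' n, d n z) := by
        have h2 : Summable fun n => g' n z := by
          rw [← summable_nat_add_iff 1]
          exact (hsd z hρz.le).mapL (B z)
        rw [h2.tsum_eq_zero_add, (B z).map_tsum (hsd z hρz.le)]
        exact zero_add _
      rw [h1] at hmain
      exact hmain
    · intro n w hw
      have hw2 : ‖w‖ < ρ := by rwa [mem_ball_zero_iff] at hw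
      cases n with
      | zero =>
        change HasDerivAt (fun _ => v) 0 w
        exact hasDerivAt_const _ _
      | succ n => exact dder n w (by rw [mem_ball_zero_iff]; exact hw2.trans hρ1)
    · intro n w hw
      have hw2 : ‖w‖ < ρ := by rwa [mem_ball_zero_iff] at hw
      cases n with
      | zero =>
        change ‖(0 : E)‖ ≤ 0
        rw [norm_zero]
      | succ n =>
        exact (ContinuousLinearMap.le_opNorm _ _).trans
          (mul_le_mul (hKB w hw2.le) (hbound2 n w hw2.le) (norm_nonneg _) hK0)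

end Pool.Agent.FBM
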