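import Pool.Agent.FBM.StmtE

/-!
# OGR: the lemma of Gronwall with an integrable coefficient
-/

open MeasureTheory Set Filter Topology

namespace Pool.Agent.FBM

namespace OGR

/-- A Lipschitz function of an absolutely continuous function. -/
theorem ac_comp {f g : ℝ → ℝ} {a b : ℝ} {S : Set ℝ} {L : NNReal} (hg : LipschitzOnWith L g S)
    (hf : AbsolutelyContinuousOnInterval f a b) (hS : ∀ x ∈ uIcc a b, f x ∈ S) :
    AbsolutelyContinuousOnInterval (fun x => g (f x)) a b := by
  rw [absolutelyContinuousOnInterval_iff] at hf ⊢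
  intro ε hε
  obtain ⟨δ, hδ, hd⟩ := hf (ε / (L + 1)) (by positivity)
  refine ⟨δ, hδ, fun E hE hEδ => ?_⟩
  have h1 := hd E hE hEδ
  have h2 : ∀ i ∈ Finset.range E.1, dist (g (f (E.2 i).1)) (g (f (E.2 i).2)) ≤
      L * dist (f (E.2 i).1) (f (E.2 i).2) := by
    intro i hi
    exact hg.dist_le_mul _ (hS _ (hE.1 i hi).1) _ (hS _ (hE.1 i hi).2)
  have h3 : (0 : ℝ) ≤ ∑ i ∈ Finset.range E.1, dist (f (E.2 i).1) (f (E.2 i).2) :=
    Finset.sum_nonneg fun _ _ => dist_nonneg
  calc ∑ i ∈ Finset.range E.1, dist (g (f (E.2 i).1)) (g (f (E.2 i).2))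
      ≤ ∑ i ∈ Finset.range E.1, L * dist (f (E.2 i).1) (f (E.2 i).2) := Finset.sum_le_sum h2
    _ = L * ∑ i ∈ Finset.range E.1, dist (f (E.2 i).1) (f (E.2 i).2) := by
      rw [Finset.mul_sum]
    _ ≤ (L + 1) * ∑ i ∈ Finset.range E.1, dist (f (E.2 i).1) (f (E.2 i).2) := by
      nlinarith
    _ < (L + 1) * (ε / (L + 1)) := by
      have h4 : (0 : ℝ) < L + 1 := by positivity
      exact mul_lt_mul_of_pos_left h1 h4
    _ = ε := by field_simp

/-- `exp (-f)` is absolutely continuous. -/
theorem ac_exp_neg {f : ℝ → ℝ} {a b : ℝ} (hf : AbsolutelyContinuousOnInterval f a b) :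
    AbsolutelyContinuousOnInterval (fun x => Real.exp (-f x)) a b := by
  obtain ⟨C, hC⟩ := hf.exists_bound
  have h1 : ContDiffOn ℝ 1 (fun x : ℝ => Real.exp (-x)) (Icc (-C) C) :=
    (Real.contDiff_exp.comp contDiff_neg).contDiffOn
  obtain ⟨L, hL⟩ := h1.exists_lipschitzOnWith (by decide) (convex_Icc _ _) isCompact_Icc
  refine ac_comp (g := fun y : ℝ => Real.exp (-y)) hL hf fun x hx => ?_
  have h2 := hC x hx
  rw [Real.norm_eq_abs, abs_le] at h2
  exact h2

end OGR

theorem t_OGR : Stmt_OGR := by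
  intro u k a b c hab hu hk hk0 hle t ht
  have hu' : ContinuousOn u (uIcc a b) := by rwa [uIcc_of_le hab]
  have hku : IntervalIntegrable (fun s => k s * u s) volume a b := hk.mul_continuousOn hu'
  set K : ℝ → ℝ := fun x => ∫ s in a..x, k s with hKdef
  set w : ℝ → ℝ := fun x => ∫ s in a..x, k s * u s with hwdef
  have hKac : AbsolutelyContinuousOnInterval K a b :=
    hk.absolutelyContinuousOnInterval_intervalIntegral left_mem_uIcc
  have hwac : AbsolutelyContinuousOnInterval w a b :=
    hku.absolutelyContinuousOnInterval_intervalIntegral left_mem_uIcc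
  have hcac : AbsolutelyContinuousOnInterval (fun _ : ℝ => c) a b :=
    (contDiff_const (n := 1)).contDiffOn.absolutelyContinuousOnInterval
  have hvac : AbsolutelyContinuousOnInterval (fun x => c + w x) a b := hcac.add hwac
  have hhac : AbsolutelyContinuousOnInterval (fun x => (c + w x) * Real.exp (-K x)) a b :=
    hvac.mul (OGR.ac_exp_neg hKac)
  have hsub : uIcc a t ⊆ uIcc a b := by
    rw [uIcc_of_le hab, uIcc_of_le ht.1]
    exact Icc_subset_Icc_right ht.2
  have hft := (hhac.mono hsub).integral_deriv_eq_sub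
  have hder : ∀ᵐ x, x ∈ uIcc a b → deriv (fun x => (c + w x) * Real.exp (-K x)) x ≤ 0 := by
    filter_upwards [hk.ae_hasDerivAt_integral, hku.ae_hasDerivAt_integral] with x hx1 hx2 hx
    have h1 : HasDerivAt K (k x) x := hx1 hx a left_mem_uIcc
    have h2 : HasDerivAt w (k x * u x) x := hx2 hx a left_mem_uIcc
    have h3 : HasDerivAt (fun x => (c + w x) * Real.exp (-K x))
        ((k x * u x) * Real.exp (-K x) + (c + w x) * (Real.exp (-K x) * (-k x))) x :=
      (h2.const_add c).mul h1.neg.exp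
    rw [h3.deriv]
    have h4 : u x ≤ c + w x := by
      rw [uIcc_of_le hab] at hx
      exact hle x hx
    have h5 : (k x * u x) * Real.exp (-K x) + (c + w x) * (Real.exp (-K x) * (-k x)) =
        -(k x * Real.exp (-K x) * (c + w x - u x)) := by ring
    rw [h5, neg_nonpos]
    exact mul_nonneg (mul_nonneg (hk0 x) (Real.exp_pos _).le) (by linarith)
  have hneg : ∫ x in a..t, deriv (fun x => (c + w x) * Real.exp (-K x)) x ≤ 0 := by
    rw [intervalIntegral.integral_of_le ht.1]
    apply integral_nonpos_of_ae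
    rw [EventuallyLE, ae_restrict_iff' measurableSet_Ioc]
    filter_upwards [hder] with x hx hxt
    refine hx ?_
    rw [uIcc_of_le hab]
    exact ⟨hxt.1.le, hxt.2.trans ht.2⟩
  rw [hft] at hneg
  have hwa : w a = 0 := intervalIntegral.integral_same
  have hKa : K a = 0 := intervalIntegral.integral_same
  simp only [hwa, hKa, neg_zero, Real.exp_zero, mul_one, add_zero, sub_nonpos] at hneg
  have h6 : c + w t ≤ c * Real.exp (K t) := by
    have h7 : (c + w t) * Real.exp (-K t) * Real.exp (K t) ≤ c * Real.exp (K t) :=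
      mul_le_mul_of_nonneg_right hneg (Real.exp_pos _).le
    rwa [mul_assoc, ← Real.exp_add, neg_add_cancel, Real.exp_zero, mul_one] at h7
  exact (hle t ht).trans h6

end Pool.Agent.FBM
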