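import Pool.Agent.FBM.StmtE

/-!
# OUN: uniqueness for linear integral equations
-/

open MeasureTheory Set Filter Topology
open scoped Real

namespace Pool.Agent.FBM

namespace OUN

section

variable {E : Type} [NormedAddCommGroup E] [NormedSpace ℝ E]

/-- Integrability of `B s (m s)`. -/
theorem int_apply {B : ℝ → E →L[ℝ] E} {m : ℝ → E} {a b : ℝ} (hab : a ≤ b)
    (hB : IntervalIntegrable B volume a b) (hm : ContinuousOn m (Icc a b)) :
    IntervalIntegrable (fun s => B s (m s)) volume a b := by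
  rw [intervalIntegrable_iff_integrableOn_Icc_of_le hab] at hB ⊢
  obtain ⟨C, hC⟩ := isCompact_Icc.exists_bound_of_continuousOn hm
  have h1 : Integrable (fun s => ‖B s‖ * C) (volume.restrict (Icc a b)) := hB.norm.mul_const C
  refine h1.mono' ?_ ?_
  · exact (ContinuousLinearMap.id ℝ (E →L[ℝ] E)).aestronglyMeasurable_comp₂
      hB.aestronglyMeasurable (hm.aestronglyMeasurable measurableSet_Icc)
  · refine (ae_restrict_iff' measurableSet_Icc).2 (Eventually.of_forall fun s hs => ?_)
    exact ((B s).le_opNorm (m s)).trans (mul_le_mul_of_nonneg_left (hC s hs) (norm_nonneg _))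

/-- Integrability of `‖B s‖ * ‖m s‖`. -/
theorem int_norm {B : ℝ → E →L[ℝ] E} {u : ℝ → ℝ} {a b : ℝ} (hab : a ≤ b)
    (hB : IntervalIntegrable B volume a b) (hu : ContinuousOn u (Icc a b)) :
    IntervalIntegrable (fun s => ‖B s‖ * u s) volume a b := by
  refine hB.norm.mul_continuousOn ?_
  rw [uIcc_of_le hab]
  exact hu

/-- The norm of the integral of `B s (m s)`. -/
theorem norm_le {B : ℝ → E →L[ℝ] E} {m : ℝ → E} {a b : ℝ} (hab : a ≤ b)
    (hB : IntervalIntegrable B volume a b) (hm : ContinuousOn m (Icc a b)) :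
    ‖∫ s in a..b, B s (m s)‖ ≤ ∫ s in a..b, ‖B s‖ * ‖m s‖ := by
  refine (intervalIntegral.norm_integral_le_integral_norm hab).trans ?_
  refine intervalIntegral.integral_mono_on hab (int_apply hab hB hm).norm
    (int_norm hab hB hm.norm) fun s _ => ?_
  exact (B s).le_opNorm (m s)

end

end OUN

theorem t_OUN (hOGR : Stmt_OGR) : Stmt_OUN := by
  intro E _ _ _ B a b c hc hB m m' v hm hm' h h'
  have hac : a ≤ c := hc.1
  have hcb : c ≤ b := hc.2
  have hab : a ≤ b := hac.trans hcb
  have hd : ContinuousOn (fun s => m s - m' s) (Icc a b) := hm.sub hm'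
  have hu : ContinuousOn (fun s => ‖m s - m' s‖) (Icc a b) := hd.norm
  have hBs : ∀ x ∈ Icc a b, ∀ y ∈ Icc a b, IntervalIntegrable B volume x y := fun x hx y hy =>
    hB.mono_set (by rw [uIcc_of_le hab]; exact uIcc_subset_Icc hx hy)
  have hI : ∀ x ∈ Icc a b, ∀ y ∈ Icc a b, x ≤ y → ∀ n : ℝ → E, ContinuousOn n (Icc a b) →
      IntervalIntegrable (fun s => B s (n s)) volume x y := fun x hx y hy hxy n hn =>
    OUN.int_apply hxy (hBs x hx y hy) (hn.mono (Icc_subset_Icc hx.1 hy.2))
  have hI' : ∀ x ∈ Icc a b, ∀ y ∈ Icc a b, ∀ n : ℝ → E, ContinuousOn n (Icc a b) →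
      IntervalIntegrable (fun s => B s (n s)) volume x y := by
    intro x hx y hy n hn
    rcases le_total x y with hxy | hxy
    · exact hI x hx y hy hxy n hn
    · exact (hI y hy x hx hxy n hn).symm
  have hdiff : ∀ t ∈ Icc a b, m t - m' t = ∫ s in c..t, B s (m s - m' s) := by
    intro t ht
    rw [h t ht, h' t ht, add_sub_add_left_eq_sub,
      ← intervalIntegral.integral_sub (hI' c hc t ht m hm) (hI' c hc t ht m' hm')]
    refine intervalIntegral.integral_congr fun s _ => ?_
    exact (map_sub (B s) (m s) (m' s)).symm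
  have hright : ∀ t ∈ Icc c b, ‖m t - m' t‖ ≤ 0 := by
    intro t ht
    have hk := hOGR (fun s => ‖m s - m' s‖) (fun s => ‖B s‖) c b 0 hcb
      (hu.mono (Icc_subset_Icc_left hac)) (hBs c hc b ⟨hab, le_rfl⟩).norm
      (fun s => norm_nonneg _) (fun x hx => ?_) t ht
    · rwa [zero_mul] at hk
    · have hx' : x ∈ Icc a b := ⟨hac.trans hx.1, hx.2⟩
      change ‖m x - m' x‖ ≤ _
      rw [hdiff x hx', zero_add]
      exact OUN.norm_le hx.1 (hBs c hc x hx') (hd.mono (Icc_subset_Icc hac hx.2))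
  have hleft : ∀ t ∈ Icc a c, ‖m t - m' t‖ ≤ 0 := by
    intro t ht
    have hcont : ContinuousOn (fun s => ‖m (-s) - m' (-s)‖) (Icc (-c) (-a)) := by
      refine (hu.comp continuous_neg.continuousOn fun s hs => ?_ :
        ContinuousOn ((fun s => ‖m s - m' s‖) ∘ fun s => -s) (Icc (-c) (-a)))
      exact ⟨by linarith [hs.2], by linarith [hs.1]⟩
    have hint : IntervalIntegrable (fun s => ‖B (-s)‖) volume (-c) (-a) := by
      have h1 := (IntervalIntegrable.iff_comp_neg (by simp)).1 (hBs a ⟨le_rfl, hab⟩ c hc).norm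
      exact h1.symm
    have hk := hOGR (fun s => ‖m (-s) - m' (-s)‖) (fun s => ‖B (-s)‖) (-c) (-a) 0
      (by linarith) hcont hint (fun s => norm_nonneg _) (fun x hx => ?_) (-t)
      ⟨by linarith [ht.2], by linarith [ht.1]⟩
    · rw [zero_mul] at hk
      simpa only [neg_neg] using hk
    · have hx1 : -x ≤ c := by linarith [hx.1]
      have hx2 : a ≤ -x := by linarith [hx.2]
      have hx' : -x ∈ Icc a b := ⟨hx2, hx1.trans hcb⟩
      change ‖m (-x) - m' (-x)‖ ≤ _
      rw [hdiff (-x) hx', intervalIntegral.integral_symm, norm_neg, zero_add]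
      refine (OUN.norm_le hx1 (hBs (-x) hx' c hc) (hd.mono (Icc_subset_Icc hx2 hcb))).trans ?_
      have h2 := intervalIntegral.integral_comp_neg (a := -c) (b := x)
        (fun s => ‖B s‖ * ‖m s - m' s‖)
      rw [neg_neg] at h2
      exact h2.ge
  intro t ht
  have h0 : ‖m t - m' t‖ ≤ 0 := by
    rcases le_total t c with htc | htc
    · exact hleft t ⟨ht.1, htc⟩
    · exact hright t ⟨htc, ht.2⟩
  exact sub_eq_zero.1 (norm_le_zero_iff.1 h0)

end Pool.Agent.FBM
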