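import Pool.Agent.FBM.StmtE
import Pool.Agent.FBM.E.OUN

/-!
# OLM: dependence of linear integral equations on the coefficients
-/

open MeasureTheory Set Filter Topology
open scoped Real

namespace Pool.Agent.FBM

namespace OLM

section

variable {E : Type} [NormedAddCommGroup E] [NormedSpace ℝ E]

/-- A bound of solutions. -/
theorem bound (hOGR : Stmt_OGR) {B : ℝ → E →L[ℝ] E} {a b : ℝ} (hab : a ≤ b)
    (hB : IntervalIntegrable B volume a b) {m r : ℝ → E} {c : ℝ}
    (hm : ContinuousOn m (Icc a b)) (hr : ∀ t ∈ Icc a b, ‖r t‖ ≤ c)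
    (h : ∀ t ∈ Icc a b, m t = r t + ∫ s in a..t, B s (m s)) :
    ∀ t ∈ Icc a b, ‖m t‖ ≤ c * Real.exp (∫ s in a..b, ‖B s‖) := by
  intro t ht
  have hc : 0 ≤ c := (norm_nonneg _).trans (hr a ⟨le_rfl, hab⟩)
  have hsub : ∀ x ∈ Icc a b, IntervalIntegrable B volume a x := fun x hx =>
    hB.mono_set (by rw [uIcc_of_le hab, uIcc_of_le hx.1]; exact Icc_subset_Icc_right hx.2)
  have h1 := hOGR (fun s => ‖m s‖) (fun s => ‖B s‖) a b c hab hm.norm hB.norm
    (fun s => norm_nonneg _) (fun x hx => ?_) t ht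
  · refine h1.trans (mul_le_mul_of_nonneg_left (Real.exp_le_exp.2 ?_) hc)
    exact intervalIntegral.integral_mono_interval le_rfl ht.1 ht.2
      (Eventually.of_forall fun s => norm_nonneg _) hB.norm
  · change ‖m x‖ ≤ _
    rw [h x hx]
    refine (norm_add_le _ _).trans (add_le_add (hr x hx) ?_)
    exact OUN.norm_le hx.1 (hsub x hx) (hm.mono (Icc_subset_Icc_right hx.2))

/-- The integral of `B s (m s)` for bounded `m`. -/
theorem norm_le_mul {B : ℝ → E →L[ℝ] E} {a b : ℝ} (hab : a ≤ b)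
    (hB : IntervalIntegrable B volume a b) {m : ℝ → E} {c : ℝ}
    (hm : ContinuousOn m (Icc a b)) (hc : ∀ t ∈ Icc a b, ‖m t‖ ≤ c) :
    ∀ t ∈ Icc a b, ‖∫ s in a..t, B s (m s)‖ ≤ c * ∫ s in a..b, ‖B s‖ := by
  intro t ht
  have h0 : 0 ≤ c := (norm_nonneg _).trans (hc a ⟨le_rfl, hab⟩)
  have hBt : IntervalIntegrable B volume a t :=
    hB.mono_set (by rw [uIcc_of_le hab, uIcc_of_le ht.1]; exact Icc_subset_Icc_right ht.2)
  refine (OUN.norm_le ht.1 hBt (hm.mono (Icc_subset_Icc_right ht.2))).trans ?_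
  have h1 : ∫ s in a..t, ‖B s‖ * ‖m s‖ ≤ ∫ s in a..t, ‖B s‖ * c := by
    refine intervalIntegral.integral_mono_on ht.1
      (OUN.int_norm ht.1 hBt (hm.norm.mono (Icc_subset_Icc_right ht.2)))
      (hBt.norm.mul_const c) fun s hs => ?_
    exact mul_le_mul_of_nonneg_left (hc s ⟨hs.1, hs.2.trans ht.2⟩) (norm_nonneg _)
  refine h1.trans ?_
  rw [intervalIntegral.integral_mul_const, mul_comm]
  refine mul_le_mul_of_nonneg_left ?_ h0
  exact intervalIntegral.integral_mono_interval le_rfl ht.1 ht.2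
    (Eventually.of_forall fun s => norm_nonneg _) hB.norm

end

end OLM

theorem t_OLM (hOGR : Stmt_OGR) : Stmt_OLM := by
  intro E _ _ _ B B₀ a b hab hBc hB₀ hlim m v hm h
  have hB : ∀ n, IntervalIntegrable (B n) volume a b := fun n =>
    ContinuousOn.intervalIntegrable (by rw [uIcc_of_le hab]; exact hBc n)
  set e : ℕ → ℝ := fun n => ∫ s in a..b, ‖B n s - B₀ s‖ with he
  have he0 : ∀ n, 0 ≤ e n := fun n =>
    intervalIntegral.integral_nonneg hab fun s _ => norm_nonneg _
  -- bound of the integrals of the norms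
  obtain ⟨M, hM⟩ : ∃ M, ∀ n, e n ≤ M := by
    obtain ⟨M, hM⟩ := hlim.bddAbove_range
    exact ⟨M, fun n => hM ⟨n, rfl⟩⟩
  have hM0 : 0 ≤ M := (he0 0).trans (hM 0)
  set K : ℝ := M + ∫ s in a..b, ‖B₀ s‖ with hK
  have hKn : ∀ n, ∫ s in a..b, ‖B n s‖ ≤ K := by
    intro n
    have h1 : ∫ s in a..b, ‖B n s‖ ≤ ∫ s in a..b, (‖B n s - B₀ s‖ + ‖B₀ s‖) := by
      refine intervalIntegral.integral_mono_on hab (hB n).norm
        (((hB n).sub hB₀).norm.add hB₀.norm) fun s _ => ?_
      have h2 := norm_add_le (B n s - B₀ s) (B₀ s)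
      rwa [sub_add_cancel] at h2
    rw [intervalIntegral.integral_add ((hB n).sub hB₀).norm hB₀.norm] at h1
    exact h1.trans (add_le_add (hM n) le_rfl)
  set C : ℝ := ‖v‖ * Real.exp K with hC
  have hmC : ∀ n, ∀ t ∈ Icc a b, ‖m n t‖ ≤ C := by
    intro n t ht
    refine (OLM.bound hOGR hab (hB n) (r := fun _ => v) (hm n) (fun _ _ => le_rfl) (h n)
      t ht).trans ?_
    exact mul_le_mul_of_nonneg_left (Real.exp_le_exp.2 (hKn n)) (norm_nonneg _)
  have hC0 : 0 ≤ C := mul_nonneg (norm_nonneg _) (Real.exp_pos _).le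
  have hsub : ∀ x ∈ Icc a b, ∀ n, IntervalIntegrable (B n) volume a x := fun x hx n =>
    (hB n).mono_set (by rw [uIcc_of_le hab, uIcc_of_le hx.1]; exact Icc_subset_Icc_right hx.2)
  have hsub₀ : ∀ x ∈ Icc a b, IntervalIntegrable B₀ volume a x := fun x hx =>
    hB₀.mono_set (by rw [uIcc_of_le hab, uIcc_of_le hx.1]; exact Icc_subset_Icc_right hx.2)
  -- Cauchy estimate
  have hcau : ∀ n k, ∀ t ∈ Icc a b,
      ‖m n t - m k t‖ ≤ C * (e n + e k) * Real.exp K := by
    intro n k t ht
    have hdc : ContinuousOn (fun s => m n s - m k s) (Icc a b) := (hm n).sub (hm k)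
    have hnk : IntervalIntegrable (fun s => B n s - B k s) volume a b := (hB n).sub (hB k)
    have hr : ∀ x ∈ Icc a b, ‖∫ s in a..x, (B n s - B k s) (m k s)‖ ≤ C * (e n + e k) := by
      intro x hx
      refine (OLM.norm_le_mul hab hnk (hm k) (hmC k) x hx).trans ?_
      refine mul_le_mul_of_nonneg_left ?_ hC0
      rw [he, ← intervalIntegral.integral_add ((hB n).sub hB₀).norm ((hB k).sub hB₀).norm]
      refine intervalIntegral.integral_mono_on hab hnk.norm
        (((hB n).sub hB₀).norm.add ((hB k).sub hB₀).norm) fun s _ => ?_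
      have h2 := norm_sub_le (B n s - B₀ s) (B k s - B₀ s)
      rwa [sub_sub_sub_cancel_right] at h2
    have hmain := OLM.bound hOGR hab (hB n) (m := fun s => m n s - m k s)
      (r := fun x => ∫ s in a..x, (B n s - B k s) (m k s)) hdc hr (fun x hx => ?_) t ht
    · refine hmain.trans ?_
      refine mul_le_mul_of_nonneg_left (Real.exp_le_exp.2 (hKn n)) ?_
      exact mul_nonneg hC0 (add_nonneg (he0 n) (he0 k))
    · have hI : ∀ (A : ℝ → E →L[ℝ] E) (w : ℝ → E), IntervalIntegrable A volume a x →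
          ContinuousOn w (Icc a b) → IntervalIntegrable (fun s => A s (w s)) volume a x :=
        fun A w hA hw => OUN.int_apply hx.1 hA (hw.mono (Icc_subset_Icc_right hx.2))
      change m n x - m k x = _
      rw [h n x hx, h k x hx, add_sub_add_left_eq_sub,
        ← intervalIntegral.integral_sub (hI _ _ (hsub x hx n) (hm n))
          (hI _ _ (hsub x hx k) (hm k)),
        ← intervalIntegral.integral_add
          (hI (fun s => B n s - B k s) _ ((hsub x hx n).sub (hsub x hx k)) (hm k))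
          (hI _ _ (hsub x hx n) hdc)]
      refine intervalIntegral.integral_congr fun s _ => ?_
      change B n s (m n s) - B k s (m k s) =
        (B n s (m k s) - B k s (m k s)) + B n s (m n s - m k s)
      rw [map_sub]
      abel
  have hCK0 : 0 ≤ C * Real.exp K := mul_nonneg hC0 (Real.exp_pos _).le
  have hunif : UniformCauchySeqOn m atTop (Icc a b) := by
    rw [Metric.uniformCauchySeqOn_iff]
    intro ε hε
    have h1 : Tendsto (fun n => C * Real.exp K * (2 * e n)) atTop (𝓝 0) := by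
      have := (hlim.const_mul 2).const_mul (C * Real.exp K)
      simpa using this
    obtain ⟨N, hN⟩ := eventually_atTop.1 (h1.eventually (gt_mem_nhds hε))
    refine ⟨N, fun n hn k hk x hx => ?_⟩
    rw [dist_eq_norm]
    refine (hcau n k x hx).trans_lt ?_
    have h2 := hN n hn
    have h3 := hN k hk
    have h4 : C * (e n + e k) * Real.exp K =
        (C * Real.exp K * (2 * e n) + C * Real.exp K * (2 * e k)) / 2 := by ring
    rw [h4]
    linarith
  have hpt : ∀ t : ℝ, ∃ y : E, t ∈ Icc a b → Tendsto (fun n => m n t) atTop (𝓝 y) := by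
    intro t
    by_cases ht : t ∈ Icc a b
    · obtain ⟨y, hy⟩ := cauchySeq_tendsto_of_complete (hunif.cauchySeq ht)
      exact ⟨y, fun _ => hy⟩
    · exact ⟨0, fun h => absurd h ht⟩
  choose m₀ hm₀ using hpt
  have hU : TendstoUniformlyOn m m₀ atTop (Icc a b) :=
    hunif.tendstoUniformlyOn_of_tendsto fun t ht => hm₀ t ht
  have hc₀ : ContinuousOn m₀ (Icc a b) :=
    hU.continuousOn (Eventually.frequently (Eventually.of_forall hm))
  refine ⟨m₀, hc₀, hU, fun t ht => ?_⟩
  -- limit in the equation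
  have hC' : ∀ s ∈ Icc a b, ‖m₀ s‖ ≤ C := fun s hs =>
    le_of_tendsto (hm₀ s hs).norm (Eventually.of_forall fun n => hmC n s hs)
  refine tendsto_nhds_unique (hm₀ t ht) ?_
  have hKey : Tendsto (fun n => ∫ s in a..t, B n s (m n s)) atTop
      (𝓝 (∫ s in a..t, B₀ s (m₀ s))) := by
    rw [Metric.tendsto_atTop]
    intro ε hε
    set L : ℝ := ∫ s in a..b, ‖B₀ s‖ with hL
    have hL0 : 0 ≤ L := intervalIntegral.integral_nonneg hab fun s _ => norm_nonneg _
    obtain ⟨N₁, hN₁⟩ := (Metric.tendstoUniformlyOn_iff.1 hU (ε / (2 * (L + 1)))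
      (by positivity)).exists_forall_of_atTop
    have h1 : Tendsto (fun n => C * e n) atTop (𝓝 0) := by
      have := hlim.const_mul C
      simpa using this
    obtain ⟨N₂, hN₂⟩ := eventually_atTop.1 (h1.eventually (gt_mem_nhds (half_pos hε)))
    refine ⟨max N₁ N₂, fun n hn => ?_⟩
    have hn1 := hN₁ n ((le_max_left _ _).trans hn)
    have hn2 := hN₂ n ((le_max_right _ _).trans hn)
    have hI : ∀ (A : ℝ → E →L[ℝ] E) (w : ℝ → E), IntervalIntegrable A volume a t →
        ContinuousOn w (Icc a b) → IntervalIntegrable (fun s => A s (w s)) volume a t :=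
      fun A w hA hw => OUN.int_apply ht.1 hA (hw.mono (Icc_subset_Icc_right ht.2))
    have hdc : ContinuousOn (fun s => m n s - m₀ s) (Icc a b) := (hm n).sub hc₀
    have hsplit : (∫ s in a..t, B n s (m n s)) - ∫ s in a..t, B₀ s (m₀ s) =
        (∫ s in a..t, (B n s - B₀ s) (m n s)) + ∫ s in a..t, B₀ s (m n s - m₀ s) := by
      rw [← intervalIntegral.integral_sub (hI _ _ (hsub t ht n) (hm n))
          (hI _ _ (hsub₀ t ht) hc₀),
        ← intervalIntegral.integral_add
          (hI (fun s => B n s - B₀ s) _ ((hsub t ht n).sub (hsub₀ t ht)) (hm n))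
          (hI _ _ (hsub₀ t ht) hdc)]
      refine intervalIntegral.integral_congr fun s _ => ?_
      change B n s (m n s) - B₀ s (m₀ s) =
        (B n s (m n s) - B₀ s (m n s)) + B₀ s (m n s - m₀ s)
      rw [map_sub]
      abel
    rw [dist_eq_norm, hsplit]
    have h2 : ‖∫ s in a..t, (B n s - B₀ s) (m n s)‖ ≤ C * e n :=
      OLM.norm_le_mul hab ((hB n).sub hB₀) (hm n) (hmC n) t ht
    have h3 : ‖∫ s in a..t, B₀ s (m n s - m₀ s)‖ ≤ ε / (2 * (L + 1)) * L := by
      refine OLM.norm_le_mul hab hB₀ hdc (fun s hs => ?_) t ht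
      have := hn1 s hs
      rw [dist_comm, dist_eq_norm] at this
      exact this.le
    have h4 : ε / (2 * (L + 1)) * L < ε / 2 := by
      rw [div_mul_eq_mul_div, div_lt_div_iff₀ (by positivity) two_pos]
      nlinarith
    calc ‖(∫ s in a..t, (B n s - B₀ s) (m n s)) + ∫ s in a..t, B₀ s (m n s - m₀ s)‖
        ≤ C * e n + ε / (2 * (L + 1)) * L := (norm_add_le _ _).trans (add_le_add h2 h3)
      _ < ε / 2 + ε / 2 := add_lt_add hn2 h4
      _ = ε := add_halves ε
  refine (hKey.const_add v).congr fun n => ?_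
  exact (h n t ht).symm

end Pool.Agent.FBM
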