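import Pool.Agent.FBM.StmtE

/-!
# PSI: the local coordinate
-/

open MeasureTheory Set Filter Topology
open scoped Real

namespace Pool.Agent.FBM

namespace PSI

lemma nsq (w : ℂ) : Complex.normSq (1 - Complex.I * w) - Complex.normSq (1 + Complex.I * w) =
    4 * w.im := by
  simp only [Complex.normSq_apply, Complex.sub_re, Complex.sub_im, Complex.add_re, Complex.add_im,
    Complex.one_re, Complex.one_im, Complex.mul_re, Complex.mul_im, Complex.I_re, Complex.I_im]
  ring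

lemma ne_ball {w : ℂ} (hw : ‖w‖ < 1) : (1 : ℂ) - Complex.I * w ≠ 0 := by
  intro h
  have h1 : (1 : ℂ) = Complex.I * w := sub_eq_zero.1 h
  have h2 : ‖(1 : ℂ)‖ = ‖Complex.I * w‖ := by rw [← h1]
  rw [norm_mul, Complex.norm_I, one_mul, norm_one] at h2
  linarith

lemma norm_psi (θ : ℝ) (w : ℂ) :
    ‖psi θ w‖ = ‖1 + Complex.I * w‖ / ‖1 - Complex.I * w‖ := by
  rw [psi, norm_mul, Complex.norm_exp_ofReal_mul_I, one_mul, norm_div]

lemma hasDerivAt_psi (θ : ℝ) {w : ℂ} (hw : ‖w‖ < 1) :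
    HasDerivAt (psi θ) (Complex.exp (θ * Complex.I) *
      (2 * Complex.I / (1 - Complex.I * w) ^ 2)) w := by
  have h0 := ne_ball hw
  have h1 : HasDerivAt (fun z : ℂ => 1 + Complex.I * z) (Complex.I * 1) w :=
    ((hasDerivAt_id w).const_mul Complex.I).const_add 1
  have h2 : HasDerivAt (fun z : ℂ => 1 - Complex.I * z) (-(Complex.I * 1)) w :=
    ((hasDerivAt_id w).const_mul Complex.I).const_sub 1
  have h3 := (h1.div h2 h0).const_mul (Complex.exp (θ * Complex.I))
  have e : Complex.exp (θ * Complex.I) * ((Complex.I * 1 * (1 - Complex.I * w) -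
      (1 + Complex.I * w) * -(Complex.I * 1)) / (1 - Complex.I * w) ^ 2) =
      Complex.exp (θ * Complex.I) * (2 * Complex.I / (1 - Complex.I * w) ^ 2) := by
    congr 2
    ring
  rw [e] at h3
  exact h3

lemma exp_arctan (s : ℝ) : Complex.exp ((2 * Real.arctan s : ℝ) * Complex.I) =
    (1 + Complex.I * s) / (1 - Complex.I * s) := by
  have hp : (0 : ℝ) < 1 + s ^ 2 := by positivity
  have h1 : Complex.exp ((Real.arctan s : ℝ) * Complex.I) =
      (1 + Complex.I * s) * ((1 / √(1 + s ^ 2) : ℝ) : ℂ) := by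
    rw [Complex.exp_mul_I, ← Complex.ofReal_cos, ← Complex.ofReal_sin, Real.cos_arctan,
      Real.sin_arctan]
    push_cast
    ring
  have h2 : ((2 * Real.arctan s : ℝ) : ℂ) * Complex.I =
      (Real.arctan s : ℝ) * Complex.I + (Real.arctan s : ℝ) * Complex.I := by
    push_cast
    ring
  have h3 : (((1 / √(1 + s ^ 2) : ℝ) : ℂ)) * ((1 / √(1 + s ^ 2) : ℝ) : ℂ) *
      ((1 + Complex.I * s) * (1 - Complex.I * s)) = 1 := by
    have e1 : ((1 / √(1 + s ^ 2) : ℝ) : ℂ) * ((1 / √(1 + s ^ 2) : ℝ) : ℂ) =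
        ((1 / (1 + s ^ 2) : ℝ) : ℂ) := by
      rw [← Complex.ofReal_mul]
      congr 1
      rw [div_mul_div_comm, one_mul, Real.mul_self_sqrt hp.le]
    have e2 : (1 + Complex.I * (s : ℂ)) * (1 - Complex.I * s) = ((1 + s ^ 2 : ℝ) : ℂ) := by
      have : (1 + Complex.I * (s : ℂ)) * (1 - Complex.I * s) =
          1 - Complex.I ^ 2 * s ^ 2 := by ring
      rw [this, Complex.I_sq]
      push_cast
      ring
    rw [e1, e2, ← Complex.ofReal_mul, one_div, inv_mul_cancel₀ hp.ne', Complex.ofReal_one]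
  have h4 : (1 : ℂ) - Complex.I * s ≠ 0 := by
    intro h
    rw [h, mul_zero, mul_zero] at h3
    exact one_ne_zero h3.symm
  rw [h2, Complex.exp_add, h1, eq_div_iff h4]
  calc (1 + Complex.I * (s : ℂ)) * ((1 / √(1 + s ^ 2) : ℝ) : ℂ) *
        ((1 + Complex.I * s) * ((1 / √(1 + s ^ 2) : ℝ) : ℂ)) * (1 - Complex.I * s)
      = (1 + Complex.I * (s : ℂ)) * ((((1 / √(1 + s ^ 2) : ℝ) : ℂ)) *
        ((1 / √(1 + s ^ 2) : ℝ) : ℂ) * ((1 + Complex.I * s) * (1 - Complex.I * s))) := by ring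
    _ = 1 + Complex.I * s := by rw [h3, mul_one]

end PSI

open PSI

theorem t_PSI : Stmt_PSI := by
  intro θ
  refine ⟨fun w hw him => ?_, fun w hw him => ?_, fun w hw => ?_, fun w hw => ?_, ?_, fun s => ?_⟩
  · rw [mem_closedBall_zero_iff, norm_psi, div_le_one (norm_pos_iff.2 (ne_ball hw))]
    have h := nsq w
    rw [Complex.normSq_eq_norm_sq, Complex.normSq_eq_norm_sq] at h
    exact (sq_le_sq₀ (norm_nonneg _) (norm_nonneg _)).1 (by linarith)
  · rw [mem_ball_zero_iff, norm_psi, div_lt_one (norm_pos_iff.2 (ne_ball hw))]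
    have h := nsq w
    rw [Complex.normSq_eq_norm_sq, Complex.normSq_eq_norm_sq] at h
    exact (sq_lt_sq₀ (norm_nonneg _) (norm_nonneg _)).1 (by linarith)
  · exact (hasDerivAt_psi θ hw).differentiableAt
  · rw [(hasDerivAt_psi θ hw).deriv]
    exact mul_ne_zero (Complex.exp_ne_zero _)
      (div_ne_zero (mul_ne_zero two_ne_zero Complex.I_ne_zero) (pow_ne_zero 2 (ne_ball hw)))
  · rw [psi, ep, mul_zero, add_zero, sub_zero, div_one, mul_one, Complex.ofReal_one, one_mul]
  · rw [psi, ep, Complex.ofReal_one, one_mul, ← exp_arctan, ← Complex.exp_add]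
    congr 1
    push_cast
    ring

end Pool.Agent.FBM
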