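import Pool.Agent.FBM.StmtE

/-!
# Module FBM_EWH: junctions, wall on the left, free arc on the right (mirror image of EHW)
-/

open MeasureTheory Set Filter Topology
open scoped Real ComplexConjugate

namespace Pool.Agent.FBM.EWH

theorem conj_ep (r t : ℝ) : (starRingEnd ℂ) (ep r t) = ep r (-t) := by
  unfold ep
  rw [map_mul, Complex.conj_ofReal, ← Complex.exp_conj]
  congr 2
  rw [map_mul, Complex.conj_ofReal, Complex.conj_I]
  push_cast
  ring

theorem conj_psi (θ : ℝ) (w : ℂ) :
    (starRingEnd ℂ) (psi (-θ) (-(starRingEnd ℂ) w)) = psi θ w := by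
  unfold psi
  rw [map_mul, map_div₀, ← Complex.exp_conj]
  congr 1
  · congr 1
    rw [map_mul, Complex.conj_ofReal, Complex.conj_I]
    push_cast
    ring
  · simp only [map_add, map_sub, map_one, map_mul, map_neg, Complex.conj_conj, Complex.conj_I]
    congr 1 <;> ring

/-- reflection of integrals over one period -/
theorem cm_neg {E : Type} [NormedAddCommGroup E] [NormedSpace ℝ E] (g : ℝ → E) :
    ∫ t, g (-t) ∂cm = ∫ t, g t ∂cm := by
  unfold cm
  rw [← intervalIntegral.integral_of_le (by linarith [Real.pi_pos] : -π ≤ π),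
    ← intervalIntegral.integral_of_le (by linarith [Real.pi_pos] : -π ≤ π),
    intervalIntegral.integral_comp_neg, neg_neg]

theorem cm_neg_int {E : Type} [NormedAddCommGroup E] {g : ℝ → E} (hg : Integrable g cm) :
    Integrable (fun t => g (-t)) cm := by
  have h0 : -π ≤ π := by linarith [Real.pi_pos]
  have h1 : IntervalIntegrable g volume (-π) π := by
    rw [intervalIntegrable_iff_integrableOn_Ioc_of_le h0]
    exact hg
  have h2 : IntervalIntegrable (fun t => g (-t)) volume (-π) π := by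
    have h3 := (IntervalIntegrable.iff_comp_neg (f := g) (a := -π) (b := π)).1 h1
    rw [neg_neg] at h3
    exact h3.symm
  rw [intervalIntegrable_iff_integrableOn_Ioc_of_le h0] at h2
  exact h2

theorem ae_neg {p : ℝ → Prop} (h : ∀ᵐ t, p t) : ∀ᵐ t : ℝ, p (-t) :=
  (Measure.measurePreserving_neg (volume : Measure ℝ)).quasiMeasurePreserving.ae h

/-- the mirror map -/
noncomputable def mF (F : ℂ → Fin 3 → ℂ) : ℂ → Fin 3 → ℂ := star ∘ F ∘ (starRingEnd ℂ)

/-- the mirror boundary function -/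
noncomputable def mf (f : ℝ → Fin 3 → ℂ) : ℝ → Fin 3 → ℂ := fun t => -star (f (-t))

theorem mF_apply (F : ℂ → Fin 3 → ℂ) (z : ℂ) (j : Fin 3) :
    mF F z j = (starRingEnd ℂ) (F ((starRingEnd ℂ) z) j) := rfl

theorem mF_re (F : ℂ → Fin 3 → ℂ) (t : ℝ) (j : Fin 3) :
    (mF F (ep 1 t) j).re = (F (ep 1 (-t)) j).re := by
  rw [mF_apply, conj_ep, Complex.conj_re]

theorem mF_im (F : ℂ → Fin 3 → ℂ) (t : ℝ) (j : Fin 3) :
    (mF F (ep 1 t) j).im = -(F (ep 1 (-t)) j).im := by
  rw [mF_apply, conj_ep, Complex.conj_im]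

theorem mf_im (f : ℝ → Fin 3 → ℂ) (t : ℝ) (j : Fin 3) : (mf f t j).im = (f (-t) j).im := by
  change (-(starRingEnd ℂ) (f (-t) j)).im = _
  rw [Complex.neg_im, Complex.conj_im, neg_neg]

theorem reg {F : ℂ → Fin 3 → ℂ} {f : ℝ → Fin 3 → ℂ} (h : Reg F f) : Reg (mF F) (mf f) := by
  refine ⟨?_, ?_, ⟨?_, ?_, ?_⟩, ?_⟩
  · refine continuous_star.comp_continuousOn (h.cont.comp Complex.continuous_conj.continuousOn ?_)
    intro z hz
    rw [mem_closedBall_zero_iff] at hz ⊢
    rwa [Complex.norm_conj]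
  · intro z hz
    have hz2 : (starRingEnd ℂ) z ∈ Metric.ball (0 : ℂ) 1 := by
      rw [mem_ball_zero_iff] at hz ⊢
      rwa [Complex.norm_conj]
    have h1 := (h.diff _ hz2).differentiableAt (Metric.isOpen_ball.mem_nhds hz2)
    have h2 := h1.star_conj
    rw [Complex.conj_conj] at h2
    exact h2.differentiableWithinAt
  · intro t
    unfold mf
    have : -(t + 2 * π) = -t - 2 * π := by ring
    rw [this, h.bd.per.sub_eq]
  · unfold mf
    exact (((starL' ℝ : (Fin 3 → ℂ) ≃L[ℝ] (Fin 3 → ℂ)) : (Fin 3 → ℂ) →L[ℝ] (Fin 3 → ℂ)).integrable_comp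
      (cm_neg_int h.bd.int)).neg
  · have h1 := h.bd.lim
    have h2 : ∀ r : ℝ, ∫ t, ‖(Complex.I * ep r t) • deriv (mF F) (ep r t) - mf f t‖ ∂cm
        = ∫ t, ‖(Complex.I * ep r t) • deriv F (ep r t) - f t‖ ∂cm := by
      intro r
      rw [← cm_neg (fun t => ‖(Complex.I * ep r t) • deriv F (ep r t) - f t‖)]
      refine integral_congr_ae (Eventually.of_forall fun t => ?_)
      have h3 : deriv (mF F) (ep r t) = star (deriv F (ep r (-t))) := by
        unfold mF
        rw [deriv_star_conj]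
        change star (deriv F ((starRingEnd ℂ) (ep r t))) = _
        rw [conj_ep]
      change ‖(Complex.I * ep r t) • deriv (mF F) (ep r t) - mf f t‖
        = ‖(Complex.I * ep r (-t)) • deriv F (ep r (-t)) - f (-t)‖
      have h4 : (Complex.I * ep r t) • deriv (mF F) (ep r t) - mf f t
          = -star ((Complex.I * ep r (-t)) • deriv F (ep r (-t)) - f (-t)) := by
        rw [h3]
        funext j
        change (Complex.I * ep r t) * (starRingEnd ℂ) (deriv F (ep r (-t)) j)
          - -(starRingEnd ℂ) (f (-t) j)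
          = -(starRingEnd ℂ) ((Complex.I * ep r (-t)) * deriv F (ep r (-t)) j - f (-t) j)
        rw [map_sub, map_mul, map_mul, Complex.conj_I, conj_ep, neg_neg]
        ring
      rw [h4, norm_neg, norm_star]
    simp only [h2]
    exact h1
  · intro s t
    have h1 := h.ftc (-s) (-t)
    have h2 : ∫ u in s..t, mf f u
        = (starL' ℝ : (Fin 3 → ℂ) ≃L[ℝ] (Fin 3 → ℂ)) (∫ u in (-s)..(-t), f u) := by
      unfold mf
      rw [intervalIntegral.integral_neg]
      have h3 : ∫ u in s..t, star (f (-u)) = ∫ u in (-t)..(-s), star (f u) :=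
        intervalIntegral.integral_comp_neg (fun u => star (f u))
      rw [h3, intervalIntegral.integral_symm, neg_neg, intervalIntegral, intervalIntegral, map_sub]
      congr 1
      · exact ((starL' ℝ : (Fin 3 → ℂ) ≃L[ℝ] (Fin 3 → ℂ)).integral_comp_comm _)
      · exact ((starL' ℝ : (Fin 3 → ℂ) ≃L[ℝ] (Fin 3 → ℂ)).integral_comp_comm _)
    rw [h2, ← h1, map_sub]
    change star (F ((starRingEnd ℂ) (ep 1 t))) - star (F ((starRingEnd ℂ) (ep 1 s))) = _
    rw [conj_ep, conj_ep]
    rfl

end Pool.Agent.FBM.EWH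

namespace Pool.Agent.FBM

theorem t_EWH (hEHW : Stmt_EHW) : Stmt_EWH := by
  intro F f i a c t₀ hR ha hc hW hH
  obtain ⟨G, ρ, ⟨hρ, hρ1, hd, he⟩, hS, hP⟩ := hEHW (EWH.mF F) (EWH.mf f) i (-c) (-a) (-t₀)
    (EWH.reg hR) (by linarith) (by linarith)
    (by
      refine ⟨fun t ht => ?_, ?_⟩
      · simp only [EWH.mF_re]
        exact hH.1 (-t) ⟨by linarith [ht.2], by linarith [ht.1]⟩
      · filter_upwards [EWH.ae_neg hH.2] with t ht htm j
        simp only [EWH.mF_re, EWH.mf_im]
        exact ht ⟨by linarith [htm.2], by linarith [htm.1]⟩ j)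
    (by
      refine ⟨fun t ht => ?_, fun j hj s hs t ht => ?_⟩
      · rw [EWH.mF_re]
        exact hW.1 (-t) ⟨by linarith [ht.2], by linarith [ht.1]⟩
      · rw [EWH.mF_im, EWH.mF_im,
          hW.2 j hj (-s) ⟨by linarith [hs.2], by linarith [hs.1]⟩ (-t)
            ⟨by linarith [ht.2], by linarith [ht.1]⟩])
  have hnorm : ∀ w : ℂ, ‖Complex.I * (starRingEnd ℂ) w‖ = ‖w‖ := by
    intro w
    rw [norm_mul, Complex.norm_I, one_mul, Complex.norm_conj]
  -- derivative of the mirrored extension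
  have hder : ∀ w : ℂ, ‖w‖ < ρ → HasDerivAt
      (fun ζ : ℂ => star (G (Complex.I * (starRingEnd ℂ) ζ)))
      (star (Complex.I • deriv G (Complex.I * (starRingEnd ℂ) w))) w := by
    intro w hw
    have hm : Complex.I * (starRingEnd ℂ) w ∈ Metric.ball (0 : ℂ) ρ := by
      rw [mem_ball_zero_iff, hnorm]
      exact hw
    have h1 : HasDerivAt G (deriv G (Complex.I * (starRingEnd ℂ) w))
        (Complex.I * (starRingEnd ℂ) w) :=
      ((hd _ hm).differentiableAt (Metric.isOpen_ball.mem_nhds hm)).hasDerivAt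
    have h2 : HasDerivAt (fun v : ℂ => Complex.I * v) Complex.I ((starRingEnd ℂ) w) := by
      simpa using (hasDerivAt_id ((starRingEnd ℂ) w)).const_mul Complex.I
    have h3 : HasDerivAt (fun v : ℂ => G (Complex.I * v))
        (Complex.I • deriv G (Complex.I * (starRingEnd ℂ) w)) ((starRingEnd ℂ) w) :=
      HasDerivAt.scomp ((starRingEnd ℂ) w) h1 h2
    have h4 := h3.star_conj
    rw [Complex.conj_conj] at h4
    exact h4
  refine ⟨fun ζ => star (G (Complex.I * (starRingEnd ℂ) ζ)), ρ, ⟨hρ, hρ1, ?_, ?_⟩, ?_, ?_⟩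
  · intro w hw
    rw [mem_ball_zero_iff] at hw
    exact (hder w hw).differentiableAt.differentiableWithinAt
  · intro ζ hζ hre him
    have h1 := he (Complex.I * (starRingEnd ℂ) ζ) (by rw [hnorm]; exact hζ)
      (by simpa using him) (by simpa using hre)
    change star (G (Complex.I * (starRingEnd ℂ) ζ)) = _
    rw [h1]
    funext j
    change (starRingEnd ℂ) (EWH.mF F (psi (-t₀) ((Complex.I * (starRingEnd ℂ) ζ) ^ 2)) j) = _
    rw [EWH.mF_apply, Complex.conj_conj]
    have h2 : (Complex.I * (starRingEnd ℂ) ζ) ^ 2 = -(starRingEnd ℂ) (ζ ^ 2) := by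
      rw [mul_pow, Complex.I_sq, map_pow]
      ring
    rw [h2, EWH.conj_psi]
  · intro j w hw
    have h1 := hS j (Complex.I * (starRingEnd ℂ) w) (by rw [hnorm]; exact hw)
    have h2 : (starRingEnd ℂ) (Complex.I * (starRingEnd ℂ) w)
        = Complex.I * (starRingEnd ℂ) (-(starRingEnd ℂ) w) := by
      rw [map_mul, Complex.conj_I, Complex.conj_conj, map_neg, Complex.conj_conj]
      ring
    rw [h2] at h1
    exact h1
  · intro x hx
    have hxc : Complex.I * (starRingEnd ℂ) (x : ℂ) = (x : ℂ) * Complex.I := by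
      rw [Complex.conj_ofReal, mul_comm]
    obtain ⟨h1, κ, hκ⟩ := hP x hx
    refine ⟨?_, -κ, fun j => ?_⟩
    · have : ∀ j : Fin 3, ((star (G (Complex.I * (starRingEnd ℂ) (x : ℂ)))) j).re
          = (G ((x : ℂ) * Complex.I) j).re := by
        intro j
        rw [hxc]
        rfl
      simp only [this]
      exact h1
    · have hxn : ‖(x : ℂ)‖ < ρ := by
        rw [Complex.norm_real]
        exact hx
      have hm : (x : ℂ) * Complex.I ∈ Metric.ball (0 : ℂ) ρ := by
        rw [mem_ball_zero_iff, norm_mul, Complex.norm_I, mul_one]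
        exact hxn
      have h2 := hasDerivAt_pi.1 (hder (x : ℂ) hxn) j
      have h3 : HasDerivAt (fun w => G w j) (deriv G ((x : ℂ) * Complex.I) j)
          ((x : ℂ) * Complex.I) :=
        hasDerivAt_pi.1 ((hd _ hm).differentiableAt (Metric.isOpen_ball.mem_nhds hm)).hasDerivAt j
      have h4 := hκ j
      rw [h3.deriv] at h4
      have h5 := h2.deriv
      change deriv (fun w => (star (G (Complex.I * (starRingEnd ℂ) w))) j) (x : ℂ)
        = _ at h5
      change (deriv (fun w => (star (G (Complex.I * (starRingEnd ℂ) w))) j) (x : ℂ)).im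
        = -κ * ((star (G (Complex.I * (starRingEnd ℂ) (x : ℂ)))) j).re
      rw [h5, hxc]
      change ((starRingEnd ℂ) (Complex.I * deriv G ((x : ℂ) * Complex.I) j)).im
        = -κ * ((starRingEnd ℂ) (G ((x : ℂ) * Complex.I) j)).re
      rw [Complex.conj_im, Complex.conj_re, neg_mul, ← h4]
      simp

end Pool.Agent.FBM
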