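import Pool.Agent.FBM.StmtE

/-!
# EXA: the exponential of an absolutely continuous function
-/

open MeasureTheory Set Filter Topology
open scoped Real Nat Interval

namespace Pool.Agent.FBM

namespace EXA

variable {f f' : ℝ → ℂ} {a b : ℝ}

theorem cont (hab : a ≤ b) (hf' : IntervalIntegrable f' volume a b)
    (hf : ∀ t ∈ Icc a b, f t = f a + ∫ s in a..t, f' s) : ContinuousOn f (Icc a b) := by
  have h1 := intervalIntegral.continuousOn_primitive_interval' hf' left_mem_uIcc
  rw [uIcc_of_le hab] at h1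
  exact (continuousOn_const.add h1).congr hf

theorem pow_eq (hIBP : Stmt_IBP) (hab : a ≤ b) (hf' : IntervalIntegrable f' volume a b)
    (hf : ∀ t ∈ Icc a b, f t = f a + ∫ s in a..t, f' s) (n : ℕ) :
    IntervalIntegrable (fun s => ((n : ℂ) + 1) * (f s ^ n * f' s)) volume a b ∧
    ∀ t ∈ Icc a b, f t ^ (n + 1) = f a ^ (n + 1) +
      ∫ s in a..t, ((n : ℂ) + 1) * (f s ^ n * f' s) := by
  induction n with
  | zero =>
    have h0 : (fun s => (((0 : ℕ) : ℂ) + 1) * (f s ^ 0 * f' s)) = f' := by
      funext s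
      simp
    rw [h0]
    refine ⟨hf', fun t ht => ?_⟩
    rw [zero_add, pow_one, pow_one]
    exact hf t ht
  | succ n ih =>
    obtain ⟨h1, h2⟩ := hIBP (fun t => f t ^ (n + 1)) f
      (fun s => ((n : ℂ) + 1) * (f s ^ n * f' s)) f' a b hab ih.1 hf' ih.2 hf
    have h0 : (fun s => (((n + 1 : ℕ) : ℂ) + 1) * (f s ^ (n + 1) * f' s)) =
        fun s => ((n : ℂ) + 1) * (f s ^ n * f' s) * f s + f s ^ (n + 1) * f' s := by
      funext s
      push_cast
      ring
    rw [h0]
    refine ⟨h1, fun t ht => ?_⟩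
    rw [pow_succ (f t), pow_succ (f a)]
    exact h2 t ht

theorem hasSum_exp (z : ℂ) : HasSum (fun n : ℕ => z ^ n / (n ! : ℂ)) (Complex.exp z) := by
  rw [Complex.exp_eq_exp_ℂ]
  exact NormedSpace.expSeries_div_hasSum_exp z

end EXA

open EXA in
/-- EXA: the exponential of an absolutely continuous function. -/
theorem t_EXA (hIBP : Stmt_IBP) : Stmt_EXA := by
  intro f f' a b hab hf' hf t ht
  have hc := cont hab hf' hf
  obtain ⟨C, hC⟩ := isCompact_Icc.exists_bound_of_continuousOn hc
  have hsub : Icc a t ⊆ Icc a b := Icc_subset_Icc le_rfl ht.2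
  have hft : IntervalIntegrable f' volume a t := by
    refine hf'.mono_set ?_
    rw [uIcc_of_le ht.1, uIcc_of_le hab]
    exact hsub
  have hIoc : Ι a t ⊆ Icc a b := by
    rw [uIoc_of_le ht.1]
    exact Ioc_subset_Icc_self.trans hsub
  -- the integrals
  have hint : ∀ n : ℕ, ∫ s in a..t, f s ^ n / (n ! : ℂ) * f' s =
      f t ^ (n + 1) / ((n + 1)! : ℂ) - f a ^ (n + 1) / ((n + 1)! : ℂ) := by
    intro n
    have h1 := (pow_eq hIBP hab hf' hf n).2 t ht
    have h2 : (fun s => f s ^ n / (n ! : ℂ) * f' s) =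
        fun s => (1 / ((n + 1)! : ℂ)) * (((n : ℂ) + 1) * (f s ^ n * f' s)) := by
      funext s
      have h3 : ((n + 1)! : ℂ) = ((n : ℂ) + 1) * (n ! : ℂ) := by
        rw [Nat.factorial_succ]
        push_cast
        ring
      have h4 : (n ! : ℂ) ≠ 0 := Nat.cast_ne_zero.2 (Nat.factorial_ne_zero n)
      have h5 : (n : ℂ) + 1 ≠ 0 := Nat.cast_add_one_ne_zero n
      rw [h3]
      field_simp
    rw [h2, intervalIntegral.integral_const_mul, h1]
    ring
  have hC0 : 0 ≤ C := le_trans (norm_nonneg _) (hC t ht)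
  have hsumC : Summable fun n : ℕ => C ^ n / (n ! : ℝ) := Real.summable_pow_div_factorial C
  have hS : HasSum (fun n : ℕ => ∫ s in a..t, f s ^ n / (n ! : ℂ) * f' s)
      (∫ s in a..t, Complex.exp (f s) * f' s) := by
    refine intervalIntegral.hasSum_integral_of_dominated_convergence
      (fun n s => C ^ n / (n ! : ℝ) * ‖f' s‖) (fun n => ?_) (fun n => ?_) ?_ ?_ ?_
    · have h1 : AEStronglyMeasurable f (volume.restrict (Ι a t)) :=
        (hc.mono hIoc).aestronglyMeasurable measurableSet_uIoc
      have h2 : AEStronglyMeasurable f' (volume.restrict (Ι a t)) :=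
        hft.def'.aestronglyMeasurable
      have h3 : AEStronglyMeasurable (fun s => f s ^ n * (1 / (n ! : ℂ)))
          (volume.restrict (Ι a t)) := (h1.pow n).mul_const _
      have h4 : (fun s => f s ^ n / (n ! : ℂ) * f' s) =
          fun s => f s ^ n * (1 / (n ! : ℂ)) * f' s := by
        funext s
        ring
      rw [h4]
      exact h3.mul h2
    · refine Eventually.of_forall fun s hs => ?_
      rw [norm_mul, norm_div, norm_pow, Complex.norm_natCast]
      have h1 : ‖f s‖ ≤ C := hC s (hIoc hs)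
      gcongr
    · exact Eventually.of_forall fun s _ => hsumC.mul_right _
    · have h1 : (fun s => ∑' n : ℕ, C ^ n / (n ! : ℝ) * ‖f' s‖) =
          fun s => (∑' n : ℕ, C ^ n / (n ! : ℝ)) * ‖f' s‖ := by
        funext s
        exact tsum_mul_right
      rw [h1]
      exact hft.norm.const_mul _
    · exact Eventually.of_forall fun s _ => (hasSum_exp (f s)).mul_right _
  have hS2 : HasSum (fun n : ℕ => ∫ s in a..t, f s ^ n / (n ! : ℂ) * f' s)
      (Complex.exp (f t) - Complex.exp (f a)) := by
    have h1 := (hasSum_nat_add_iff' 1).2 ((hasSum_exp (f t)).sub (hasSum_exp (f a)))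
    simp only [Finset.range_one, Finset.sum_singleton, pow_zero, sub_self, sub_zero] at h1
    refine h1.congr_fun ?_
    intro n
    exact hint n
  have h := hS.unique hS2
  have h2 : (fun s => f' s * Complex.exp (f s)) = fun s => Complex.exp (f s) * f' s :=
    funext fun s => mul_comm _ _
  rw [h2, h]
  ring

end Pool.Agent.FBM
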